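import Pool.Agent.Lib.MP_39e402_gt.R.Pull3

/-! Part R1, fourth file: the Ricci form is the trace of the curvature; naturality of Ricci. -/

open Set Filter Topology
open scoped ContDiff BigOperators

set_option linter.unusedSimpArgs false

noncomputable section

namespace Pool.Agent.MP39e402.RR

variable {n : ℕ} {g g' : RMetric n} {V V' : Set (EE n)} {Φ : EE n → EE n}

/-- the Jacobi operator `a ↦ R(a, v) v` -/
def Rmap (g : RMetric n) (x v : EE n) : EE n →ₗ[ℝ] EE n where
  toFun a := curvL g x a v v
  map_add' a b := by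
    simp only [curvL, map_add, add_apply]
    module
  map_smul' c a := by
    simp only [curvL, map_smul, smul_apply, RingHom.id_apply]
    module

theorem Rmap_apply (g : RMetric n) (x v a : EE n) : Rmap g x v a = curvL g x a v v := rfl

theorem trace_eq_sum (f : EE n →ₗ[ℝ] EE n) :
    LinearMap.trace ℝ (EE n) f = ∑ k, f (EuclideanSpace.single k 1) k := by
  rw [LinearMap.trace_eq_matrix_trace ℝ (EuclideanSpace.basisFun (Fin n) ℝ).toBasis]
  simp [Matrix.trace, LinearMap.toMatrix_apply]

theorem pd_chr_symm (hg : IsRMetricOn g V) {x : EE n} (hx : x ∈ V) (m k i j : Fin n) :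
    pd m (christoffel g k i j) x = pd m (christoffel g k j i) x :=
  pd_congr_of_eqOn m hg.isOpen hx fun _ hy => christoffel_symm hg hy k i j

theorem Rmap_diag (hg : IsRMetricOn g V) {x : EE n} (hx : x ∈ V) (v : EE n) (k : Fin n) :
    Rmap g x v (EuclideanSpace.single k 1) k
      = ∑ i, ∑ j, (pd k (christoffel g k i j) x - pd j (christoffel g k i k) x
        + ∑ l, (christoffel g k k l x * christoffel g l i j x
          - christoffel g k j l x * christoffel g l i k x)) * v i * v j := by
  have e1 : fderiv ℝ (GamL g) x (EuclideanSpace.single k 1) v v k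
      = ∑ i, ∑ j, pd k (christoffel g k i j) x * v i * v j := by
    rw [fderiv_GamL hg hx]
    simp [Pi.single_apply]
  have e2 : fderiv ℝ (GamL g) x v (EuclideanSpace.single k 1) v k
      = ∑ i, ∑ j, pd j (christoffel g k i k) x * v i * v j := by
    rw [fderiv_GamL hg hx]
    simp only [PiLp.single_apply, mul_ite, mul_one, mul_zero, ite_mul, zero_mul]
    rw [Finset.sum_comm]
    simp only [Finset.sum_ite_eq', Finset.mem_univ, if_true]
    refine Finset.sum_congr rfl fun i _ => ?_
    rw [Finset.sum_mul]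
    refine Finset.sum_congr rfl fun j _ => ?_
    rw [pd_chr_symm hg hx j k k i]; ring
  have e3 : GamL g x (EuclideanSpace.single k 1) (GamL g x v v) k
      = ∑ i, ∑ j, (∑ l, christoffel g k k l x * christoffel g l i j x) * v i * v j := by
    rw [GamL_apply]
    simp only [PiLp.single_apply, mul_ite, mul_one, mul_zero, ite_mul, zero_mul]
    rw [Finset.sum_comm]
    simp only [Finset.sum_ite_eq', Finset.mem_univ, if_true, GamL_apply, Finset.mul_sum, Finset.sum_mul]
    rw [Finset.sum_comm]
    refine Finset.sum_congr rfl fun i _ => ?_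
    rw [Finset.sum_comm]
    exact Finset.sum_congr rfl fun j _ => Finset.sum_congr rfl fun l _ => by ring
  have e4 : GamL g x v (GamL g x (EuclideanSpace.single k 1) v) k
      = ∑ i, ∑ j, (∑ l, christoffel g k j l x * christoffel g l i k x) * v i * v j := by
    rw [GamL_apply]
    have h : ∀ l, GamL g x (EuclideanSpace.single k 1) v l = ∑ i, christoffel g l i k x * v i := by
      intro l
      rw [GamL_apply]
      simp only [PiLp.single_apply, mul_ite, mul_one, mul_zero, ite_mul, zero_mul]
      rw [Finset.sum_comm]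
      simp only [Finset.sum_ite_eq', Finset.mem_univ, if_true]
      exact Finset.sum_congr rfl fun i _ => by rw [christoffel_symm hg hx l k i]
    simp_rw [h, Finset.mul_sum, Finset.sum_mul]
    calc ∑ j, ∑ l, ∑ i, christoffel g k j l x * v j * (christoffel g l i k x * v i)
        = ∑ j, ∑ i, ∑ l, christoffel g k j l x * v j * (christoffel g l i k x * v i) :=
          Finset.sum_congr rfl fun j _ => Finset.sum_comm
      _ = ∑ i, ∑ j, ∑ l, christoffel g k j l x * v j * (christoffel g l i k x * v i) :=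
          Finset.sum_comm
      _ = _ := Finset.sum_congr rfl fun i _ => Finset.sum_congr rfl fun j _ =>
          Finset.sum_congr rfl fun l _ => by ring
  rw [Rmap_apply, curvL, PiLp.sub_apply, PiLp.add_apply, PiLp.sub_apply, e1, e2, e3, e4,
    ← Finset.sum_sub_distrib, ← Finset.sum_add_distrib, ← Finset.sum_sub_distrib]
  refine Finset.sum_congr rfl fun i _ => ?_
  rw [← Finset.sum_sub_distrib, ← Finset.sum_add_distrib, ← Finset.sum_sub_distrib]
  refine Finset.sum_congr rfl fun j _ => ?_
  rw [Finset.sum_sub_distrib]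
  ring

theorem ricquad_eq_trace (hg : IsRMetricOn g V) {x : EE n} (hx : x ∈ V) (v : EE n) :
    ricquad g x v = LinearMap.trace ℝ (EE n) (Rmap g x v) := by
  rw [trace_eq_sum]
  simp_rw [Rmap_diag hg hx]
  rw [Finset.sum_comm]
  unfold ricquad ricci
  refine Finset.sum_congr rfl fun i _ => ?_
  rw [Finset.sum_comm]
  refine Finset.sum_congr rfl fun j _ => ?_
  rw [Finset.sum_mul, Finset.sum_mul]

/-- R1: naturality of the Ricci tensor under local isometries. -/
theorem RLocIso.ricquad_pull (h : RLocIso g V g' V' Φ) {x : EE n} (hx : x ∈ V') (v : EE n) :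
    ricquad g' x v = ricquad g (Φ x) (fderiv ℝ Φ x v) := by
  rw [ricquad_eq_trace h.hg' hx, ricquad_eq_trace h.hg (h.maps hx)]
  let e : EE n ≃ₗ[ℝ] EE n := LinearEquiv.ofBijective (fderiv ℝ Φ x : EE n →ₗ[ℝ] EE n)
    ⟨h.injective hx, h.surjective hx⟩
  have he : ∀ a, e a = fderiv ℝ Φ x a := fun a => rfl
  have hc : e.conj (Rmap g' x v) = Rmap g (Φ x) (fderiv ℝ Φ x v) := by
    ext1 b
    obtain ⟨a, rfl⟩ := e.surjective b
    rw [LinearEquiv.conj_apply_apply, LinearEquiv.symm_apply_apply, he, he, Rmap_apply, Rmap_apply]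
    exact h.curv hx a v v
  rw [← hc, LinearMap.trace_conj']

/-- R1, unbundled form. -/
theorem ricquad_pullback (hg : IsRMetricOn g V) (hg' : IsRMetricOn g' V')
    (hΦ : ContDiffOn ℝ ∞ Φ V') (hm : MapsTo Φ V' V)
    (hiso : ∀ x ∈ V', ∀ v, gquad g' x v = gquad g (Φ x) (fderiv ℝ Φ x v)) {x : EE n} (hx : x ∈ V')
    (v : EE n) : ricquad g' x v = ricquad g (Φ x) (fderiv ℝ Φ x v) :=
  RLocIso.ricquad_pull ⟨hg, hg', hΦ, hm, hiso⟩ hx v

theorem RLocIso.gquad_fderiv (h : RLocIso g V g' V' Φ) {x : EE n} (hx : x ∈ V') (v : EE n) :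
    gquad g' x v = gquad g (Φ x) (fderiv ℝ Φ x v) := h.iso x hx v

/-- lower Ricci bounds are pulled back by local isometries -/
theorem RLocIso.ricGE_pull (h : RLocIso g V g' V' Φ) {κ : ℝ} (hR : RicGE g V κ) : RicGE g' V' κ := by
  intro x hx v
  rw [h.iso x hx, h.ricquad_pull hx]
  exact hR _ (h.maps hx) _

/-- lower Ricci bounds are pushed forward by local isometries -/
theorem RLocIso.ricGE_push (h : RLocIso g V g' V' Φ) {κ : ℝ} (hR : RicGE g' V' κ) :
    RicGE g (Φ '' V') κ := by
  rintro _ ⟨x, hx, rfl⟩ w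
  obtain ⟨v, rfl⟩ := h.surjective hx w
  have := hR x hx v
  rwa [h.iso x hx, h.ricquad_pull hx] at this

/-- pointwise version of `ricGE_push` -/
theorem RLocIso.ricGE_push_at (h : RLocIso g V g' V' Φ) {κ : ℝ} {x : EE n} (hx : x ∈ V')
    (hR : ∀ v, κ * gquad g' x v ≤ ricquad g' x v) (w : EE n) :
    κ * gquad g (Φ x) w ≤ ricquad g (Φ x) w := by
  obtain ⟨v, rfl⟩ := h.surjective hx w
  have := hR v
  rwa [h.iso x hx, h.ricquad_pull hx] at this

end Pool.Agent.MP39e402.RR
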