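import Pool.Agent.Lib.MP_39e402_gt.Defs

/-! Part R, basics: calculus of the partial derivatives `pd`. -/

open Set Filter Topology
open scoped ContDiff BigOperators

noncomputable section

namespace Pool.Agent.MP39e402.RR

variable {n : ℕ}

theorem pd_congr {f g : EE n → ℝ} {x : EE n} (i : Fin n) (h : f =ᶠ[𝓝 x] g) :
    pd i f x = pd i g x := by
  unfold pd; rw [h.fderiv_eq]

theorem pd_congr_of_eqOn {f g : EE n → ℝ} {U : Set (EE n)} {x : EE n} (i : Fin n) (hU : IsOpen U)
    (hx : x ∈ U) (h : EqOn f g U) : pd i f x = pd i g x :=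
  pd_congr i (h.eventuallyEq_of_mem (hU.mem_nhds hx))

@[simp] theorem pd_const (i : Fin n) (c : ℝ) (x : EE n) : pd i (fun _ => c) x = 0 := by
  simp [pd]

theorem pd_add {f g : EE n → ℝ} {x : EE n} (i : Fin n) (hf : DifferentiableAt ℝ f x)
    (hg : DifferentiableAt ℝ g x) : pd i (fun y => f y + g y) x = pd i f x + pd i g x := by
  unfold pd; rw [fderiv_fun_add hf hg]; rfl

theorem pd_sub {f g : EE n → ℝ} {x : EE n} (i : Fin n) (hf : DifferentiableAt ℝ f x)
    (hg : DifferentiableAt ℝ g x) : pd i (fun y => f y - g y) x = pd i f x - pd i g x := by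
  unfold pd; rw [fderiv_fun_sub hf hg]; rfl

theorem pd_neg {f : EE n → ℝ} {x : EE n} (i : Fin n) : pd i (fun y => -f y) x = -pd i f x := by
  unfold pd; rw [fderiv_fun_neg]; rfl

theorem pd_mul {f g : EE n → ℝ} {x : EE n} (i : Fin n) (hf : DifferentiableAt ℝ f x)
    (hg : DifferentiableAt ℝ g x) :
    pd i (fun y => f y * g y) x = pd i f x * g x + f x * pd i g x := by
  unfold pd; rw [fderiv_fun_mul hf hg]
  change f x * fderiv ℝ g x (EuclideanSpace.single i 1) + g x * fderiv ℝ f x (EuclideanSpace.single i 1) = _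
  ring

theorem pd_const_mul {f : EE n → ℝ} {x : EE n} (i : Fin n) (c : ℝ) (hf : DifferentiableAt ℝ f x) :
    pd i (fun y => c * f y) x = c * pd i f x := by
  rw [pd_mul i (differentiableAt_const c) hf, pd_const]; ring

theorem pd_sum {ι : Type*} (s : Finset ι) {f : ι → EE n → ℝ} {x : EE n} (i : Fin n)
    (hf : ∀ a ∈ s, DifferentiableAt ℝ (f a) x) :
    pd i (fun y => ∑ a ∈ s, f a y) x = ∑ a ∈ s, pd i (f a) x := by
  unfold pd
  rw [fderiv_fun_sum hf]
  simp

theorem pd_comp_real {ψ : ℝ → ℝ} {f : EE n → ℝ} {x : EE n} (i : Fin n)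
    (hψ : DifferentiableAt ℝ ψ (f x)) (hf : DifferentiableAt ℝ f x) :
    pd i (fun y => ψ (f y)) x = deriv ψ (f x) * pd i f x := by
  unfold pd
  have := (hψ.hasDerivAt.hasFDerivAt.comp x hf.hasFDerivAt).fderiv
  change fderiv ℝ (fun y => ψ (f y)) x = _ at this
  rw [this]
  simp [mul_comm]

theorem pd_inv {f : EE n → ℝ} {x : EE n} (i : Fin n) (hf : DifferentiableAt ℝ f x) (h0 : f x ≠ 0) :
    pd i (fun y => (f y)⁻¹) x = -pd i f x / f x ^ 2 := by
  rw [pd_comp_real (ψ := fun t => t⁻¹) i (differentiableAt_inv h0) hf]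
  rw [deriv_inv]
  field_simp

theorem pd_div {f g : EE n → ℝ} {x : EE n} (i : Fin n) (hf : DifferentiableAt ℝ f x)
    (hg : DifferentiableAt ℝ g x) (h0 : g x ≠ 0) :
    pd i (fun y => f y / g y) x = (pd i f x * g x - f x * pd i g x) / g x ^ 2 := by
  have : (fun y => f y / g y) = fun y => f y * (g y)⁻¹ := by funext y; rw [div_eq_mul_inv]
  have hgi : DifferentiableAt ℝ (fun y => (g y)⁻¹) x := hg.inv h0
  rw [this, pd_mul i hf hgi, pd_inv i hg h0]
  field_simp
  ring

theorem pd_coord (i j : Fin n) (x : EE n) : pd i (fun y : EE n => y j) x = if i = j then 1 else 0 := by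
  unfold pd
  have h : (fun y : EE n => y j) = fun y => (EuclideanSpace.proj (𝕜 := ℝ) j : EE n →L[ℝ] ℝ) y := by
    funext y; rfl
  rw [h, ContinuousLinearMap.fderiv]
  change (EuclideanSpace.single i (1 : ℝ) : EE n) j = _
  simp [Pi.single_apply, eq_comm]

/-- A function which does not depend on the `i`-th coordinate has `pd i f = 0`. -/
theorem pd_indep {f : EE n → ℝ} {x : EE n} (i : Fin n)
    (h : ∀ (y : EE n) (t : ℝ), f (y + t • EuclideanSpace.single i (1 : ℝ)) = f y) :
    pd i f x = 0 := by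
  unfold pd
  by_cases hf : DifferentiableAt ℝ f x
  · have h1 : HasDerivAt (fun t : ℝ => f (x + t • EuclideanSpace.single i (1 : ℝ)))
        (fderiv ℝ f x (EuclideanSpace.single i 1)) 0 := by
      have h2 : HasDerivAt (fun t : ℝ => x + t • EuclideanSpace.single i (1 : ℝ))
          (EuclideanSpace.single i (1 : ℝ)) 0 := by
        simpa using ((hasDerivAt_id (0 : ℝ)).smul_const (EuclideanSpace.single i (1 : ℝ))).const_add x
      have h3 : HasFDerivAt f (fderiv ℝ f x) (x + (0 : ℝ) • EuclideanSpace.single i (1 : ℝ)) := by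
        simpa using hf.hasFDerivAt
      exact h3.comp_hasDerivAt 0 h2
    have h4 : HasDerivAt (fun t : ℝ => f (x + t • EuclideanSpace.single i (1 : ℝ))) 0 0 := by
      have : (fun t : ℝ => f (x + t • EuclideanSpace.single i (1 : ℝ))) = fun _ => f x := by
        funext t; exact h x t
      rw [this]; exact hasDerivAt_const 0 (f x)
    exact h1.unique h4
  · rw [fderiv_zero_of_not_differentiableAt hf]; rfl

theorem fderiv_eq_sum_pd (f : EE n → ℝ) (x v : EE n) :
    fderiv ℝ f x v = ∑ i, v i * pd i f x := by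
  have hv : v = ∑ i, v i • EuclideanSpace.single i (1 : ℝ) := by
    ext j
    simp [Pi.single_apply]
  conv_lhs => rw [hv]
  rw [map_sum]
  simp [pd]

theorem contDiffOn_pd {f : EE n → ℝ} {V : Set (EE n)} (i : Fin n) (hV : IsOpen V)
    (hf : ContDiffOn ℝ ∞ f V) : ContDiffOn ℝ ∞ (pd i f) V := by
  have h1 : ContDiffOn ℝ ∞ (fderiv ℝ f) V := hf.fderiv_of_isOpen hV (by simp)
  exact h1.clm_apply contDiffOn_const

theorem differentiableAt_of_smooth {f : EE n → ℝ} {V : Set (EE n)} {x : EE n} (hV : IsOpen V)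
    (hf : ContDiffOn ℝ ∞ f V) (hx : x ∈ V) : DifferentiableAt ℝ f x :=
  (hf.contDiffAt (hV.mem_nhds hx)).differentiableAt (by simp)

theorem differentiableAt_pd {f : EE n → ℝ} {V : Set (EE n)} {x : EE n} (i : Fin n) (hV : IsOpen V)
    (hf : ContDiffOn ℝ ∞ f V) (hx : x ∈ V) : DifferentiableAt ℝ (pd i f) x :=
  differentiableAt_of_smooth hV (contDiffOn_pd i hV hf) hx

theorem pd_comm {f : EE n → ℝ} {V : Set (EE n)} {x : EE n} (i j : Fin n) (hV : IsOpen V)
    (hf : ContDiffOn ℝ ∞ f V) (hx : x ∈ V) : pd i (pd j f) x = pd j (pd i f) x := by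
  have hc : ContDiffAt ℝ ∞ f x := hf.contDiffAt (hV.mem_nhds hx)
  have hs : IsSymmSndFDerivAt ℝ f x := hc.isSymmSndFDerivAt (by
    simp only [minSmoothness_of_isRCLikeNormedField]; exact WithTop.coe_le_coe.2 (le_top : (2 : ℕ∞) ≤ ⊤))
  have hd : DifferentiableAt ℝ (fderiv ℝ f) x :=
    ((hf.fderiv_of_isOpen hV (by simp : (∞ : WithTop ℕ∞) + 1 ≤ ∞)).contDiffAt
      (hV.mem_nhds hx)).differentiableAt (by simp)
  have key : ∀ a b : Fin n, pd a (pd b f) x
      = fderiv ℝ (fderiv ℝ f) x (EuclideanSpace.single a 1) (EuclideanSpace.single b 1) := by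
    intro a b
    have h1 : HasFDerivAt (pd b f) ((fderiv ℝ (fderiv ℝ f) x).flip (EuclideanSpace.single b 1)) x := by
      have h2 := hd.hasFDerivAt
      have h3 := (ContinuousLinearMap.apply ℝ ℝ (EuclideanSpace.single b (1 : ℝ) : EE n)).hasFDerivAt
        (x := fderiv ℝ f x)
      have h4 := h3.comp x h2
      refine h4.congr_fderiv ?_
      ext v; rfl
    unfold pd at h1 ⊢
    rw [h1.fderiv]
    rfl
  rw [key, key]
  exact hs _ _

/-- second derivatives of a product of smooth functions -/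
theorem pdpd_mul {f g : EE n → ℝ} {V : Set (EE n)} {x : EE n} (m i : Fin n) (hV : IsOpen V)
    (hf : ContDiffOn ℝ ∞ f V) (hg : ContDiffOn ℝ ∞ g V) (hx : x ∈ V) :
    pd m (pd i (fun y => f y * g y)) x
      = pd m (pd i f) x * g x + pd i f x * pd m g x + pd m f x * pd i g x + f x * pd m (pd i g) x := by
  have h1 : EqOn (pd i (fun y => f y * g y)) (fun y => pd i f y * g y + f y * pd i g y) V := by
    intro y hy
    exact pd_mul i (differentiableAt_of_smooth hV hf hy) (differentiableAt_of_smooth hV hg hy)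
  rw [pd_congr_of_eqOn m hV hx h1]
  have a1 := differentiableAt_of_smooth hV hf hx
  have a2 := differentiableAt_of_smooth hV hg hx
  have b1 := differentiableAt_pd i hV hf hx
  have b2 := differentiableAt_pd i hV hg hx
  have c1 : DifferentiableAt ℝ (fun y => pd i f y * g y) x := b1.mul a2
  have c2 : DifferentiableAt ℝ (fun y => f y * pd i g y) x := a1.mul b2
  rw [pd_add m c1 c2, pd_mul m b1 a2, pd_mul m a1 b2]
  ring

/-- second derivatives of a sum of smooth functions -/
theorem pdpd_add {f g : EE n → ℝ} {V : Set (EE n)} {x : EE n} (m i : Fin n) (hV : IsOpen V)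
    (hf : ContDiffOn ℝ ∞ f V) (hg : ContDiffOn ℝ ∞ g V) (hx : x ∈ V) :
    pd m (pd i (fun y => f y + g y)) x = pd m (pd i f) x + pd m (pd i g) x := by
  have h1 : EqOn (pd i (fun y => f y + g y)) (fun y => pd i f y + pd i g y) V := by
    intro y hy
    exact pd_add i (differentiableAt_of_smooth hV hf hy) (differentiableAt_of_smooth hV hg hy)
  rw [pd_congr_of_eqOn m hV hx h1]
  rw [pd_add m (differentiableAt_pd i hV hf hx) (differentiableAt_pd i hV hg hx)]

/-- second derivatives of a composition with a function of one variable -/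
theorem pdpd_comp_real {ψ : ℝ → ℝ} {f : EE n → ℝ} {V : Set (EE n)} {x : EE n} (m i : Fin n)
    (hV : IsOpen V) (hψ : ContDiff ℝ ∞ ψ) (hf : ContDiffOn ℝ ∞ f V) (hx : x ∈ V) :
    pd m (pd i (fun y => ψ (f y))) x
      = deriv (deriv ψ) (f x) * pd m f x * pd i f x + deriv ψ (f x) * pd m (pd i f) x := by
  have hψ1 : Differentiable ℝ ψ := hψ.differentiable (by simp)
  have hψ2 : Differentiable ℝ (deriv ψ) := by
    have := (contDiff_succ_iff_deriv (n := 1) (f := ψ)).1 (hψ.of_le (WithTop.coe_le_coe.2 (le_top : (1 + 1 : ℕ∞) ≤ ⊤)))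
    exact this.2.2.differentiable (by simp)
  have h1 : EqOn (pd i (fun y => ψ (f y))) (fun y => deriv ψ (f y) * pd i f y) V := by
    intro y hy
    exact pd_comp_real i (hψ1 _) (differentiableAt_of_smooth hV hf hy)
  rw [pd_congr_of_eqOn m hV hx h1]
  have a1 := differentiableAt_of_smooth hV hf hx
  have c1 : DifferentiableAt ℝ (fun y => deriv ψ (f y)) x := (hψ2 _).comp x a1
  rw [pd_mul m c1 (differentiableAt_pd i hV hf hx)]
  rw [pd_comp_real m (hψ2 _) a1]

end Pool.Agent.MP39e402.RR
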