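import Pool.Agent.Lib.MP_39e402_gt.R.CoreGF

/-! Part U4: composite coordinate maps. -/

open Set Filter Topology
open scoped ContDiff BigOperators

set_option linter.unusedSimpArgs false

noncomputable section

namespace Pool.Agent.MP39e402.RR

/-- `y ↦ (T y, X y, y2, α y3 + β y2)` -/
def Gm (T X : EE 4 → ℝ) (α β : ℝ) (y : EE 4) : EE 4 := v4 (T y) (X y) (y 2) (α * y 3 + β * y 2)

@[simp] theorem Gm_0 (T X : EE 4 → ℝ) (α β : ℝ) (y : EE 4) : Gm T X α β y 0 = T y := rfl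
@[simp] theorem Gm_1 (T X : EE 4 → ℝ) (α β : ℝ) (y : EE 4) : Gm T X α β y 1 = X y := rfl
@[simp] theorem Gm_2 (T X : EE 4 → ℝ) (α β : ℝ) (y : EE 4) : Gm T X α β y 2 = y 2 := rfl
@[simp] theorem Gm_3 (T X : EE 4 → ℝ) (α β : ℝ) (y : EE 4) : Gm T X α β y 3 = α * y 3 + β * y 2 := rfl

theorem v4_eq (a b c d : ℝ) : v4 a b c d
    = a • (EuclideanSpace.single 0 (1:ℝ) : EE 4) + b • (EuclideanSpace.single 1 (1:ℝ) : EE 4)
      + c • (EuclideanSpace.single 2 (1:ℝ) : EE 4) + d • (EuclideanSpace.single 3 (1:ℝ) : EE 4) := by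
  ext i
  fin_cases i <;> simp [v4]

theorem contDiffOn_v4 {V : Set (EE 4)} {a b c d : EE 4 → ℝ} (ha : ContDiffOn ℝ ∞ a V)
    (hb : ContDiffOn ℝ ∞ b V) (hc : ContDiffOn ℝ ∞ c V) (hd : ContDiffOn ℝ ∞ d V) :
    ContDiffOn ℝ ∞ (fun y => v4 (a y) (b y) (c y) (d y)) V := by
  simp_rw [v4_eq]
  exact (((ha.smul contDiffOn_const).add (hb.smul contDiffOn_const)).add
    (hc.smul contDiffOn_const)).add (hd.smul contDiffOn_const)

theorem fderiv_v4 {a b c d : EE 4 → ℝ} {y : EE 4} (ha : DifferentiableAt ℝ a y)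
    (hb : DifferentiableAt ℝ b y) (hc : DifferentiableAt ℝ c y) (hd : DifferentiableAt ℝ d y) (u : EE 4) :
    fderiv ℝ (fun y => v4 (a y) (b y) (c y) (d y)) y u
      = v4 (fderiv ℝ a y u) (fderiv ℝ b y u) (fderiv ℝ c y u) (fderiv ℝ d y u) := by
  simp_rw [v4_eq]
  have h := (((ha.hasFDerivAt.smul_const (EuclideanSpace.single 0 (1:ℝ) : EE 4)).add
    (hb.hasFDerivAt.smul_const (EuclideanSpace.single 1 (1:ℝ) : EE 4))).add
    (hc.hasFDerivAt.smul_const (EuclideanSpace.single 2 (1:ℝ) : EE 4))).add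
    (hd.hasFDerivAt.smul_const (EuclideanSpace.single 3 (1:ℝ) : EE 4))
  have h2 : HasFDerivAt (fun y => a y • (EuclideanSpace.single 0 (1:ℝ) : EE 4)
      + b y • (EuclideanSpace.single 1 (1:ℝ) : EE 4) + c y • (EuclideanSpace.single 2 (1:ℝ) : EE 4)
      + d y • (EuclideanSpace.single 3 (1:ℝ) : EE 4)) _ y := h
  rw [h2.fderiv]
  rfl

theorem coord_smooth (i : Fin 4) (V : Set (EE 4)) : ContDiffOn ℝ ∞ (fun y : EE 4 => y i) V :=
  (contDiff_piLp_apply ..).contDiffOn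

theorem fderiv_coord (i : Fin 4) (y u : EE 4) : fderiv ℝ (fun y : EE 4 => y i) y u = u i := by
  have : HasFDerivAt (fun y : EE 4 => y i) (prj i) y := (prj i).hasFDerivAt
  rw [this.fderiv]; rfl

theorem fderiv_lin (α β : ℝ) (y u : EE 4) :
    fderiv ℝ (fun y : EE 4 => α * y 3 + β * y 2) y u = α * u 3 + β * u 2 := by
  have : HasFDerivAt (fun y : EE 4 => α * y 3 + β * y 2) (α • prj 3 + β • prj 2) y :=
    ((prj 3 : EE 4 →L[ℝ] ℝ).hasFDerivAt.const_mul α).add ((prj 2 : EE 4 →L[ℝ] ℝ).hasFDerivAt.const_mul β)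
  rw [this.fderiv]; rfl

theorem Gm_smooth {T X : EE 4 → ℝ} {α β : ℝ} {V : Set (EE 4)} (hT : ContDiffOn ℝ ∞ T V)
    (hX : ContDiffOn ℝ ∞ X V) : ContDiffOn ℝ ∞ (Gm T X α β) V :=
  contDiffOn_v4 hT hX (coord_smooth 2 V)
    ((contDiffOn_const.mul (coord_smooth 3 V)).add (contDiffOn_const.mul (coord_smooth 2 V)))

theorem fderiv_Gm {T X : EE 4 → ℝ} {α β : ℝ} {V : Set (EE 4)} (hV : IsOpen V)
    (hT : ContDiffOn ℝ ∞ T V) (hX : ContDiffOn ℝ ∞ X V) {y : EE 4} (hy : y ∈ V) (u : EE 4) :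
    fderiv ℝ (Gm T X α β) y u
      = v4 (fderiv ℝ T y u) (fderiv ℝ X y u) (u 2) (α * u 3 + β * u 2) := by
  have h := fderiv_v4 (a := T) (b := X) (c := fun y : EE 4 => y 2)
    (d := fun y : EE 4 => α * y 3 + β * y 2)
    (differentiableAt_of_smoothE hV hT hy) (differentiableAt_of_smoothE hV hX hy)
    (differentiableAt_of_smoothE hV (coord_smooth 2 V) hy)
    (differentiableAt_of_smoothE hV ((contDiffOn_const.mul (coord_smooth 3 V)).add
      (contDiffOn_const.mul (coord_smooth 2 V)) : ContDiffOn ℝ ∞ (fun y : EE 4 => α * y 3 + β * y 2) V) hy) u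
  rw [fderiv_coord, fderiv_lin] at h
  exact h

/-- values of the core functions in the Fubini-Study zone, in terms of the point of `S²` -/
theorem fs_values {t x r : ℝ} (ht : 0 < Real.sin t) (hc : 0 < Real.cos t) (hr : 0 < r)
    (hr2 : r ^ 2 = 1 - (Real.cos t * Real.sin x) ^ 2) :
    NF Real.cos (fun s => Real.sin s * Real.cos s) t x = (Real.cos t * r) ^ 2 ∧
    (Real.cos t * (Real.sin t * Real.cos t) * Real.cos x) ^ 2
        / NF Real.cos (fun s => Real.sin s * Real.cos s) t x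
      = (Real.sin t * (Real.cos t * Real.cos x) / r) ^ 2 ∧
    2 * (Real.cos t ^ 2 - (Real.sin t * Real.cos t) ^ 2)
        / NF Real.cos (fun s => Real.sin s * Real.cos s) t x * Real.cos x ^ 2
      = 2 * (Real.cos t * Real.cos x) ^ 2 / r ^ 2 ∧
    Real.sin x * √(NF Real.cos (fun s => Real.sin s * Real.cos s) t x)
      = (Real.cos t * Real.sin x) * r := by
  have h1 := Real.sin_sq_add_cos_sq t
  have h2 := Real.sin_sq_add_cos_sq x
  have hN : NF Real.cos (fun s => Real.sin s * Real.cos s) t x = (Real.cos t * r) ^ 2 := by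
    unfold NF
    have e1 : Real.sin t ^ 2 = 1 - Real.cos t ^ 2 := by linarith
    have e2 : Real.cos x ^ 2 = 1 - Real.sin x ^ 2 := by linarith
    rw [show (Real.cos t * r) ^ 2 = Real.cos t ^ 2 * r ^ 2 by ring, hr2, mul_pow, mul_pow, e1, e2]; ring
  have e3 : Real.cos t ^ 2 - (Real.sin t * Real.cos t) ^ 2 = Real.cos t ^ 4 := by
    have e1 : Real.sin t ^ 2 = 1 - Real.cos t ^ 2 := by linarith
    rw [mul_pow, e1]; ring
  refine ⟨hN, ?_, ?_, ?_⟩
  · rw [hN]; field_simp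
  · rw [hN, e3]; field_simp
  · rw [hN, Real.sqrt_sq (by positivity)]; ring

end Pool.Agent.MP39e402.RR
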