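import Pool.Agent.Lib.MP_39e402_gt.R.Jet
import Pool.Agent.Lib.MP_39e402_gt.UAlg

/-! Part R2 (continuity, dense subsets) and R3 (scaling, local congruence). -/

open Set Filter Topology
open scoped ContDiff BigOperators

noncomputable section

namespace Pool.Agent.MP39e402.RR

variable {n : ℕ}

theorem ricci_smooth {g : RMetric n} {V : Set (EE n)} (hg : IsRMetricOn g V) (i j : Fin n) :
    ContDiffOn ℝ ∞ (ricci g i j) V := by
  have hV := hg.isOpen
  have e : ricci g i j = fun x => ∑ k, (pd k (christoffel g k i j) x - pd j (christoffel g k i k) x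
    + ∑ l, (christoffel g k k l x * christoffel g l i j x
      - christoffel g k j l x * christoffel g l i k x)) := rfl
  rw [e]
  refine ContDiffOn.sum fun k _ => ?_
  refine ((contDiffOn_pd _ hV (christoffel_smooth hg _ _ _)).sub
    (contDiffOn_pd _ hV (christoffel_smooth hg _ _ _))).add (ContDiffOn.sum fun l _ => ?_)
  exact ((christoffel_smooth hg _ _ _).mul (christoffel_smooth hg _ _ _)).sub
    ((christoffel_smooth hg _ _ _).mul (christoffel_smooth hg _ _ _))

theorem continuousOn_ricquad {g : RMetric n} {V : Set (EE n)} (hg : IsRMetricOn g V) (v : EE n) :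
    ContinuousOn (fun x => ricquad g x v) V := by
  unfold ricquad
  refine continuousOn_finsetSum _ fun i _ => continuousOn_finsetSum _ fun j _ => ?_
  exact ((ricci_smooth hg i j).continuousOn.mul continuousOn_const).mul continuousOn_const

theorem continuousOn_gquad {g : RMetric n} {V : Set (EE n)} (hg : IsRMetricOn g V) (v : EE n) :
    ContinuousOn (fun x => gquad g x v) V := by
  unfold gquad
  refine continuousOn_finsetSum _ fun i _ => continuousOn_finsetSum _ fun j _ => ?_
  exact ((hg.smooth i j).continuousOn.mul continuousOn_const).mul continuousOn_const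

/-- R2: the inequality `Ric ≥ κ` extends from a dense subset. -/
theorem ricGE_of_dense {g : RMetric n} {V D : Set (EE n)} {κ : ℝ} (hg : IsRMetricOn g V)
    (hDV : D ⊆ V) (hD : V ⊆ closure D)
    (h : ∀ x ∈ D, ∀ v : EE n, κ * gquad g x v ≤ ricquad g x v) : RicGE g V κ := by
  intro x hx v
  have h1 : ContinuousWithinAt (fun x => ricquad g x v - κ * gquad g x v) V x :=
    ((continuousOn_ricquad hg v).sub (continuousOn_const.mul (continuousOn_gquad hg v))) x hx
  have h3 : ContinuousWithinAt (fun x => ricquad g x v - κ * gquad g x v) D x := h1.mono hDV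
  have h2 : (0 : ℝ) ≤ ricquad g x v - κ * gquad g x v := by
    have : (𝓝[D] x).NeBot := mem_closure_iff_nhdsWithin_neBot.1 (hD hx)
    refine ge_of_tendsto (x := 𝓝[D] x) h3.tendsto ?_
    filter_upwards [self_mem_nhdsWithin] with y hy
    have := h y hy v
    linarith
  linarith

theorem ricci_congr {g g' : RMetric n} {U : Set (EE n)} (hU : IsOpen U) (h : EqOn g g' U)
    {x : EE n} (hx : x ∈ U) (i j : Fin n) : ricci g i j x = ricci g' i j x := by
  have hc : ∀ k i j, EqOn (christoffel g k i j) (christoffel g' k i j) U := by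
    intro k i j y hy
    have hpd : ∀ m a b, pd m (fun z => g z a b) y = pd m (fun z => g' z a b) y := fun m a b =>
      pd_congr_of_eqOn m hU hy fun z hz => by simp only [h hz]
    simp only [christoffel, h hy, hpd]
  have hp : ∀ m k i j, pd m (christoffel g k i j) x = pd m (christoffel g' k i j) x :=
    fun m k i j => pd_congr_of_eqOn m hU hx (hc k i j)
  simp only [ricci, hp, hc _ _ _ hx]

theorem ricquad_congr {g g' : RMetric n} {U : Set (EE n)} (hU : IsOpen U) (h : EqOn g g' U)
    {x : EE n} (hx : x ∈ U) (v : EE n) : ricquad g x v = ricquad g' x v := by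
  simp only [ricquad, ricci_congr hU h hx]

theorem ricGE_congr {g g' : RMetric n} {U : Set (EE n)} (hU : IsOpen U) (h : EqOn g g' U) (κ : ℝ) :
    RicGE g U κ ↔ RicGE g' U κ := by
  have : ∀ x ∈ U, ∀ v : EE n, (κ * gquad g x v ≤ ricquad g x v) ↔ (κ * gquad g' x v ≤ ricquad g' x v) := by
    intro x hx v
    rw [ricquad_congr hU h hx, gquad, gquad, h hx]
  constructor
  · intro H x hx v; exact (this x hx v).1 (H x hx v)
  · intro H x hx v; exact (this x hx v).2 (H x hx v)

theorem RicGE.mono {g : RMetric n} {U V : Set (EE n)} {κ κ' : ℝ} (h : RicGE g V κ) (hUV : U ⊆ V)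
    (hg : ∀ x ∈ U, ∀ v : EE n, 0 ≤ gquad g x v) (hκ : κ' ≤ κ) : RicGE g U κ' := by
  intro x hx v
  exact le_trans (mul_le_mul_of_nonneg_right hκ (hg x hx v)) (h x (hUV hx) v)

theorem RicGE.union {g : RMetric n} {U V : Set (EE n)} {κ : ℝ} (hU : RicGE g U κ) (hV : RicGE g V κ) :
    RicGE g (U ∪ V) κ := by
  rintro x (hx | hx) v
  · exact hU x hx v
  · exact hV x hx v

theorem gquad_nonneg {g : RMetric n} {V : Set (EE n)} (hg : IsRMetricOn g V) {x : EE n} (hx : x ∈ V)
    (v : EE n) : 0 ≤ gquad g x v := by
  have := (hg.posDef x hx).posSemidef.dotProduct_mulVec_nonneg (v : Fin n → ℝ)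
  have e : gquad g x v = star (v : Fin n → ℝ) ⬝ᵥ (g x).mulVec (v : Fin n → ℝ) := by
    simp only [gquad, dotProduct, Matrix.mulVec, Pi.star_apply, star_trivial, Finset.mul_sum]
    exact Finset.sum_congr rfl fun i _ => Finset.sum_congr rfl fun j _ => by ring
  rw [e]; exact this

theorem gquad_pos {g : RMetric n} {V : Set (EE n)} (hg : IsRMetricOn g V) {x : EE n} (hx : x ∈ V)
    {v : EE n} (hv : v ≠ 0) : 0 < gquad g x v := by
  have hv' : (v : Fin n → ℝ) ≠ 0 := by
    intro h; apply hv; ext i; exact congrFun h i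
  have := (hg.posDef x hx).dotProduct_mulVec_pos hv'
  have e : gquad g x v = star (v : Fin n → ℝ) ⬝ᵥ (g x).mulVec (v : Fin n → ℝ) := by
    simp only [gquad, dotProduct, Matrix.mulVec, Pi.star_apply, star_trivial, Finset.mul_sum]
    exact Finset.sum_congr rfl fun i _ => Finset.sum_congr rfl fun j _ => by ring
  rw [e]; exact this

/-- R3: scaling. -/
theorem christoffel_smul {g : RMetric n} {c : ℝ} (hc : c ≠ 0) (k i j : Fin n) (x : EE n) :
    christoffel (fun y => c • g y) k i j x = christoffel g k i j x := by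
  have h1 : ∀ (M : Matrix (Fin n) (Fin n) ℝ), (c • M)⁻¹ = c⁻¹ • M⁻¹ := by
    intro M
    by_cases hM : IsUnit M.det
    · have : Invertible c := invertibleOfNonzero hc
      rw [Matrix.inv_smul M c hM]
      simp
    · rw [Matrix.nonsing_inv_apply_not_isUnit _ hM, Matrix.nonsing_inv_apply_not_isUnit, smul_zero]
      rw [Matrix.det_smul]
      intro h
      exact hM (isUnit_of_mul_isUnit_right h)
  have h2 : ∀ (m : Fin n) (f : EE n → ℝ), pd m (fun y => c * f y) x = c * pd m f x := by
    intro m f
    unfold pd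
    have : fderiv ℝ (c • f) = c • fderiv ℝ f := fderiv_const_smul_field c
    have h3 : (fun y => c * f y) = c • f := by funext y; rfl
    rw [h3, this]; rfl
  simp only [christoffel, h1, Matrix.smul_apply, smul_eq_mul, h2]
  congr 1
  refine Finset.sum_congr rfl fun l _ => ?_
  field_simp

theorem ricci_smul {g : RMetric n} {c : ℝ} (hc : c ≠ 0) (i j : Fin n) (x : EE n) :
    ricci (fun y => c • g y) i j x = ricci g i j x := by
  have h : ∀ k i j, christoffel (fun y => c • g y) k i j = christoffel g k i j := fun k i j => by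
    funext y; exact christoffel_smul hc k i j y
  simp only [ricci, h]

theorem ricquad_smul {g : RMetric n} {c : ℝ} (hc : c ≠ 0) (x v : EE n) :
    ricquad (fun y => c • g y) x v = ricquad g x v := by
  simp only [ricquad, ricci_smul hc]

theorem gquad_smul {g : RMetric n} (c : ℝ) (x v : EE n) :
    gquad (fun y => c • g y) x v = c * gquad g x v := by
  simp only [gquad, Matrix.smul_apply, smul_eq_mul, Finset.mul_sum]
  exact Finset.sum_congr rfl fun i _ => Finset.sum_congr rfl fun j _ => by ring

theorem ricGE_smul {g : RMetric n} {V : Set (EE n)} {c κ : ℝ} (hc : 0 < c) :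
    RicGE (fun y => c • g y) V (κ / c) ↔ RicGE g V κ := by
  have : ∀ x v, (κ / c * gquad (fun y => c • g y) x v ≤ ricquad (fun y => c • g y) x v)
      ↔ (κ * gquad g x v ≤ ricquad g x v) := by
    intro x v
    rw [ricquad_smul hc.ne', gquad_smul]
    have : κ / c * (c * gquad g x v) = κ * gquad g x v := by field_simp
    rw [this]
  exact ⟨fun H x hx v => (this x v).1 (H x hx v), fun H x hx v => (this x v).2 (H x hx v)⟩

theorem isRMetricOn_smul {g : RMetric n} {V : Set (EE n)} {c : ℝ} (hc : 0 < c) (hg : IsRMetricOn g V) :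
    IsRMetricOn (fun y => c • g y) V where
  isOpen := hg.isOpen
  smooth i j := by
    simp only [Matrix.smul_apply, smul_eq_mul]
    exact contDiffOn_const.mul (hg.smooth i j)
  posDef x hx := (hg.posDef x hx).smul hc

end Pool.Agent.MP39e402.RR
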