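import Pool.Agent.Lib.MP_39e402_gt.R.EdgeBound

/-! Part U4: Ricci curvature of the core in torus coordinates (zone C1). -/

open Set Filter Topology
open scoped ContDiff BigOperators

set_option linter.unusedSimpArgs false

noncomputable section

namespace Pool.Agent.MP39e402.RR

theorem GFData.mono {k2 k3 A W : EE 4 → ℝ} {V V' : Set (EE 4)} (h : GFData k2 k3 A W V)
    (ho : IsOpen V') (hs : V' ⊆ V) : GFData k2 k3 A W V' where
  isOpen := ho
  sk2 := h.sk2.mono hs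
  sk3 := h.sk3.mono hs
  sA := h.sA.mono hs
  sW := h.sW.mono hs
  pk2 x hx := h.pk2 x (hs hx)
  pk3 x hx := h.pk3 x (hs hx)
  pW x hx := h.pW x (hs hx)
  k2_2 x hx := h.k2_2 x (hs hx)
  k2_3 x hx := h.k2_3 x (hs hx)
  k3_2 x hx := h.k3_2 x (hs hx)
  k3_3 x hx := h.k3_3 x (hs hx)
  A_2 x hx := h.A_2 x (hs hx)
  A_3 x hx := h.A_3 x (hs hx)
  W_3 x hx := h.W_3 x (hs hx)

theorem IsEdge_delta_pos {ε δ : ℝ} {Ψ : ℝ → ℝ} (h : IsEdge ε δ Ψ) : 0 < δ := by
  by_contra hd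
  obtain ⟨r, hr, h1⟩ := h.near
  have e1 := h1 r (by rw [abs_of_pos hr])
  have e2 := h.far r (by linarith)
  linarith

theorem cont_coord (i : Fin 4) : Continuous (fun y : EE 4 => y i) :=
  (contDiff_piLp_apply (n := ∞) (𝕜 := ℝ) ..).continuous

/-- the core metric with smoothed edge in torus coordinates -/
def gTor (b f Ψ : ℝ → ℝ) : RMetric 4 :=
  GF (lift2 (k2F b)) (lift2 (k3F b f)) (lift2 (AF b f)) (fun y => 2 * Ψ (lift2 (wF b f) y))

/-- `ta < t < T` -/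
def TorD1 (ta T : ℝ) : Set (EE 4) := {y | y ∈ TorD ∧ ta < y 0 ∧ y 0 < T}

theorem TorD1_open (ta T : ℝ) : IsOpen (TorD1 ta T) :=
  TorD_open.inter ((isOpen_lt continuous_const (cont_coord 0)).inter
    (isOpen_lt (cont_coord 0) continuous_const))

theorem gTor_data {b f : ℝ → ℝ} {ta T t1 : ℝ} (h : IsCore b f ta T t1) {ε δ : ℝ} {Ψ : ℝ → ℝ}
    (hE : IsEdge ε δ Ψ) :
    GFData (lift2 (k2F b)) (lift2 (k3F b f)) (lift2 (AF b f))
      (fun y => 2 * Ψ (lift2 (wF b f) y)) TorD :=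
  (coreGF_data h).comp hE.smooth fun t ht => lt_of_lt_of_le (by positivity) (hE.lb t ht.le)

theorem isRMetricOn_gTor {b f : ℝ → ℝ} {ta T t1 : ℝ} (h : IsCore b f ta T t1) {ε δ : ℝ} {Ψ : ℝ → ℝ}
    (hE : IsEdge ε δ Ψ) : IsRMetricOn (gTor b f Ψ) TorD := isRMetricOn_GF (gTor_data h hE)

theorem wF_ge {b f : ℝ → ℝ} {ta T t1 : ℝ} (h : IsCore b f ta T t1) {t x : ℝ} (ht : 0 < t)
    (hx0 : 0 < x) (hx : x < Real.pi / 2) : Real.sin x * f t ≤ wF b f t x := by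
  have hs : 0 < Real.sin x := Real.sin_pos_of_pos_of_lt_pi hx0 (by linarith [Real.pi_pos])
  unfold wF
  refine mul_le_mul_of_nonneg_left ?_ hs.le
  refine Real.le_sqrt_of_sq_le ?_
  have h1 := h.f_le t ht
  have h2 := h.f_pos t ht
  have h3 := Real.sin_sq_add_cos_sq x
  unfold NF
  have h4 : f t ^ 2 ≤ b t ^ 2 := by nlinarith
  nlinarith [mul_le_mul_of_nonneg_right h4 (sq_nonneg (Real.cos x))]

theorem core_C1 {b f : ℝ → ℝ} {ta T t1 : ℝ} (h : IsCore b f ta T t1) {η : ℝ} (hη : 0 < η) :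
    ∃ d0 : ℝ, 0 < d0 ∧ ∀ (ε δ : ℝ) (Ψ : ℝ → ℝ), IsEdge ε δ Ψ → 0 ≤ ε → ε ≤ d0 → δ ≤ d0 →
      RicGE (gTor b f Ψ) (TorD1 ta T) (-η) := by
  obtain ⟨C, hC, hbd⟩ := edge_bd h.smooth_b h.smooth_f h.b_pos h.f_pos (t2 := T) h.ta_pos
  -- minimum of `f` on `[ta, T]`
  have hne : (Icc ta T).Nonempty := ⟨ta, le_refl _, by have := h.ta_le; have := h.T_gt; linarith⟩
  obtain ⟨tm, htm, hmin⟩ := isCompact_Icc.exists_isMinOn hne h.smooth_f.continuous.continuousOn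
  have hm : 0 < f tm := h.f_pos tm (lt_of_lt_of_le h.ta_pos htm.1)
  have hCC : 0 < 10 * (C + C ^ 2) + 1 := by positivity
  refine ⟨min (min 1 (f tm / 4)) (η / (10 * (C + C ^ 2) + 1)), by positivity, ?_⟩
  intro ε δ Ψ hE hε0 hε hδ
  have hδ0 := IsEdge_delta_pos hE
  have hε1 : ε ≤ 1 := hε.trans ((min_le_left _ _).trans (min_le_left _ _))
  have hδ1 : δ ≤ 1 := hδ.trans ((min_le_left _ _).trans (min_le_left _ _))
  have hδf : δ ≤ f tm / 4 := hδ.trans ((min_le_left _ _).trans (min_le_right _ _))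
  have hε2 : ε ≤ η / (10 * (C + C ^ 2) + 1) := hε.trans (min_le_right _ _)
  have hδ2 : δ ≤ η / (10 * (C + C ^ 2) + 1) := hδ.trans (min_le_right _ _)
  have hκ : 0 + 5 * (C + C ^ 2) * (ε + δ) ≤ η := by
    have h1 : ε + δ ≤ 2 * (η / (10 * (C + C ^ 2) + 1)) := by linarith
    have h2 : 0 ≤ 5 * (C + C ^ 2) := by positivity
    have h3 := mul_le_mul_of_nonneg_left h1 h2
    have h4 : 5 * (C + C ^ 2) * (2 * (η / (10 * (C + C ^ 2) + 1))) ≤ η := by
      rw [show 5 * (C + C ^ 2) * (2 * (η / (10 * (C + C ^ 2) + 1)))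
        = (10 * (C + C ^ 2)) * η / (10 * (C + C ^ 2) + 1) by ring, div_le_iff₀ hCC]
      nlinarith
    linarith
  have hmet := isRMetricOn_gTor h hE
  have hgq : ∀ y ∈ TorD, ∀ v, 0 ≤ gquad (gTor b f Ψ) y v := fun y hy v => gquad_nonneg hmet hy v
  -- the part near the edge
  let V1 : Set (EE 4) := {y | y ∈ TorD1 ta T ∧ y 1 < Real.pi / 6}
  have hV1o : IsOpen V1 := (TorD1_open ta T).inter (isOpen_lt (cont_coord 1) continuous_const)
  have hV1s : V1 ⊆ TorD := fun y hy => hy.1.1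
  have hd1 := (coreGF_data h).mono hV1o hV1s
  have r1 : RicGE (gTor b f Ψ) V1 (-(0 + 5 * (C + C ^ 2) * (ε + δ))) := by
    refine ricGE_edge hd1 (fun x hx => pd2_lift2 S0_open (wF_smooth h.smooth_b h.smooth_f h.b_pos)
      ⟨hx.1.1.1, by linarith [hx.1.1.2.1, Real.pi_pos], hx.1.1.2.2⟩) hE.smooth hC hε0 hε1 hδ0.le hδ1
      (fun t ht => hE.lb t ht.le) (fun t ht => hE.ub t ht.le) (fun t ht => hE.dlb t ht)
      (fun t ht => hE.dub t ht) (fun t ht => hE.dd t ht) (fun t ht => hE.far t ht.le)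
      (fun x hx => hbd x hx.1.2.1.le hx.1.2.2.le hx.1.1.2.1 hx.2.le) ?_
    rw [neg_zero]
    exact fun x hx v => coreGF_ric h x (hV1s hx) v
  -- the part away from the edge
  let V2 : Set (EE 4) := {y | y ∈ TorD ∧ δ < lift2 (wF b f) y}
  have hd := coreGF_data h
  have hV2o : IsOpen V2 := by
    have : V2 = TorD ∩ (lift2 (wF b f)) ⁻¹' (Ioi δ) := rfl
    rw [this]
    exact hd.sW.continuousOn.isOpen_inter_preimage TorD_open isOpen_Ioi
  have r2 : RicGE (gTor b f Ψ) V2 0 := by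
    have e : EqOn (gTor b f Ψ)
        (GF (lift2 (k2F b)) (lift2 (k3F b f)) (lift2 (AF b f)) (lift2 (wF b f))) V2 := by
      intro y hy
      have : Ψ (lift2 (wF b f) y) = lift2 (wF b f) y / 2 := hE.far _ hy.2.le
      simp only [gTor, GF, this]
      ring_nf
    rw [ricGE_congr hV2o e]
    exact fun x hx v => coreGF_ric h x hx.1 v
  intro y hy v
  have hg := hgq y hy.1 v
  by_cases h6 : y 1 < Real.pi / 6
  · have := r1 y ⟨hy, h6⟩ v
    nlinarith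
  · have hy2 : y ∈ V2 := by
      refine ⟨hy.1, ?_⟩
      have h1 := wF_ge h hy.1.1 hy.1.2.1 hy.1.2.2
      have h2 : 1 / 2 ≤ Real.sin (y 1) := by
        rw [← Real.sin_pi_div_six]
        exact Real.sin_le_sin_of_le_of_le_pi_div_two (by linarith [Real.pi_pos]) hy.1.2.2.le (not_lt.1 h6)
      have h3 : f tm ≤ f (y 0) := hmin ⟨hy.2.1.le, hy.2.2.le⟩
      have h4 : 1 / 2 * f tm ≤ Real.sin (y 1) * f (y 0) := mul_le_mul h2 h3 hm.le (by linarith)
      change δ < wF b f (y 0) (y 1)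
      linarith
    have := r2 y hy2 v
    nlinarith

end Pool.Agent.MP39e402.RR
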