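import Pool.Agent.Lib.MP_39e402_gt.R.GF

/-! Part R4a: the metric `dx0² + J² dx1² + φ² dx2² + Ψ(φ sin x2)² dx3²`. -/

open Set Filter Topology
open scoped ContDiff BigOperators

set_option linter.unusedSimpArgs false

noncomputable section

namespace Pool.Agent.MP39e402.RR

/-- `dx0² + J² dx1² + φ² dx2² + Ψ(φ sin x2)² dx3²` -/
def TIm (J φ : EE 4 → ℝ) (Ψ : ℝ → ℝ) : RMetric 4 :=
  GF J φ (fun _ => 0) (fun x => Ψ (φ x * Real.sin (x 2)))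

structure TIData (J φ : EE 4 → ℝ) (Ψ : ℝ → ℝ) (V : Set (EE 4)) : Prop where
  isOpen : IsOpen V
  sJ : ContDiffOn ℝ ∞ J V
  sφ : ContDiffOn ℝ ∞ φ V
  sΨ : ContDiff ℝ ∞ Ψ
  pJ : ∀ x ∈ V, 0 < J x
  pφ : ∀ x ∈ V, 0 < φ x
  pΨ : ∀ x ∈ V, 0 < Ψ (φ x * Real.sin (x 2))
  J_2 : ∀ x ∈ V, pd 2 J x = 0
  J_3 : ∀ x ∈ V, pd 3 J x = 0
  φ_2 : ∀ x ∈ V, pd 2 φ x = 0
  φ_3 : ∀ x ∈ V, pd 3 φ x = 0

/-- Gauss curvature of `dx0² + J² dx1²` -/
def KJ (J : EE 4 → ℝ) (x : EE 4) : ℝ := -pd 0 (pd 0 J) x / J x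
/-- Hessian of `φ` for `dx0² + J² dx1²` in the orthonormal frame `∂0, ∂1/J` -/
def H00 (φ : EE 4 → ℝ) (x : EE 4) : ℝ := pd 0 (pd 0 φ) x
def H01 (J φ : EE 4 → ℝ) (x : EE 4) : ℝ := pd 0 (pd 1 φ) x / J x - pd 0 J x * pd 1 φ x / J x ^ 2
def H11 (J φ : EE 4 → ℝ) (x : EE 4) : ℝ :=
  pd 1 (pd 1 φ) x / J x ^ 2 - pd 1 J x * pd 1 φ x / J x ^ 3 + pd 0 J x * pd 0 φ x / J x
/-- `|∇φ|²` -/
def N2 (J φ : EE 4 → ℝ) (x : EE 4) : ℝ := pd 0 φ x ^ 2 + (pd 1 φ x / J x) ^ 2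

variable {J φ : EE 4 → ℝ} {Ψ : ℝ → ℝ} {V : Set (EE 4)}

theorem sin_coord_smooth (i : Fin 4) (V : Set (EE 4)) :
    ContDiffOn ℝ ∞ (fun x : EE 4 => Real.sin (x i)) V := by
  have h : ContDiff ℝ ∞ (fun x : EE 4 => x i) := contDiff_piLp_apply ..
  exact (Real.contDiff_sin.comp h).contDiffOn

theorem pd_sin_coord (m i : Fin 4) (x : EE 4) :
    pd m (fun y : EE 4 => Real.sin (y i)) x = Real.cos (x i) * (if m = i then 1 else 0) := by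
  have hd : DifferentiableAt ℝ (fun y : EE 4 => y i) x :=
    (contDiff_piLp_apply (n := ∞) .. : ContDiff ℝ ∞ (fun x : EE 4 => x i)).differentiable (by simp) x
  rw [pd_comp_real (ψ := Real.sin) m Real.differentiableAt_sin hd, pd_coord, Real.deriv_sin]

theorem pdpd_coord (m i j : Fin 4) (x : EE 4) : pd m (pd i (fun y : EE 4 => y j)) x = 0 := by
  have : pd i (fun y : EE 4 => y j) = fun _ => if i = j then 1 else 0 := by
    funext y; exact pd_coord i j y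
  rw [this, pd_const]

theorem pdpd_sin_coord (m i j : Fin 4) (x : EE 4) :
    pd m (pd i (fun y : EE 4 => Real.sin (y j))) x
      = -Real.sin (x j) * ((if m = j then 1 else 0) * (if i = j then 1 else 0)) := by
  have hs : ContDiffOn ℝ ∞ (fun y : EE 4 => y j) univ := (contDiff_piLp_apply ..).contDiffOn
  rw [pdpd_comp_real (ψ := Real.sin) m i isOpen_univ Real.contDiff_sin hs (mem_univ x),
    pd_coord, pd_coord, pdpd_coord]
  have : deriv Real.sin = Real.cos := Real.deriv_sin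
  rw [this, Real.deriv_cos]
  ring

theorem TIData.toGF (h : TIData J φ Ψ V) :
    GFData J φ (fun _ => 0) (fun x => Ψ (φ x * Real.sin (x 2))) V where
  isOpen := h.isOpen
  sk2 := h.sJ
  sk3 := h.sφ
  sA := contDiffOn_const
  sW := h.sΨ.comp_contDiffOn (h.sφ.mul (sin_coord_smooth 2 V))
  pk2 := h.pJ
  pk3 := h.pφ
  pW := h.pΨ
  k2_2 := h.J_2
  k2_3 := h.J_3
  k3_2 := h.φ_2
  k3_3 := h.φ_3
  A_2 := fun x _ => pd_const _ _ _
  A_3 := fun x _ => pd_const _ _ _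
  W_3 := by
    intro x hx
    have hφ := differentiableAt_of_smooth h.isOpen h.sφ hx
    have hs := differentiableAt_of_smooth h.isOpen (sin_coord_smooth 2 V) hx
    have hf : DifferentiableAt ℝ (fun y : EE 4 => φ y * Real.sin (y 2)) x := hφ.mul hs
    rw [pd_comp_real (ψ := Ψ) 3 (h.sΨ.differentiable (by simp) _) hf, pd_mul 3 hφ hs, pd_sin_coord,
      h.φ_3 x hx]
    simp

theorem isRMetricOn_TI (h : TIData J φ Ψ V) : IsRMetricOn (TIm J φ Ψ) V := isRMetricOn_GF h.toGF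

theorem gquad_TI (J φ : EE 4 → ℝ) (Ψ : ℝ → ℝ) (x v : EE 4) :
    gquad (TIm J φ Ψ) x v = v 0 ^ 2 + (J x * v 1) ^ 2 + (φ x * v 2) ^ 2
      + (Ψ (φ x * Real.sin (x 2)) * v 3) ^ 2 := by
  rw [TIm, gquad_GF]; ring

/-- the Ricci form of `TIm` on `c0 ∂0 + c1 ∂1/J + c2 ∂2/φ + c3 ∂3/W` -/
def ricTI (J φ : EE 4 → ℝ) (Ψ : ℝ → ℝ) (x : EE 4) (c0 c1 c2 c3 : ℝ) : ℝ :=
  KJ J x * (c0 ^ 2 + c1 ^ 2)
  - (1 + φ x * Real.sin (x 2) * deriv Ψ (φ x * Real.sin (x 2)) / Ψ (φ x * Real.sin (x 2)))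
    * ((H00 φ x * c0 ^ 2 + 2 * H01 J φ x * (c0 * c1) + H11 J φ x * c1 ^ 2) / φ x)
  + (-(H00 φ x + H11 J φ x) / φ x
      + φ x * Real.sin (x 2) * deriv Ψ (φ x * Real.sin (x 2)) / Ψ (φ x * Real.sin (x 2))
        * ((1 - N2 J φ x) / φ x ^ 2)) * c2 ^ 2
  + (φ x * Real.sin (x 2) * deriv Ψ (φ x * Real.sin (x 2)) / Ψ (φ x * Real.sin (x 2)))
    * (-(H00 φ x + H11 J φ x) / φ x + (1 - N2 J φ x) / φ x ^ 2) * c3 ^ 2
  - deriv (deriv Ψ) (φ x * Real.sin (x 2)) / Ψ (φ x * Real.sin (x 2))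
    * (Real.sin (x 2) * (pd 0 φ x * c0 + pd 1 φ x / J x * c1) + Real.cos (x 2) * c2) ^ 2
  - deriv (deriv Ψ) (φ x * Real.sin (x 2)) / Ψ (φ x * Real.sin (x 2))
    * (Real.sin (x 2) ^ 2 * N2 J φ x + Real.cos (x 2) ^ 2) * c3 ^ 2

/-- R4a -/
theorem ricquad_TI (h : TIData J φ Ψ V) {x : EE 4} (hx : x ∈ V) (v : EE 4) :
    ricquad (TIm J φ Ψ) x v = ricTI J φ Ψ x (v 0) (J x * v 1) (φ x * v 2)
      (Ψ (φ x * Real.sin (x 2)) * v 3) := by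
  have hJ := (h.pJ x hx).ne'
  have hφ0 := (h.pφ x hx).ne'
  have hΨ0 := (h.pΨ x hx).ne'
  have hV := h.isOpen
  have hφ := differentiableAt_of_smooth h.isOpen h.sφ hx
  have hs := differentiableAt_of_smooth h.isOpen (sin_coord_smooth 2 V) hx
  have hfs : ContDiffOn ℝ ∞ (fun y : EE 4 => φ y * Real.sin (y 2)) V := h.sφ.mul (sin_coord_smooth 2 V)
  have hf : DifferentiableAt ℝ (fun y : EE 4 => φ y * Real.sin (y 2)) x := hφ.mul hs
  have hΨd : DifferentiableAt ℝ Ψ (φ x * Real.sin (x 2)) := h.sΨ.differentiable (by simp) _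
  have f1 : ∀ m, pd m (fun y : EE 4 => φ y * Real.sin (y 2)) x
      = pd m φ x * Real.sin (x 2) + φ x * (Real.cos (x 2) * (if m = 2 then 1 else 0)) := by
    intro m; rw [pd_mul m hφ hs, pd_sin_coord]
  have f2 : ∀ m i, pd m (pd i (fun y : EE 4 => φ y * Real.sin (y 2))) x
      = pd m (pd i φ) x * Real.sin (x 2) + pd i φ x * (Real.cos (x 2) * (if m = 2 then 1 else 0))
        + pd m φ x * (Real.cos (x 2) * (if i = 2 then 1 else 0))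
        + φ x * (-Real.sin (x 2) * ((if m = 2 then 1 else 0) * (if i = 2 then 1 else 0))) := by
    intro m i
    rw [pdpd_mul m i hV h.sφ (sin_coord_smooth 2 V) hx, pd_sin_coord, pd_sin_coord, pdpd_sin_coord]
  have g1 : ∀ m, pd m (fun y : EE 4 => Ψ (φ y * Real.sin (y 2))) x
      = deriv Ψ (φ x * Real.sin (x 2)) * pd m (fun y : EE 4 => φ y * Real.sin (y 2)) x :=
    fun m => pd_comp_real m hΨd hf
  have g2 : ∀ m i, pd m (pd i (fun y : EE 4 => Ψ (φ y * Real.sin (y 2)))) x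
      = deriv (deriv Ψ) (φ x * Real.sin (x 2)) * pd m (fun y : EE 4 => φ y * Real.sin (y 2)) x
          * pd i (fun y : EE 4 => φ y * Real.sin (y 2)) x
        + deriv Ψ (φ x * Real.sin (x 2)) * pd m (pd i (fun y : EE 4 => φ y * Real.sin (y 2))) x :=
    fun m i => pdpd_comp_real m i hV h.sΨ hfs hx
  have z1 : ∀ m, pd m (pd 2 φ) x = 0 := by
    intro m
    rw [pd_congr_of_eqOn (g := fun _ => (0 : ℝ)) m hV hx (fun y hy => h.φ_2 y hy), pd_const]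
  have z2 := h.φ_2 x hx
  rw [TIm, ricquad_GF h.toGF hx]
  simp only [GFJet.ric, GFJet.R00, GFJet.R01, GFJet.R02, GFJet.R03, GFJet.R11, GFJet.R12, GFJet.R13,
    GFJet.R22, GFJet.R23, GFJet.R33, GFJet.K, GFJet.divF, GFJet.hb00, GFJet.hb01, GFJet.hb11,
    GFJet.hw00, GFJet.hw01, GFJet.hw02, GFJet.hw11, GFJet.hw12, GFJet.hw22, GFJet.F02, GFJet.F12,
    gfJet, g1, g2, f1, f2, z1, z2, pd_const, pdpd_const, ricTI, KJ, H00, H01, H11, N2]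
  simp
  field_simp
  ring

theorem ricGE_TI (h : TIData J φ Ψ V) {κ : ℝ}
    (H : ∀ x ∈ V, ∀ c0 c1 c2 c3 : ℝ, κ * (c0 ^ 2 + c1 ^ 2 + c2 ^ 2 + c3 ^ 2)
      ≤ ricTI J φ Ψ x c0 c1 c2 c3) : RicGE (TIm J φ Ψ) V κ := by
  intro x hx v
  rw [ricquad_TI h hx, gquad_TI]
  exact H x hx _ _ _ _

end Pool.Agent.MP39e402.RR
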