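import Pool.Agent.Lib.MP_39e402_gt.R.Pull1
import Pool.Agent.Lib.MP_39e402_gt.R.TypeI

/-! Part U4, first file: the Ricci curvature of type I metrics from the pointwise conditions `TI`. -/

open Set Filter Topology
open scoped ContDiff BigOperators

set_option linter.unusedSimpArgs false

noncomputable section

namespace Pool.Agent.MP39e402.RR

theorem ti_alg {K k K0 e p q h00 h01 h11 n2 g0 g1 φ s c c0 c1 c2 c3 : ℝ} (hK0 : 0 ≤ K0) (hk : 0 ≤ k)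
    (he0 : 0 ≤ e) (he1 : e ≤ 1) (hφ : 0 < φ) (Klb : -K0 ≤ K) (Kub : K ≤ k)
    (hess : ∀ v w : ℝ, h00 * v ^ 2 + 2 * h01 * v * w + h11 * w ^ 2 ≤ (K / 2 + k) * φ * (v ^ 2 + w ^ 2))
    (hn : n2 = g0 ^ 2 + g1 ^ 2) (hn1 : n2 ≤ 1) (p1 : 1 - e ≤ p) (p2 : p ≤ 1) (hq : q ≤ e)
    (hsc : s ^ 2 + c ^ 2 = 1) :
    -(3 * k + e * (K0 + 1)) * (c0 ^ 2 + c1 ^ 2 + c2 ^ 2 + c3 ^ 2)
      ≤ K * (c0 ^ 2 + c1 ^ 2) - (1 + p) * ((h00 * c0 ^ 2 + 2 * h01 * (c0 * c1) + h11 * c1 ^ 2) / φ)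
        + (-(h00 + h11) / φ + p * ((1 - n2) / φ ^ 2)) * c2 ^ 2
        + p * (-(h00 + h11) / φ + (1 - n2) / φ ^ 2) * c3 ^ 2
        - q * (s * (g0 * c0 + g1 * c1) + c * c2) ^ 2 - q * (s ^ 2 * n2 + c ^ 2) * c3 ^ 2 := by
  have hQ : (h00 * c0 ^ 2 + 2 * h01 * (c0 * c1) + h11 * c1 ^ 2) / φ ≤ (K / 2 + k) * (c0 ^ 2 + c1 ^ 2) := by
    rw [div_le_iff₀ hφ]
    have := hess c0 c1
    nlinarith [this]
  have hD : (h00 + h11) / φ ≤ K + 2 * k := by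
    rw [div_le_iff₀ hφ]
    have h1 := hess 1 0
    have h2 := hess 0 1
    nlinarith [h1, h2]
  have hM : 0 ≤ (1 - n2) / φ ^ 2 := div_nonneg (by linarith) (by positivity)
  have hneg : -(h00 + h11) / φ = -((h00 + h11) / φ) := neg_div _ _
  rw [hneg]
  generalize (h00 * c0 ^ 2 + 2 * h01 * (c0 * c1) + h11 * c1 ^ 2) / φ = Q at *
  generalize (h00 + h11) / φ = D at *
  generalize (1 - n2) / φ ^ 2 = M at *
  have hp0 : 0 ≤ p := by linarith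
  have hA : 0 ≤ c0 ^ 2 + c1 ^ 2 := by positivity
  have t1 : (-(e * K0) - 2 * k) * (c0 ^ 2 + c1 ^ 2) ≤ K * (c0 ^ 2 + c1 ^ 2) - (1 + p) * Q := by
    have h1 : (1 + p) * Q ≤ (1 + p) * ((K / 2 + k) * (c0 ^ 2 + c1 ^ 2)) :=
      mul_le_mul_of_nonneg_left hQ (by linarith)
    have h2 : (-(e * K0) - 2 * k) ≤ (1 - p) * K / 2 - (1 + p) * k := by
      nlinarith [mul_nonneg (sub_nonneg.2 p2) (by linarith : 0 ≤ K + K0), mul_nonneg hk (sub_nonneg.2 p2),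
        mul_nonneg hK0 (by linarith : 0 ≤ e - (1 - p)), mul_nonneg hK0 he0]
    have h3 := mul_le_mul_of_nonneg_right h2 hA
    linarith
  have t2 : -(3 * k) * c2 ^ 2 ≤ (-D + p * M) * c2 ^ 2 :=
    mul_le_mul_of_nonneg_right (by nlinarith [mul_nonneg hp0 hM]) (sq_nonneg _)
  have t3 : -(3 * k) * c3 ^ 2 ≤ p * (-D + M) * c3 ^ 2 := by
    refine mul_le_mul_of_nonneg_right ?_ (sq_nonneg _)
    nlinarith [mul_nonneg hp0 hM, mul_nonneg hp0 (by linarith : 0 ≤ 3 * k - D),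
      mul_nonneg hk (sub_nonneg.2 p2)]
  have t4 : -e * (c0 ^ 2 + c1 ^ 2 + c2 ^ 2) ≤ -(q * (s * (g0 * c0 + g1 * c1) + c * c2) ^ 2) := by
    have h1 : (s * (g0 * c0 + g1 * c1) + c * c2) ^ 2 ≤ c0 ^ 2 + c1 ^ 2 + c2 ^ 2 := by
      have h2 : (s * (g0 * c0 + g1 * c1) + c * c2) ^ 2 ≤ (s ^ 2 + c ^ 2) * ((g0 * c0 + g1 * c1) ^ 2 + c2 ^ 2) := by
        nlinarith [sq_nonneg (s * c2 - c * (g0 * c0 + g1 * c1))]
      have h3 : (g0 * c0 + g1 * c1) ^ 2 ≤ n2 * (c0 ^ 2 + c1 ^ 2) := by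
        rw [hn]; nlinarith [sq_nonneg (g0 * c1 - g1 * c0)]
      have h4 : n2 * (c0 ^ 2 + c1 ^ 2) ≤ 1 * (c0 ^ 2 + c1 ^ 2) := mul_le_mul_of_nonneg_right hn1 hA
      rw [hsc, one_mul] at h2
      linarith
    have h5 : q * (s * (g0 * c0 + g1 * c1) + c * c2) ^ 2 ≤ e * (s * (g0 * c0 + g1 * c1) + c * c2) ^ 2 :=
      mul_le_mul_of_nonneg_right hq (sq_nonneg _)
    have h6 := mul_le_mul_of_nonneg_left h1 he0
    linarith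
  have t5 : -e * c3 ^ 2 ≤ -(q * (s ^ 2 * n2 + c ^ 2) * c3 ^ 2) := by
    have hn0 : 0 ≤ n2 := by rw [hn]; positivity
    have h1 : 0 ≤ s ^ 2 * n2 + c ^ 2 := by positivity
    have h2 : s ^ 2 * n2 + c ^ 2 ≤ 1 := by nlinarith [mul_nonneg (sq_nonneg s) (sub_nonneg.2 hn1)]
    have h3 : q * (s ^ 2 * n2 + c ^ 2) ≤ e := by
      have := mul_le_mul_of_nonneg_right hq h1
      have := mul_le_mul_of_nonneg_left h2 he0
      linarith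
    have := mul_le_mul_of_nonneg_right h3 (sq_nonneg c3)
    linarith
  have y1 : 0 ≤ e * K0 * (c2 ^ 2 + c3 ^ 2) := by positivity
  have y2 : 0 ≤ k * (c0 ^ 2 + c1 ^ 2) := by positivity
  linarith

/-- pointwise form of Lemma TI -/
theorem ricTI_ge {J φ : EE 4 → ℝ} {Ψ : ℝ → ℝ} {x : EE 4} {K0 k e : ℝ} (hK0 : 0 ≤ K0) (hk : 0 ≤ k)
    (he0 : 0 ≤ e) (he1 : e ≤ 1) (hφ : 0 < φ x) (Klb : -K0 ≤ KJ J x) (Kub : KJ J x ≤ k)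
    (hess : ∀ v w : ℝ, H00 φ x * v ^ 2 + 2 * H01 J φ x * v * w + H11 J φ x * w ^ 2
      ≤ (KJ J x / 2 + k) * φ x * (v ^ 2 + w ^ 2))
    (hn1 : N2 J φ x ≤ 1) (hΨ : 0 < Ψ (φ x * Real.sin (x 2)))
    (p1 : (1 - e) * Ψ (φ x * Real.sin (x 2))
      ≤ φ x * Real.sin (x 2) * deriv Ψ (φ x * Real.sin (x 2)))
    (p2 : φ x * Real.sin (x 2) * deriv Ψ (φ x * Real.sin (x 2)) ≤ Ψ (φ x * Real.sin (x 2)))
    (hq : deriv (deriv Ψ) (φ x * Real.sin (x 2)) ≤ e * Ψ (φ x * Real.sin (x 2))) (c0 c1 c2 c3 : ℝ) :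
    -(3 * k + e * (K0 + 1)) * (c0 ^ 2 + c1 ^ 2 + c2 ^ 2 + c3 ^ 2) ≤ ricTI J φ Ψ x c0 c1 c2 c3 := by
  have := ti_alg (q := deriv (deriv Ψ) (φ x * Real.sin (x 2)) / Ψ (φ x * Real.sin (x 2)))
    (p := φ x * Real.sin (x 2) * deriv Ψ (φ x * Real.sin (x 2)) / Ψ (φ x * Real.sin (x 2)))
    (s := Real.sin (x 2)) (c := Real.cos (x 2)) (n2 := N2 J φ x) (g0 := pd 0 φ x) (g1 := pd 1 φ x / J x)
    (c0 := c0) (c1 := c1) (c2 := c2) (c3 := c3)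
    hK0 hk he0 he1 hφ Klb Kub hess rfl hn1 (by rw [le_div_iff₀ hΨ]; exact p1)
    (by rw [div_le_iff₀ hΨ, one_mul]; exact p2) (by rw [div_le_iff₀ hΨ]; exact hq)
    (Real.sin_sq_add_cos_sq _)
  exact this

/-! ### functions of the first two coordinates -/

/-- `F(x0, x1)` as a function on `ℝ⁴` -/
def lift2 (F : ℝ → ℝ → ℝ) : EE 4 → ℝ := fun y => F (y 0) (y 1)

/-- preimage in `ℝ⁴` of a set in the plane -/
def lset (S : Set (ℝ × ℝ)) : Set (EE 4) := {y | (y 0, y 1) ∈ S}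

theorem c01_smooth : ContDiff ℝ ∞ (fun y : EE 4 => (y 0, y 1)) :=
  (contDiff_piLp_apply ..).prodMk (contDiff_piLp_apply ..)

theorem isOpen_lset {S : Set (ℝ × ℝ)} (hS : IsOpen S) : IsOpen (lset S) :=
  hS.preimage c01_smooth.continuous

theorem lift2_smooth {F : ℝ → ℝ → ℝ} {S : Set (ℝ × ℝ)}
    (hF : ContDiffOn ℝ ∞ (fun p : ℝ × ℝ => F p.1 p.2) S) : ContDiffOn ℝ ∞ (lift2 F) (lset S) :=
  hF.comp c01_smooth.contDiffOn fun _ hy => hy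

theorem hasDerivAt_D1 {F : ℝ → ℝ → ℝ} {S : Set (ℝ × ℝ)} (hS : IsOpen S)
    (hF : ContDiffOn ℝ ∞ (fun p : ℝ × ℝ => F p.1 p.2) S) {p : ℝ × ℝ} (hp : p ∈ S) :
    HasDerivAt (fun r => F r p.2) (fderiv ℝ (fun p : ℝ × ℝ => F p.1 p.2) p (1, 0)) p.1 := by
  have h1 := (differentiableAt_of_smoothE hS hF hp).hasFDerivAt
  have h2 : HasDerivAt (fun r : ℝ => (r, p.2)) ((1 : ℝ), (0 : ℝ)) p.1 :=
    (hasDerivAt_id _).prodMk (hasDerivAt_const _ _)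
  exact h1.comp_hasDerivAt p.1 h2

theorem hasDerivAt_D2 {F : ℝ → ℝ → ℝ} {S : Set (ℝ × ℝ)} (hS : IsOpen S)
    (hF : ContDiffOn ℝ ∞ (fun p : ℝ × ℝ => F p.1 p.2) S) {p : ℝ × ℝ} (hp : p ∈ S) :
    HasDerivAt (fun r => F p.1 r) (fderiv ℝ (fun p : ℝ × ℝ => F p.1 p.2) p (0, 1)) p.2 := by
  have h1 := (differentiableAt_of_smoothE hS hF hp).hasFDerivAt
  have h2 : HasDerivAt (fun r : ℝ => (p.1, r)) ((0 : ℝ), (1 : ℝ)) p.2 :=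
    (hasDerivAt_const _ _).prodMk (hasDerivAt_id _)
  exact h1.comp_hasDerivAt p.2 h2

theorem D1_smooth {F : ℝ → ℝ → ℝ} {S : Set (ℝ × ℝ)} (hS : IsOpen S)
    (hF : ContDiffOn ℝ ∞ (fun p : ℝ × ℝ => F p.1 p.2) S) :
    ContDiffOn ℝ ∞ (fun p : ℝ × ℝ => D1 F p.1 p.2) S := by
  have h1 : ContDiffOn ℝ ∞ (fun p => fderiv ℝ (fun p : ℝ × ℝ => F p.1 p.2) p (1, 0)) S :=
    (hF.fderiv_of_isOpen hS (by simp)).clm_apply contDiffOn_const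
  exact h1.congr fun p hp => (hasDerivAt_D1 hS hF hp).deriv

theorem D2_smooth {F : ℝ → ℝ → ℝ} {S : Set (ℝ × ℝ)} (hS : IsOpen S)
    (hF : ContDiffOn ℝ ∞ (fun p : ℝ × ℝ => F p.1 p.2) S) :
    ContDiffOn ℝ ∞ (fun p : ℝ × ℝ => D2 F p.1 p.2) S := by
  have h1 : ContDiffOn ℝ ∞ (fun p => fderiv ℝ (fun p : ℝ × ℝ => F p.1 p.2) p (0, 1)) S :=
    (hF.fderiv_of_isOpen hS (by simp)).clm_apply contDiffOn_const
  exact h1.congr fun p hp => (hasDerivAt_D2 hS hF hp).deriv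

theorem fderiv_lift2 {F : ℝ → ℝ → ℝ} {S : Set (ℝ × ℝ)} (hS : IsOpen S)
    (hF : ContDiffOn ℝ ∞ (fun p : ℝ × ℝ => F p.1 p.2) S) {y : EE 4} (hy : y ∈ lset S) (v : EE 4) :
    fderiv ℝ (lift2 F) y v = fderiv ℝ (fun p : ℝ × ℝ => F p.1 p.2) (y 0, y 1) (v 0, v 1) := by
  have h1 := (differentiableAt_of_smoothE hS hF hy).hasFDerivAt
  have h2 : HasFDerivAt (fun y : EE 4 => (y 0, y 1)) ((prj 0).prod (prj 1)) y :=
    ((prj 0).hasFDerivAt).prodMk ((prj 1).hasFDerivAt)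
  have h3 := h1.comp y h2
  have h4 : HasFDerivAt (lift2 F)
      ((fderiv ℝ (fun p : ℝ × ℝ => F p.1 p.2) (y 0, y 1)).comp ((prj 0).prod (prj 1))) y := h3
  rw [h4.fderiv]; rfl

theorem pd0_lift2 {F : ℝ → ℝ → ℝ} {S : Set (ℝ × ℝ)} (hS : IsOpen S)
    (hF : ContDiffOn ℝ ∞ (fun p : ℝ × ℝ => F p.1 p.2) S) {y : EE 4} (hy : y ∈ lset S) :
    pd 0 (lift2 F) y = lift2 (D1 F) y := by
  rw [pd, fderiv_lift2 hS hF hy, lift2, D1, (hasDerivAt_D1 hS hF hy).deriv]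
  simp

theorem pd1_lift2 {F : ℝ → ℝ → ℝ} {S : Set (ℝ × ℝ)} (hS : IsOpen S)
    (hF : ContDiffOn ℝ ∞ (fun p : ℝ × ℝ => F p.1 p.2) S) {y : EE 4} (hy : y ∈ lset S) :
    pd 1 (lift2 F) y = lift2 (D2 F) y := by
  rw [pd, fderiv_lift2 hS hF hy, lift2, D2, (hasDerivAt_D2 hS hF hy).deriv]
  simp

theorem pd2_lift2 {F : ℝ → ℝ → ℝ} {S : Set (ℝ × ℝ)} (hS : IsOpen S)
    (hF : ContDiffOn ℝ ∞ (fun p : ℝ × ℝ => F p.1 p.2) S) {y : EE 4} (hy : y ∈ lset S) :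
    pd 2 (lift2 F) y = 0 := by
  rw [pd, fderiv_lift2 hS hF hy]
  have h : (((EuclideanSpace.single 2 (1 : ℝ) : EE 4) 0, (EuclideanSpace.single 2 (1 : ℝ) : EE 4) 1) : ℝ × ℝ)
      = 0 := by simp
  rw [h, map_zero]

theorem pd3_lift2 {F : ℝ → ℝ → ℝ} {S : Set (ℝ × ℝ)} (hS : IsOpen S)
    (hF : ContDiffOn ℝ ∞ (fun p : ℝ × ℝ => F p.1 p.2) S) {y : EE 4} (hy : y ∈ lset S) :
    pd 3 (lift2 F) y = 0 := by
  rw [pd, fderiv_lift2 hS hF hy]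
  have h : (((EuclideanSpace.single 3 (1 : ℝ) : EE 4) 0, (EuclideanSpace.single 3 (1 : ℝ) : EE 4) 1) : ℝ × ℝ)
      = 0 := by simp
  rw [h, map_zero]

theorem pd00_lift2 {F : ℝ → ℝ → ℝ} {S : Set (ℝ × ℝ)} (hS : IsOpen S)
    (hF : ContDiffOn ℝ ∞ (fun p : ℝ × ℝ => F p.1 p.2) S) {y : EE 4} (hy : y ∈ lset S) :
    pd 0 (pd 0 (lift2 F)) y = lift2 (D11 F) y := by
  rw [pd_congr_of_eqOn 0 (isOpen_lset hS) hy fun z hz => pd0_lift2 hS hF hz,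
    pd0_lift2 hS (D1_smooth hS hF) hy]
  rfl

theorem pd01_lift2 {F : ℝ → ℝ → ℝ} {S : Set (ℝ × ℝ)} (hS : IsOpen S)
    (hF : ContDiffOn ℝ ∞ (fun p : ℝ × ℝ => F p.1 p.2) S) {y : EE 4} (hy : y ∈ lset S) :
    pd 0 (pd 1 (lift2 F)) y = lift2 (D12 F) y := by
  rw [pd_congr_of_eqOn 0 (isOpen_lset hS) hy fun z hz => pd1_lift2 hS hF hz,
    pd0_lift2 hS (D2_smooth hS hF) hy]
  rfl

theorem pd11_lift2 {F : ℝ → ℝ → ℝ} {S : Set (ℝ × ℝ)} (hS : IsOpen S)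
    (hF : ContDiffOn ℝ ∞ (fun p : ℝ × ℝ => F p.1 p.2) S) {y : EE 4} (hy : y ∈ lset S) :
    pd 1 (pd 1 (lift2 F)) y = lift2 (D22 F) y := by
  rw [pd_congr_of_eqOn 1 (isOpen_lset hS) hy fun z hz => pd1_lift2 hS hF hz,
    pd1_lift2 hS (D2_smooth hS hF) hy]
  rfl

/-- the domain `{(x0,x1) ∈ S, 0 < x2 < π}` -/
def TDom (S : Set (ℝ × ℝ)) : Set (EE 4) := {y | (y 0, y 1) ∈ S ∧ 0 < y 2 ∧ y 2 < Real.pi}

theorem isOpen_TDom {S : Set (ℝ × ℝ)} (hS : IsOpen S) : IsOpen (TDom S) := by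
  have h2 : Continuous (fun x : EE 4 => x 2) := (contDiff_piLp_apply (n := ∞) (𝕜 := ℝ) ..).continuous
  exact (isOpen_lset hS).inter ((isOpen_lt continuous_const h2).inter (isOpen_lt h2 continuous_const))

theorem TDom_sub (S : Set (ℝ × ℝ)) : TDom S ⊆ lset S := fun _ h => h.1

/-- data for type I metrics from functions of two variables -/
theorem tiData_lift2 {J f : ℝ → ℝ → ℝ} {Ψ : ℝ → ℝ} {S : Set (ℝ × ℝ)} (hS : IsOpen S)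
    (hJ : ContDiffOn ℝ ∞ (fun p : ℝ × ℝ => J p.1 p.2) S)
    (hf : ContDiffOn ℝ ∞ (fun p : ℝ × ℝ => f p.1 p.2) S)
    (pJ : ∀ p ∈ S, 0 < J p.1 p.2) (pf : ∀ p ∈ S, 0 < f p.1 p.2) (sΨ : ContDiff ℝ ∞ Ψ)
    (pΨ : ∀ w > 0, 0 < Ψ w) : TIData (lift2 J) (lift2 f) Ψ (TDom S) where
  isOpen := isOpen_TDom hS
  sJ := (lift2_smooth hJ).mono (TDom_sub S)
  sφ := (lift2_smooth hf).mono (TDom_sub S)
  sΨ := sΨ
  pJ y hy := pJ _ hy.1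
  pφ y hy := pf _ hy.1
  pΨ y hy := pΨ _ (mul_pos (pf _ hy.1) (Real.sin_pos_of_pos_of_lt_pi hy.2.1 hy.2.2))
  J_2 y hy := pd2_lift2 hS hJ hy.1
  J_3 y hy := pd3_lift2 hS hJ hy.1
  φ_2 y hy := pd2_lift2 hS hf hy.1
  φ_3 y hy := pd3_lift2 hS hf hy.1

/-- Lemma TI at a point, for functions of two variables satisfying `TI` -/
theorem typeI_point {J f : ℝ → ℝ → ℝ} {Ψ : ℝ → ℝ} {S : Set (ℝ × ℝ)} (hS : IsOpen S)
    (hJ : ContDiffOn ℝ ∞ (fun p : ℝ × ℝ => J p.1 p.2) S)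
    (hf : ContDiffOn ℝ ∞ (fun p : ℝ × ℝ => f p.1 p.2) S)
    (pJ : ∀ p ∈ S, 0 < J p.1 p.2) (pf : ∀ p ∈ S, 0 < f p.1 p.2) {ε δ : ℝ} (hE : IsEdge ε δ Ψ)
    (he0 : 0 ≤ ε) (he1 : ε ≤ 1) {K0 k : ℝ} (hK0 : 0 ≤ K0) (hk : 0 ≤ k) {y : EE 4} (hy : y ∈ TDom S)
    (h : TI J f K0 k (y 0) (y 1)) (v : EE 4) :
    -(3 * k + ε * (K0 + 1)) * gquad (TIm (lift2 J) (lift2 f) Ψ) y v
      ≤ ricquad (TIm (lift2 J) (lift2 f) Ψ) y v := by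
  have pΨ : ∀ w > 0, 0 < Ψ w := fun w hw => lt_of_lt_of_le (by positivity) (hE.lb w hw.le)
  have hd := tiData_lift2 hS hJ hf pJ pf hE.smooth pΨ
  rw [ricquad_TI hd hy, gquad_TI]
  have hsin := Real.sin_pos_of_pos_of_lt_pi hy.2.1 hy.2.2
  have hw : 0 < lift2 f y * Real.sin (y 2) := mul_pos (pf _ hy.1) hsin
  have eK : KJ (lift2 J) y = -(D11 J (y 0) (y 1) / J (y 0) (y 1)) := by
    rw [KJ, pd00_lift2 hS hJ hy.1, neg_div]; rfl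
  have e00 : H00 (lift2 f) y = D11 f (y 0) (y 1) := pd00_lift2 hS hf hy.1
  have e01 : H01 (lift2 J) (lift2 f) y
      = (D12 f (y 0) (y 1) - D1 J (y 0) (y 1) / J (y 0) (y 1) * D2 f (y 0) (y 1)) / J (y 0) (y 1) := by
    rw [H01, pd01_lift2 hS hf hy.1, pd0_lift2 hS hJ hy.1, pd1_lift2 hS hf hy.1]
    have := h.Jpos.ne'
    simp only [lift2]
    field_simp
  have e11 : H11 (lift2 J) (lift2 f) y
      = (D22 f (y 0) (y 1) - D2 J (y 0) (y 1) / J (y 0) (y 1) * D2 f (y 0) (y 1)) / (J (y 0) (y 1)) ^ 2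
        + D1 J (y 0) (y 1) / J (y 0) (y 1) * D1 f (y 0) (y 1) := by
    rw [H11, pd11_lift2 hS hf hy.1, pd0_lift2 hS hJ hy.1, pd1_lift2 hS hf hy.1, pd1_lift2 hS hJ hy.1,
      pd0_lift2 hS hf hy.1]
    have := h.Jpos.ne'
    simp only [lift2]
    field_simp
  have eN : N2 (lift2 J) (lift2 f) y = (D1 f (y 0) (y 1)) ^ 2 + (D2 f (y 0) (y 1)) ^ 2 / (J (y 0) (y 1)) ^ 2 := by
    rw [N2, pd0_lift2 hS hf hy.1, pd1_lift2 hS hf hy.1, div_pow]; rfl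
  refine ricTI_ge hK0 hk he0 he1 h.fpos (by rw [eK]; exact h.Klb) (by rw [eK]; exact h.Kub) ?_
    (by rw [eN]; exact h.grad) (pΨ _ hw) (hE.dlb _ hw) (hE.dub _ hw) (hE.dd _ hw) _ _ _ _
  intro v w
  rw [e00, e01, e11, eK]
  exact h.hess v w

end Pool.Agent.MP39e402.RR
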