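import Pool.Agent.Lib.MP_39e402_gt.R.GF

/-! Part R4b: the cohomogeneity one (`U(2)`) metric
`dx0² + b² (dx1² + sin² x1 cos² x1 dx2²) + f² (dx3 + sin² x1 dx2)²`, `b, f` functions of `x0`,
`0 < x1 < π/2`. -/

open Set Filter Topology
open scoped ContDiff BigOperators

set_option linter.unusedSimpArgs false

noncomputable section

namespace Pool.Agent.MP39e402.RR

/-- `dx0² + b² (dx1² + sin² x1 cos² x1 dx2²) + f² (dx3 + sin² x1 dx2)²` -/
def UU (b f : ℝ → ℝ) : RMetric 4 :=
  GF (fun x => b (x 0)) (fun x => b (x 0) * (Real.sin (x 1) * Real.cos (x 1)))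
    (fun x => Real.sin (x 1) * Real.sin (x 1)) (fun x => f (x 0))

/-- the domain `{x0 ∈ I, 0 < x1 < π/2}` -/
def UDom (I : Set ℝ) : Set (EE 4) := {x | x 0 ∈ I ∧ 0 < x 1 ∧ x 1 < Real.pi / 2}

structure UUData (b f : ℝ → ℝ) (I : Set ℝ) : Prop where
  isOpen : IsOpen I
  sb : ContDiffOn ℝ ∞ b I
  sf : ContDiffOn ℝ ∞ f I
  pb : ∀ t ∈ I, 0 < b t
  pf : ∀ t ∈ I, 0 < f t

variable {b f : ℝ → ℝ} {I : Set ℝ}

theorem isOpen_UDom (hI : IsOpen I) : IsOpen (UDom I) := by
  have h0 : Continuous (fun x : EE 4 => x 0) := (contDiff_piLp_apply (n := ∞) (𝕜 := ℝ) ..).continuous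
  have h1 : Continuous (fun x : EE 4 => x 1) := (contDiff_piLp_apply (n := ∞) (𝕜 := ℝ) ..).continuous
  exact (hI.preimage h0).inter ((isOpen_lt continuous_const h1).inter (isOpen_lt h1 continuous_const))

/-- derivatives of a function of one coordinate -/
theorem pd_fun_coord {b : ℝ → ℝ} (m i : Fin 4) {x : EE 4} (hb : DifferentiableAt ℝ b (x i)) :
    pd m (fun y : EE 4 => b (y i)) x = deriv b (x i) * (if m = i then 1 else 0) := by
  have hd : DifferentiableAt ℝ (fun y : EE 4 => y i) x :=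
    (contDiff_piLp_apply (n := ∞) .. : ContDiff ℝ ∞ (fun x : EE 4 => x i)).differentiable (by simp) x
  rw [pd_comp_real (ψ := b) m hb hd, pd_coord]

theorem pdpd_fun_coord {b : ℝ → ℝ} {I : Set ℝ} (hI : IsOpen I) (hb : ContDiffOn ℝ ∞ b I)
    (m k i : Fin 4) {x : EE 4} (hx : x i ∈ I) :
    pd m (pd k (fun y : EE 4 => b (y i))) x
      = deriv (deriv b) (x i) * ((if m = i then 1 else 0) * (if k = i then 1 else 0)) := by
  have hc : Continuous (fun x : EE 4 => x i) := (contDiff_piLp_apply (n := ∞) (𝕜 := ℝ) ..).continuous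
  have hU : IsOpen {y : EE 4 | y i ∈ I} := hI.preimage hc
  have h1 : ContDiffOn ℝ ∞ (deriv b) I := hb.deriv_of_isOpen hI (by simp)
  have e : EqOn (pd k (fun y : EE 4 => b (y i))) (fun y => deriv b (y i) * (if k = i then 1 else 0))
      {y : EE 4 | y i ∈ I} := by
    intro y hy
    exact pd_fun_coord k i ((hb.contDiffAt (hI.mem_nhds hy)).differentiableAt (by simp))
  rw [pd_congr_of_eqOn m hU hx e]
  have hd : DifferentiableAt ℝ (deriv b) (x i) :=
    (h1.contDiffAt (hI.mem_nhds hx)).differentiableAt (by simp)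
  have hd2 : DifferentiableAt ℝ (fun y : EE 4 => y i) x :=
    (contDiff_piLp_apply (n := ∞) .. : ContDiff ℝ ∞ (fun x : EE 4 => x i)).differentiable (by simp) x
  have hd3 : DifferentiableAt ℝ (fun y : EE 4 => deriv b (y i)) x :=
    DifferentiableAt.comp (f := fun y : EE 4 => y i) (g := deriv b) x hd hd2
  rw [pd_mul m hd3 (differentiableAt_const _), pd_const, pd_fun_coord m i hd]
  ring

theorem fun_coord_smooth {b : ℝ → ℝ} {I : Set ℝ} (hb : ContDiffOn ℝ ∞ b I) (i : Fin 4)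
    {V : Set (EE 4)} (hV : ∀ x ∈ V, x i ∈ I) : ContDiffOn ℝ ∞ (fun y : EE 4 => b (y i)) V := by
  have hc : ContDiff ℝ ∞ (fun x : EE 4 => x i) := contDiff_piLp_apply ..
  exact hb.comp hc.contDiffOn hV

theorem deriv_sc : deriv (fun t : ℝ => Real.sin t * Real.cos t)
    = fun t => Real.cos t ^ 2 - Real.sin t ^ 2 := by
  funext t
  have h := ((Real.hasDerivAt_sin t).mul (Real.hasDerivAt_cos t)).deriv
  change deriv (fun t : ℝ => Real.sin t * Real.cos t) t = _ at h
  rw [h]; ring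

theorem deriv_deriv_sc : deriv (deriv (fun t : ℝ => Real.sin t * Real.cos t))
    = fun t => -4 * (Real.sin t * Real.cos t) := by
  rw [deriv_sc]
  funext t
  have h := (((Real.hasDerivAt_cos t).pow 2).sub ((Real.hasDerivAt_sin t).pow 2)).deriv
  change deriv (fun t : ℝ => Real.cos t ^ 2 - Real.sin t ^ 2) t = _ at h
  rw [h]; simp; ring

theorem deriv_ss : deriv (fun t : ℝ => Real.sin t * Real.sin t)
    = fun t => 2 * (Real.sin t * Real.cos t) := by
  funext t
  have h := ((Real.hasDerivAt_sin t).mul (Real.hasDerivAt_sin t)).deriv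
  change deriv (fun t : ℝ => Real.sin t * Real.sin t) t = _ at h
  rw [h]; ring

theorem deriv_deriv_ss : deriv (deriv (fun t : ℝ => Real.sin t * Real.sin t))
    = fun t => 2 * (Real.cos t ^ 2 - Real.sin t ^ 2) := by
  rw [deriv_ss]
  funext t
  have h := (((Real.hasDerivAt_sin t).mul (Real.hasDerivAt_cos t)).const_mul 2).deriv
  change deriv (fun t : ℝ => 2 * (Real.sin t * Real.cos t)) t = _ at h
  rw [h]; ring

theorem sc_smooth : ContDiffOn ℝ ∞ (fun t : ℝ => Real.sin t * Real.cos t) univ :=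
  (Real.contDiff_sin.mul Real.contDiff_cos).contDiffOn

theorem ss_smooth : ContDiffOn ℝ ∞ (fun t : ℝ => Real.sin t * Real.sin t) univ :=
  (Real.contDiff_sin.mul Real.contDiff_sin).contDiffOn

theorem UUData.toGF (h : UUData b f I) :
    GFData (fun x => b (x 0)) (fun x => b (x 0) * (Real.sin (x 1) * Real.cos (x 1)))
      (fun x => Real.sin (x 1) * Real.sin (x 1)) (fun x => f (x 0)) (UDom I) := by
  have hb : ∀ x ∈ UDom I, DifferentiableAt ℝ b (x 0) := fun x hx =>
    (h.sb.contDiffAt (h.isOpen.mem_nhds hx.1)).differentiableAt (by simp)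
  have hf : ∀ x ∈ UDom I, DifferentiableAt ℝ f (x 0) := fun x hx =>
    (h.sf.contDiffAt (h.isOpen.mem_nhds hx.1)).differentiableAt (by simp)
  have sb : ContDiffOn ℝ ∞ (fun y : EE 4 => b (y 0)) (UDom I) := fun_coord_smooth h.sb 0 fun x hx => hx.1
  have sf : ContDiffOn ℝ ∞ (fun y : EE 4 => f (y 0)) (UDom I) := fun_coord_smooth h.sf 0 fun x hx => hx.1
  have ssc : ContDiffOn ℝ ∞ (fun y : EE 4 => Real.sin (y 1) * Real.cos (y 1)) (UDom I) :=
    fun_coord_smooth (b := fun t => Real.sin t * Real.cos t) sc_smooth 1 fun x _ => mem_univ _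
  have sss : ContDiffOn ℝ ∞ (fun y : EE 4 => Real.sin (y 1) * Real.sin (y 1)) (UDom I) :=
    fun_coord_smooth (b := fun t => Real.sin t * Real.sin t) ss_smooth 1 fun x _ => mem_univ _
  have psc : ∀ x ∈ UDom I, 0 < Real.sin (x 1) * Real.cos (x 1) := fun x hx =>
    mul_pos (Real.sin_pos_of_pos_of_lt_pi hx.2.1 (by have := hx.2.2; linarith [Real.pi_pos]))
      (Real.cos_pos_of_mem_Ioo ⟨by have := hx.2.1; linarith [Real.pi_pos], hx.2.2⟩)
  have dsc : ∀ (m : Fin 4) (x : EE 4), pd m (fun y : EE 4 => Real.sin (y 1) * Real.cos (y 1)) x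
      = deriv (fun t : ℝ => Real.sin t * Real.cos t) (x 1) * (if m = 1 then 1 else 0) := fun m x =>
    pd_fun_coord (b := fun t => Real.sin t * Real.cos t) m 1
      ((Real.differentiableAt_sin).mul (Real.differentiableAt_cos))
  have dss : ∀ (m : Fin 4) (x : EE 4), pd m (fun y : EE 4 => Real.sin (y 1) * Real.sin (y 1)) x
      = deriv (fun t : ℝ => Real.sin t * Real.sin t) (x 1) * (if m = 1 then 1 else 0) := fun m x =>
    pd_fun_coord (b := fun t => Real.sin t * Real.sin t) m 1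
      ((Real.differentiableAt_sin).mul (Real.differentiableAt_sin))
  have db3 : ∀ m : Fin 4, m ≠ 0 → m ≠ 1 → ∀ x ∈ UDom I,
      pd m (fun x : EE 4 => b (x 0) * (Real.sin (x 1) * Real.cos (x 1))) x = 0 := by
    intro m h0 h1 x hx
    rw [pd_mul m (differentiableAt_of_smooth (isOpen_UDom h.isOpen) sb hx)
      (differentiableAt_of_smooth (isOpen_UDom h.isOpen) ssc hx), pd_fun_coord m 0 (hb x hx), dsc]
    simp [h0, h1]
  exact
    { isOpen := isOpen_UDom h.isOpen
      sk2 := sb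
      sk3 := sb.mul ssc
      sA := sss
      sW := sf
      pk2 := fun x hx => h.pb _ hx.1
      pk3 := fun x hx => mul_pos (h.pb _ hx.1) (psc x hx)
      pW := fun x hx => h.pf _ hx.1
      k2_2 := fun x hx => by rw [pd_fun_coord 2 0 (hb x hx)]; simp
      k2_3 := fun x hx => by rw [pd_fun_coord 3 0 (hb x hx)]; simp
      k3_2 := fun x hx => db3 2 (by decide) (by decide) x hx
      k3_3 := fun x hx => db3 3 (by decide) (by decide) x hx
      A_2 := fun x hx => by rw [dss]; simp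
      A_3 := fun x hx => by rw [dss]; simp
      W_3 := fun x hx => by rw [pd_fun_coord 3 0 (hf x hx)]; simp }

theorem isRMetricOn_UU (h : UUData b f I) : IsRMetricOn (UU b f) (UDom I) := isRMetricOn_GF h.toGF

theorem gquad_UU (b f : ℝ → ℝ) (x v : EE 4) :
    gquad (UU b f) x v = v 0 ^ 2 + (b (x 0) * v 1) ^ 2
      + (b (x 0) * (Real.sin (x 1) * Real.cos (x 1)) * v 2) ^ 2
      + (f (x 0) * (v 3 + Real.sin (x 1) ^ 2 * v 2)) ^ 2 := by
  rw [UU, gquad_GF]; ring

/-- R4b -/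
theorem ricquad_UU (h : UUData b f I) {x : EE 4} (hx : x ∈ UDom I) (v : EE 4) :
    ricquad (UU b f) x v =
      (-2 * deriv (deriv b) (x 0) / b (x 0) - deriv (deriv f) (x 0) / f (x 0)) * v 0 ^ 2
      + (-deriv (deriv b) (x 0) / b (x 0) - deriv b (x 0) ^ 2 / b (x 0) ^ 2
          - deriv f (x 0) * deriv b (x 0) / (f (x 0) * b (x 0)) + 4 / b (x 0) ^ 2
          - 2 * f (x 0) ^ 2 / b (x 0) ^ 4)
        * ((b (x 0) * v 1) ^ 2 + (b (x 0) * (Real.sin (x 1) * Real.cos (x 1)) * v 2) ^ 2)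
      + (-deriv (deriv f) (x 0) / f (x 0) - 2 * deriv f (x 0) * deriv b (x 0) / (f (x 0) * b (x 0))
          + 2 * f (x 0) ^ 2 / b (x 0) ^ 4) * (f (x 0) * (v 3 + Real.sin (x 1) ^ 2 * v 2)) ^ 2 := by
  have hb : DifferentiableAt ℝ b (x 0) :=
    (h.sb.contDiffAt (h.isOpen.mem_nhds hx.1)).differentiableAt (by simp)
  have hf : DifferentiableAt ℝ f (x 0) :=
    (h.sf.contDiffAt (h.isOpen.mem_nhds hx.1)).differentiableAt (by simp)
  have hV := isOpen_UDom h.isOpen
  have sb : ContDiffOn ℝ ∞ (fun y : EE 4 => b (y 0)) (UDom I) := fun_coord_smooth h.sb 0 fun x hx => hx.1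
  have ssc : ContDiffOn ℝ ∞ (fun y : EE 4 => Real.sin (y 1) * Real.cos (y 1)) (UDom I) :=
    fun_coord_smooth (b := fun t => Real.sin t * Real.cos t) sc_smooth 1 fun x _ => mem_univ _
  have dsc : ∀ (m : Fin 4), pd m (fun y : EE 4 => Real.sin (y 1) * Real.cos (y 1)) x
      = (Real.cos (x 1) ^ 2 - Real.sin (x 1) ^ 2) * (if m = 1 then 1 else 0) := fun m => by
    have := pd_fun_coord (b := fun t => Real.sin t * Real.cos t) (x := x) m 1
      ((Real.differentiableAt_sin).mul (Real.differentiableAt_cos))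
    rw [deriv_sc] at this; exact this
  have dss : ∀ (m : Fin 4), pd m (fun y : EE 4 => Real.sin (y 1) * Real.sin (y 1)) x
      = (2 * (Real.sin (x 1) * Real.cos (x 1))) * (if m = 1 then 1 else 0) := fun m => by
    have := pd_fun_coord (b := fun t => Real.sin t * Real.sin t) (x := x) m 1
      ((Real.differentiableAt_sin).mul (Real.differentiableAt_sin))
    rw [deriv_ss] at this; exact this
  have ddsc : ∀ (m k : Fin 4), pd m (pd k (fun y : EE 4 => Real.sin (y 1) * Real.cos (y 1))) x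
      = (-4 * (Real.sin (x 1) * Real.cos (x 1))) * ((if m = 1 then 1 else 0) * (if k = 1 then 1 else 0)) :=
    fun m k => by
    have := pdpd_fun_coord (b := fun t => Real.sin t * Real.cos t) isOpen_univ sc_smooth m k 1 (x := x)
      (mem_univ _)
    rw [deriv_deriv_sc] at this; exact this
  have ddss : ∀ (m k : Fin 4), pd m (pd k (fun y : EE 4 => Real.sin (y 1) * Real.sin (y 1))) x
      = (2 * (Real.cos (x 1) ^ 2 - Real.sin (x 1) ^ 2)) * ((if m = 1 then 1 else 0) * (if k = 1 then 1 else 0)) :=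
    fun m k => by
    have := pdpd_fun_coord (b := fun t => Real.sin t * Real.sin t) isOpen_univ ss_smooth m k 1 (x := x)
      (mem_univ _)
    rw [deriv_deriv_ss] at this; exact this
  have d1 : ∀ m, pd m (fun x : EE 4 => b (x 0) * (Real.sin (x 1) * Real.cos (x 1))) x = _ := fun m =>
    pd_mul m (differentiableAt_of_smooth hV sb hx) (differentiableAt_of_smooth hV ssc hx)
  have d2 : ∀ m k, pd m (pd k (fun x : EE 4 => b (x 0) * (Real.sin (x 1) * Real.cos (x 1)))) x = _ :=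
    fun m k => pdpd_mul m k hV sb ssc hx
  have e1 : ∀ m, pd m (fun y : EE 4 => b (y 0)) x = _ := fun m => pd_fun_coord m 0 hb
  have e2 : ∀ m k, pd m (pd k (fun y : EE 4 => b (y 0))) x = _ := fun m k =>
    pdpd_fun_coord h.isOpen h.sb m k 0 hx.1
  have e3 : ∀ m, pd m (fun y : EE 4 => f (y 0)) x = _ := fun m => pd_fun_coord m 0 hf
  have e4 : ∀ m k, pd m (pd k (fun y : EE 4 => f (y 0))) x = _ := fun m k =>
    pdpd_fun_coord h.isOpen h.sf m k 0 hx.1
  have hb0 := (h.pb _ hx.1).ne'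
  have hf0 := (h.pf _ hx.1).ne'
  have hs0 : Real.sin (x 1) ≠ 0 :=
    (Real.sin_pos_of_pos_of_lt_pi hx.2.1 (by have := hx.2.2; linarith [Real.pi_pos])).ne'
  have hc0 : Real.cos (x 1) ≠ 0 :=
    (Real.cos_pos_of_mem_Ioo ⟨by have := hx.2.1; linarith [Real.pi_pos], hx.2.2⟩).ne'
  have hsc := Real.sin_sq_add_cos_sq (x 1)
  rw [UU, ricquad_GF h.toGF hx]
  simp only [GFJet.ric, GFJet.R00, GFJet.R01, GFJet.R02, GFJet.R03, GFJet.R11, GFJet.R12, GFJet.R13,
    GFJet.R22, GFJet.R23, GFJet.R33, GFJet.K, GFJet.divF, GFJet.hb00, GFJet.hb01, GFJet.hb11,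
    GFJet.hw00, GFJet.hw01, GFJet.hw02, GFJet.hw11, GFJet.hw12, GFJet.hw22, GFJet.F02, GFJet.F12,
    gfJet, d1, d2, e1, e2, e3, e4, dsc, dss, ddsc, ddss]
  generalize Real.sin (x 1) = s at *
  generalize Real.cos (x 1) = c at *
  generalize deriv (deriv b) (x 0) = b'' at *
  generalize deriv (deriv f) (x 0) = f'' at *
  generalize deriv b (x 0) = b' at *
  generalize deriv f (x 0) = f' at *
  generalize b (x 0) = B at *
  generalize f (x 0) = F at *
  simp
  field_simp
  ring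

/-- criterion for `Ric ≥ κ` of the `U(2)` metrics -/
theorem ricGE_UU (h : UUData b f I) {κ : ℝ}
    (h0 : ∀ t ∈ I, κ ≤ -2 * deriv (deriv b) t / b t - deriv (deriv f) t / f t)
    (h1 : ∀ t ∈ I, κ ≤ -deriv (deriv b) t / b t - deriv b t ^ 2 / b t ^ 2
          - deriv f t * deriv b t / (f t * b t) + 4 / b t ^ 2 - 2 * f t ^ 2 / b t ^ 4)
    (h3 : ∀ t ∈ I, κ ≤ -deriv (deriv f) t / f t - 2 * deriv f t * deriv b t / (f t * b t)
          + 2 * f t ^ 2 / b t ^ 4) : RicGE (UU b f) (UDom I) κ := by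
  intro x hx v
  rw [ricquad_UU h hx, gquad_UU]
  have a0 := mul_le_mul_of_nonneg_right (h0 (x 0) hx.1) (sq_nonneg (v 0))
  have a1 := mul_le_mul_of_nonneg_right (h1 (x 0) hx.1)
    (add_nonneg (sq_nonneg (b (x 0) * v 1)) (sq_nonneg (b (x 0) * (Real.sin (x 1) * Real.cos (x 1)) * v 2)))
  have a3 := mul_le_mul_of_nonneg_right (h3 (x 0) hx.1)
    (sq_nonneg (f (x 0) * (v 3 + Real.sin (x 1) ^ 2 * v 2)))
  linarith

end Pool.Agent.MP39e402.RR
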