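import Pool.Agent.Lib.MP_39e402_gt.R.Pull4
import Pool.Agent.Lib.MP_39e402_gt.R.TypeILem
import Pool.Agent.Lib.MP_39e402_gt.R.TypeU

/-! # MP_39e402, module RC-CoreGF: the core metric in torus coordinates.

`x = (t, ξ, φ2, φ1)`, `N = b² cos² ξ + f² sin² ξ`, `GF k2 k3 A w` with `k2 = b`, `k3 = b f cos ξ/√N`,
`A = -(b²-f²) cos² ξ/N`, `w = sin ξ √N` (`lift2` of functions of `(t,ξ)`, R/TypeILem).
The linear map `Λ (t, ξ, φ2, φ1) = (t, ξ, φ1 - φ2, φ2)` is a local isometry (`RLocIso`, R/Pull2) from `GF ..` to `UU b f`: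
`b² s² c² (v3-v2)² + f² (c² v2 + s² v3)² = k3² v2² + w² (v3 + A v2)²` (`s = sin ξ, c = cos ξ`; key identities
`w² = s² N`, `k3² + w² A² = c² (b² s² + f² c²)` i.e. `s²c²(b²-f²)² + b²f² = N (b² s² + f² c²)`, `w² A = -s² c² (b² - f²)`).
So `RicGE (GF ..) TorD 0` from `ricGE_UU` and `IsCore.ric0/ric1/ric3` by `RLocIso.ricGE_pull`.
The `GFData` fields: `pd2_lift2`, `pd3_lift2`, `lift2_smooth`. -/

open Real Set Filter Topology
open scoped ContDiff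

noncomputable section

namespace Pool.Agent.MP39e402.RR

def NF (b f : ℝ → ℝ) (t x : ℝ) : ℝ := b t ^ 2 * cos x ^ 2 + f t ^ 2 * sin x ^ 2
def k2F (b : ℝ → ℝ) (t _x : ℝ) : ℝ := b t
def k3F (b f : ℝ → ℝ) (t x : ℝ) : ℝ := b t * f t * cos x / √(NF b f t x)
def AF (b f : ℝ → ℝ) (t x : ℝ) : ℝ := -(b t ^ 2 - f t ^ 2) * cos x ^ 2 / NF b f t x
def wF (b f : ℝ → ℝ) (t x : ℝ) : ℝ := sin x * √(NF b f t x)

/-- `t > 0`, `|ξ| < π/2` -/
def S0 : Set (ℝ × ℝ) := {p | 0 < p.1 ∧ -(π / 2) < p.2 ∧ p.2 < π / 2}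

/-- `t > 0`, `0 < ξ < π/2` -/
def TorD : Set (EE 4) := {y | 0 < y 0 ∧ 0 < y 1 ∧ y 1 < π / 2}

theorem S0_open : IsOpen S0 := by
  have h1 : Continuous (fun p : ℝ × ℝ => p.1) := continuous_fst
  have h2 : Continuous (fun p : ℝ × ℝ => p.2) := continuous_snd
  exact (isOpen_lt continuous_const h1).inter
    ((isOpen_lt continuous_const h2).inter (isOpen_lt h2 continuous_const))

theorem TorD_open : IsOpen TorD := by
  have h0 : Continuous (fun x : EE 4 => x 0) := (contDiff_piLp_apply (n := ∞) (𝕜 := ℝ) ..).continuous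
  have h1 : Continuous (fun x : EE 4 => x 1) := (contDiff_piLp_apply (n := ∞) (𝕜 := ℝ) ..).continuous
  exact (isOpen_lt continuous_const h0).inter
    ((isOpen_lt continuous_const h1).inter (isOpen_lt h1 continuous_const))

theorem S0_cos_pos {p : ℝ × ℝ} (hp : p ∈ S0) : 0 < cos p.2 :=
  cos_pos_of_mem_Ioo ⟨hp.2.1, hp.2.2⟩

theorem NF_pos {b f : ℝ → ℝ} (pb : ∀ t, 0 < t → 0 < b t) {p : ℝ × ℝ} (hp : p ∈ S0) :
    0 < NF b f p.1 p.2 := by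
  have h1 := S0_cos_pos hp
  have h2 := pb _ hp.1
  unfold NF
  positivity

theorem NF_smooth {b f : ℝ → ℝ} (sb : ContDiff ℝ ∞ b) (sf : ContDiff ℝ ∞ f) :
    ContDiff ℝ ∞ (fun p : ℝ × ℝ => NF b f p.1 p.2) := by
  have h1 : ContDiff ℝ ∞ (fun p : ℝ × ℝ => b p.1) := sb.comp contDiff_fst
  have h2 : ContDiff ℝ ∞ (fun p : ℝ × ℝ => f p.1) := sf.comp contDiff_fst
  have h3 : ContDiff ℝ ∞ (fun p : ℝ × ℝ => cos p.2) := contDiff_cos.comp contDiff_snd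
  have h4 : ContDiff ℝ ∞ (fun p : ℝ × ℝ => sin p.2) := contDiff_sin.comp contDiff_snd
  exact ((h1.pow 2).mul (h3.pow 2)).add ((h2.pow 2).mul (h4.pow 2))

theorem sqrtNF_smooth {b f : ℝ → ℝ} (sb : ContDiff ℝ ∞ b) (sf : ContDiff ℝ ∞ f)
    (pb : ∀ t, 0 < t → 0 < b t) : ContDiffOn ℝ ∞ (fun p : ℝ × ℝ => √(NF b f p.1 p.2)) S0 :=
  (NF_smooth sb sf).contDiffOn.sqrt fun _ hp => (NF_pos pb hp).ne'

theorem k3F_smooth {b f : ℝ → ℝ} (sb : ContDiff ℝ ∞ b) (sf : ContDiff ℝ ∞ f)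
    (pb : ∀ t, 0 < t → 0 < b t) : ContDiffOn ℝ ∞ (fun p : ℝ × ℝ => k3F b f p.1 p.2) S0 := by
  have h1 : ContDiff ℝ ∞ (fun p : ℝ × ℝ => b p.1) := sb.comp contDiff_fst
  have h2 : ContDiff ℝ ∞ (fun p : ℝ × ℝ => f p.1) := sf.comp contDiff_fst
  have h3 : ContDiff ℝ ∞ (fun p : ℝ × ℝ => cos p.2) := contDiff_cos.comp contDiff_snd
  exact ((h1.mul h2).mul h3).contDiffOn.div (sqrtNF_smooth sb sf pb)
    fun _ hp => (sqrt_pos.2 (NF_pos pb hp)).ne'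

theorem AF_smooth {b f : ℝ → ℝ} (sb : ContDiff ℝ ∞ b) (sf : ContDiff ℝ ∞ f)
    (pb : ∀ t, 0 < t → 0 < b t) : ContDiffOn ℝ ∞ (fun p : ℝ × ℝ => AF b f p.1 p.2) S0 := by
  have h1 : ContDiff ℝ ∞ (fun p : ℝ × ℝ => b p.1) := sb.comp contDiff_fst
  have h2 : ContDiff ℝ ∞ (fun p : ℝ × ℝ => f p.1) := sf.comp contDiff_fst
  have h3 : ContDiff ℝ ∞ (fun p : ℝ × ℝ => cos p.2) := contDiff_cos.comp contDiff_snd
  exact (((h1.pow 2).sub (h2.pow 2)).neg.mul (h3.pow 2)).contDiffOn.div (NF_smooth sb sf).contDiffOn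
    fun _ hp => (NF_pos pb hp).ne'

theorem wF_smooth {b f : ℝ → ℝ} (sb : ContDiff ℝ ∞ b) (sf : ContDiff ℝ ∞ f)
    (pb : ∀ t, 0 < t → 0 < b t) : ContDiffOn ℝ ∞ (fun p : ℝ × ℝ => wF b f p.1 p.2) S0 := by
  have h4 : ContDiff ℝ ∞ (fun p : ℝ × ℝ => sin p.2) := contDiff_sin.comp contDiff_snd
  exact h4.contDiffOn.mul (sqrtNF_smooth sb sf pb)

theorem k2F_smooth {b : ℝ → ℝ} (sb : ContDiff ℝ ∞ b) :
    ContDiffOn ℝ ∞ (fun p : ℝ × ℝ => k2F b p.1 p.2) S0 :=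
  (sb.comp contDiff_fst).contDiffOn

theorem TorD_sub : TorD ⊆ lset S0 := fun y hy =>
  ⟨hy.1, by have := hy.2.1; change -(π / 2) < y 1; linarith [pi_pos], hy.2.2⟩

theorem coreGF_data {b f : ℝ → ℝ} {ta T t1 : ℝ} (h : IsCore b f ta T t1) :
    GFData (lift2 (k2F b)) (lift2 (k3F b f)) (lift2 (AF b f)) (lift2 (wF b f)) TorD where
  isOpen := TorD_open
  sk2 := (lift2_smooth (k2F_smooth h.smooth_b)).mono TorD_sub
  sk3 := (lift2_smooth (k3F_smooth h.smooth_b h.smooth_f h.b_pos)).mono TorD_sub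
  sA := (lift2_smooth (AF_smooth h.smooth_b h.smooth_f h.b_pos)).mono TorD_sub
  sW := (lift2_smooth (wF_smooth h.smooth_b h.smooth_f h.b_pos)).mono TorD_sub
  pk2 y hy := h.b_pos _ hy.1
  pk3 y hy := by
    have h1 := S0_cos_pos (TorD_sub hy)
    have h2 := NF_pos (f := f) h.b_pos (TorD_sub hy)
    have h3 := h.b_pos _ hy.1
    have h4 := h.f_pos _ hy.1
    exact div_pos (mul_pos (mul_pos h3 h4) h1) (sqrt_pos.2 h2)
  pW y hy := by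
    have h2 := NF_pos (f := f) h.b_pos (TorD_sub hy)
    have h5 : 0 < sin (y 1) := sin_pos_of_pos_of_lt_pi hy.2.1 (by have := hy.2.2; linarith [pi_pos])
    exact mul_pos h5 (sqrt_pos.2 h2)
  k2_2 y hy := pd2_lift2 S0_open (k2F_smooth h.smooth_b) (TorD_sub hy)
  k2_3 y hy := pd3_lift2 S0_open (k2F_smooth h.smooth_b) (TorD_sub hy)
  k3_2 y hy := pd2_lift2 S0_open (k3F_smooth h.smooth_b h.smooth_f h.b_pos) (TorD_sub hy)
  k3_3 y hy := pd3_lift2 S0_open (k3F_smooth h.smooth_b h.smooth_f h.b_pos) (TorD_sub hy)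
  A_2 y hy := pd2_lift2 S0_open (AF_smooth h.smooth_b h.smooth_f h.b_pos) (TorD_sub hy)
  A_3 y hy := pd3_lift2 S0_open (AF_smooth h.smooth_b h.smooth_f h.b_pos) (TorD_sub hy)
  W_3 y hy := pd3_lift2 S0_open (wF_smooth h.smooth_b h.smooth_f h.b_pos) (TorD_sub hy)

/-- `(t, ξ, φ2, φ1) ↦ (t, ξ, φ1 - φ2, φ2)` -/
def LamL : EE 4 →ₗ[ℝ] EE 4 where
  toFun y := !₂[y 0, y 1, y 3 - y 2, y 2]
  map_add' x y := by
    ext i
    fin_cases i <;> simp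
    ring
  map_smul' c x := by
    ext i
    fin_cases i <;> simp
    ring

def LamC : EE 4 →L[ℝ] EE 4 := LinearMap.toContinuousLinearMap LamL

theorem LamC_0 (y : EE 4) : LamC y 0 = y 0 := rfl
theorem LamC_1 (y : EE 4) : LamC y 1 = y 1 := rfl
theorem LamC_2 (y : EE 4) : LamC y 2 = y 3 - y 2 := rfl
theorem LamC_3 (y : EE 4) : LamC y 3 = y 2 := rfl

theorem core_quad_id {B F s c N r v2 v3 : ℝ} (hN : N = B ^ 2 * c ^ 2 + F ^ 2 * s ^ 2) (hN0 : 0 < N)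
    (hr : r ^ 2 = N) (hr0 : 0 < r) (hsc : s ^ 2 + c ^ 2 = 1) :
    (B * F * c / r * v2) ^ 2 + (s * r * (v3 + -(B ^ 2 - F ^ 2) * c ^ 2 / N * v2)) ^ 2
      = (B * (s * c) * (v3 - v2)) ^ 2 + (F * (v2 + s ^ 2 * (v3 - v2))) ^ 2 := by
  have e1 : (B * F * c / r * v2) ^ 2 = B ^ 2 * F ^ 2 * c ^ 2 * v2 ^ 2 / N := by
    rw [← hr]; field_simp
  have e2 : (s * r * (v3 + -(B ^ 2 - F ^ 2) * c ^ 2 / N * v2)) ^ 2
      = s ^ 2 * (N * v3 - (B ^ 2 - F ^ 2) * c ^ 2 * v2) ^ 2 / N := by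
    have : (s * r * (v3 + -(B ^ 2 - F ^ 2) * c ^ 2 / N * v2)) ^ 2
        = s ^ 2 * r ^ 2 * (v3 + -(B ^ 2 - F ^ 2) * c ^ 2 / N * v2) ^ 2 := by ring
    rw [this, hr]
    field_simp
    ring
  rw [e1, e2, ← add_div, div_eq_iff hN0.ne']
  have hc : c ^ 2 = 1 - s ^ 2 := by linarith
  have hN' : N = B ^ 2 * (1 - s ^ 2) + F ^ 2 * s ^ 2 := by rw [hN, hc]
  have e3 : (B * (s * c) * (v3 - v2)) ^ 2 = B ^ 2 * s ^ 2 * c ^ 2 * (v3 - v2) ^ 2 := by ring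
  rw [e3, hc, hN']
  ring

theorem coreGF_locIso {b f : ℝ → ℝ} {ta T t1 : ℝ} (h : IsCore b f ta T t1) :
    RLocIso (UU b f) (UDom (Ioi 0)) (GF (lift2 (k2F b)) (lift2 (k3F b f)) (lift2 (AF b f)) (lift2 (wF b f)))
      TorD LamC where
  hg := isRMetricOn_UU ⟨isOpen_Ioi, h.smooth_b.contDiffOn, h.smooth_f.contDiffOn, h.b_pos, h.f_pos⟩
  hg' := isRMetricOn_GF (coreGF_data h)
  smooth := LamC.contDiff.contDiffOn
  maps := fun y hy => ⟨hy.1, hy.2.1, hy.2.2⟩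
  iso := by
    intro y hy v
    rw [ContinuousLinearMap.fderiv, gquad_GF, gquad_UU, LamC_0, LamC_1, LamC_0, LamC_1, LamC_2, LamC_3]
    have h2 : 0 < NF b f (y 0) (y 1) := NF_pos (f := f) h.b_pos (TorD_sub hy)
    have key := core_quad_id (B := b (y 0)) (F := f (y 0)) (s := sin (y 1)) (c := cos (y 1))
      (N := NF b f (y 0) (y 1)) (r := √(NF b f (y 0) (y 1))) (v2 := v 2) (v3 := v 3)
      rfl h2 (sq_sqrt h2.le) (sqrt_pos.2 h2) (sin_sq_add_cos_sq _)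
    simp only [lift2, k2F, k3F, AF, wF]
    linarith

theorem coreGF_ric {b f : ℝ → ℝ} {ta T t1 : ℝ} (h : IsCore b f ta T t1) :
    RicGE (GF (lift2 (k2F b)) (lift2 (k3F b f)) (lift2 (AF b f)) (lift2 (wF b f))) TorD 0 :=
  (coreGF_locIso h).ricGE_pull
    (ricGE_UU ⟨isOpen_Ioi, h.smooth_b.contDiffOn, h.smooth_f.contDiffOn, h.b_pos, h.f_pos⟩
      h.ric0 h.ric1 h.ric3)

end Pool.Agent.MP39e402.RR
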