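import Pool.Agent.Lib.MP_39e402_gt.R.GF

/-! Part R4c: changing the warping function `w` into `2 Ψ(w)` near `w = 0`. -/

open Set Filter Topology
open scoped ContDiff BigOperators

set_option linter.unusedSimpArgs false

noncomputable section

namespace Pool.Agent.MP39e402.RR

variable {k2 k3 A w : EE 4 → ℝ} {V : Set (EE 4)} {Ψ : ℝ → ℝ}

theorem GFData.comp (h : GFData k2 k3 A w V) (hΨ : ContDiff ℝ ∞ Ψ) (hpos : ∀ t > 0, 0 < Ψ t) :
    GFData k2 k3 A (fun x => 2 * Ψ (w x)) V :=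
  { h with
    sW := contDiffOn_const.mul (hΨ.comp_contDiffOn h.sW)
    pW := fun x hx => mul_pos two_pos (hpos _ (h.pW x hx))
    W_3 := fun x hx => by
      have hw := differentiableAt_of_smooth h.isOpen h.sW hx
      have hd : DifferentiableAt ℝ (fun y => Ψ (w y)) x :=
        DifferentiableAt.comp (f := w) (g := Ψ) x (hΨ.differentiable (by simp) _) hw
      rw [pd_const_mul 3 2 hd, pd_comp_real 3 (hΨ.differentiable (by simp) _) hw, h.W_3 x hx]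
      ring }

/-- the 2-jet of `2 Ψ(w)` -/
theorem gfJet_comp (h : GFData k2 k3 A w V) (hΨ : ContDiff ℝ ∞ Ψ) {x : EE 4} (hx : x ∈ V) :
    gfJet k2 k3 A (fun x => 2 * Ψ (w x)) x =
      { gfJet k2 k3 A w x with
        w := 2 * Ψ (w x)
        w0 := 2 * deriv Ψ (w x) * pd 0 w x
        w1 := 2 * deriv Ψ (w x) * pd 1 w x
        w2 := 2 * deriv Ψ (w x) * pd 2 w x
        w00 := 2 * (deriv (deriv Ψ) (w x) * pd 0 w x * pd 0 w x + deriv Ψ (w x) * pd 0 (pd 0 w) x)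
        w01 := 2 * (deriv (deriv Ψ) (w x) * pd 0 w x * pd 1 w x + deriv Ψ (w x) * pd 0 (pd 1 w) x)
        w02 := 2 * (deriv (deriv Ψ) (w x) * pd 0 w x * pd 2 w x + deriv Ψ (w x) * pd 0 (pd 2 w) x)
        w11 := 2 * (deriv (deriv Ψ) (w x) * pd 1 w x * pd 1 w x + deriv Ψ (w x) * pd 1 (pd 1 w) x)
        w12 := 2 * (deriv (deriv Ψ) (w x) * pd 1 w x * pd 2 w x + deriv Ψ (w x) * pd 1 (pd 2 w) x)
        w22 := 2 * (deriv (deriv Ψ) (w x) * pd 2 w x * pd 2 w x + deriv Ψ (w x) * pd 2 (pd 2 w) x) } := by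
  have hV := h.isOpen
  have hd : ∀ y ∈ V, DifferentiableAt ℝ (fun y => Ψ (w y)) y := fun y hy =>
    DifferentiableAt.comp (f := w) (g := Ψ) y (hΨ.differentiable (by simp) _)
      (differentiableAt_of_smooth hV h.sW hy)
  have hs : ContDiffOn ℝ ∞ (fun y => Ψ (w y)) V := hΨ.comp_contDiffOn h.sW
  have g1 : ∀ m, ∀ y ∈ V, pd m (fun y => 2 * Ψ (w y)) y = 2 * (deriv Ψ (w y) * pd m w y) := by
    intro m y hy
    rw [pd_const_mul m 2 (hd y hy), pd_comp_real m (hΨ.differentiable (by simp) _)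
      (differentiableAt_of_smooth hV h.sW hy)]
  have g2 : ∀ m i, pd m (pd i (fun y => 2 * Ψ (w y))) x
      = 2 * (deriv (deriv Ψ) (w x) * pd m w x * pd i w x + deriv Ψ (w x) * pd m (pd i w) x) := by
    intro m i
    have e : EqOn (pd i (fun y => 2 * Ψ (w y))) (fun y => 2 * pd i (fun y => Ψ (w y)) y) V := by
      intro y hy; exact pd_const_mul i 2 (hd y hy)
    rw [pd_congr_of_eqOn m hV hx e, pd_const_mul m 2 (differentiableAt_pd i hV hs hx),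
      pdpd_comp_real m i hV hΨ h.sW hx]
  simp only [gfJet, g1 _ x hx, g2, mul_assoc]

/-- The bounds needed in the edge lemma. -/
structure EdgeBd (J : GFJet) (C : ℝ) : Prop where
  h00 : |J.hw00| ≤ C * J.w
  h01 : |J.hw01| ≤ C * J.w
  h11 : |J.hw11| ≤ C * J.w
  h22 : |J.hw22| ≤ C * J.w
  f02 : |J.F02| ≤ C
  f12 : |J.F12| ≤ C
  g0 : |J.w0| ≤ C
  g1 : |J.w1 / J.a| ≤ C
  fg : |J.w0 * J.F02 + J.w1 / J.a * J.F12| ≤ C * J.w
  dv : |J.divF| ≤ C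

/-- the jet of `2 Ψ(w)`; `p, p', p''` are the values of `Ψ, Ψ', Ψ''` at `w` -/
def GFJet.mod (J : GFJet) (p p' p'' : ℝ) : GFJet := { J with
        w := 2 * p
        w0 := 2 * p' * J.w0
        w1 := 2 * p' * J.w1
        w2 := 0
        w00 := 2 * (p'' * J.w0 * J.w0 + p' * J.w00)
        w01 := 2 * (p'' * J.w0 * J.w1 + p' * J.w01)
        w02 := 0
        w11 := 2 * (p'' * J.w1 * J.w1 + p' * J.w11)
        w12 := 0
        w22 := 0 }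

theorem edge_id (J : GFJet) {p p' p'' : ℝ} (ha : J.a ≠ 0) (hb : J.b ≠ 0) (hw : J.w ≠ 0) (hp : p ≠ 0)
    (h2 : J.w2 = 0) (h02 : J.w02 = 0) (h12 : J.w12 = 0) (h22 : J.w22 = 0) (c0 c1 c2 c3 : ℝ) :
    (J.mod p p' p'').ric c0 c1 c2 c3 = J.ric c0 c1 c2 c3
      + (1 / J.w - p' / p) * (J.hw00 * c0 ^ 2 + 2 * J.hw01 * (c0 * c1) + J.hw11 * c1 ^ 2
          + J.hw22 * c2 ^ 2 + (J.hw00 + J.hw11 + J.hw22) * c3 ^ 2)
      - p'' / p * ((J.w0 * c0 + J.w1 / J.a * c1) ^ 2 + (J.w0 ^ 2 + (J.w1 / J.a) ^ 2) * c3 ^ 2)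
      - (2 * p ^ 2 - J.w ^ 2 / 2) * ((J.F02 * c0 + J.F12 * c1) ^ 2
          + (J.F02 ^ 2 + J.F12 ^ 2) * (c2 ^ 2 - c3 ^ 2))
      - (3 * (2 * p' - 1) * (J.w0 * J.F02 + J.w1 / J.a * J.F12) + (2 * p - J.w) * J.divF) * (c2 * c3) := by
  obtain ⟨a, b, A, w, a0, a1, b0, b1, A0, A1, w0, w1, w2, a00, a01, a11, b00, b01, b11, A00, A01, A11, w00, w01, w02, w11, w12, w22⟩ := J
  simp only at h2 h02 h12 h22 ha hb hw
  subst h2 h02 h12 h22
  simp only [GFJet.mod, GFJet.ric, GFJet.R00, GFJet.R01, GFJet.R02, GFJet.R03, GFJet.R11, GFJet.R12,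
    GFJet.R13, GFJet.R22, GFJet.R23, GFJet.R33, GFJet.K, GFJet.divF, GFJet.hb00, GFJet.hb01, GFJet.hb11,
    GFJet.hw00, GFJet.hw01, GFJet.hw02, GFJet.hw11, GFJet.hw12, GFJet.hw22, GFJet.F02, GFJet.F12]
  field_simp
  ring

theorem cs_two (a b x y : ℝ) : (a * x + b * y) ^ 2 ≤ (a ^ 2 + b ^ 2) * (x ^ 2 + y ^ 2) := by
  nlinarith [sq_nonneg (a * y - b * x)]

theorem abs_mul_le_half (x y : ℝ) : |x * y| ≤ (x ^ 2 + y ^ 2) / 2 := by
  rw [abs_le]; constructor <;> nlinarith [sq_nonneg (x + y), sq_nonneg (x - y)]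

/-- purely algebraic form of the edge lemma -/
theorem edge_alg (J : GFJet) {C ε δ p p' p'' : ℝ} (ha : 0 < J.a) (hb : 0 < J.b) (hw : 0 < J.w)
    (h2 : J.w2 = 0) (h02 : J.w02 = 0) (h12 : J.w12 = 0) (h22 : J.w22 = 0)
    (hC : 0 ≤ C) (hε0 : 0 ≤ ε) (hε1 : ε ≤ 1) (hδ0 : 0 ≤ δ) (hδ1 : δ ≤ 1)
    (hbd : EdgeBd J C)
    (p1 : J.w / 2 ≤ p) (p2 : p ≤ J.w) (p3 : (1 - ε) * p ≤ J.w * p') (p4 : J.w * p' ≤ p)
    (p5 : p'' ≤ ε * p) (p6 : δ < J.w → p = J.w / 2 ∧ p' = 1 / 2 ∧ p'' = 0) (c0 c1 c2 c3 : ℝ) :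
    J.ric c0 c1 c2 c3 - 5 * (C + C ^ 2) * (ε + δ) * (c0 ^ 2 + c1 ^ 2 + c2 ^ 2 + c3 ^ 2)
      ≤ (J.mod p p' p'').ric c0 c1 c2 c3 := by
  have hp : 0 < p := by linarith
  rw [edge_id J ha.ne' hb.ne' hw.ne' hp.ne' h2 h02 h12 h22]
  rcases lt_or_ge δ J.w with hcase | hcase
  · obtain ⟨q1, q2, q3⟩ := p6 hcase
    have e1 : 1 / J.w - p' / p = 0 := by rw [q1, q2]; field_simp; ring
    have e2 : p'' / p = 0 := by rw [q3]; simp
    have e3 : 2 * p ^ 2 - J.w ^ 2 / 2 = 0 := by rw [q1]; ring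
    have e4 : 2 * p' - 1 = 0 := by rw [q2]; ring
    have e5 : 2 * p - J.w = 0 := by rw [q1]; ring
    rw [e1, e2, e3, e4, e5]
    have : 0 ≤ 5 * (C + C ^ 2) * (ε + δ) * (c0 ^ 2 + c1 ^ 2 + c2 ^ 2 + c3 ^ 2) := by positivity
    linarith
  · obtain ⟨b00, b01, b11, b22, f02, f12, g0, g1, fg, dv⟩ := hbd
    set ν := 1 / J.w - p' / p with hν
    set μ := p'' / p with hμ
    set κ := 2 * p ^ 2 - J.w ^ 2 / 2 with hκ
    set G := J.w0 * J.F02 + J.w1 / J.a * J.F12 with hG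
    have hν0 : 0 ≤ ν := by
      rw [hν, sub_nonneg, div_le_div_iff₀ hp hw]; linarith
    have hν1 : ν * J.w ≤ ε := by
      have : ν * J.w = 1 - J.w * p' / p := by rw [hν]; field_simp
      rw [this]
      have : (1 - ε) ≤ J.w * p' / p := by rw [le_div_iff₀ hp]; exact p3
      linarith
    have hμ1 : μ ≤ ε := by rw [hμ, div_le_iff₀ hp]; exact p5
    have hκ0 : 0 ≤ κ := by
      have h1 := mul_self_le_mul_self (by positivity : 0 ≤ J.w / 2) p1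
      have h2 : J.w / 2 * (J.w / 2) = J.w ^ 2 / 4 := by ring
      have h3 : p * p = p ^ 2 := by ring
      rw [h2, h3] at h1
      rw [hκ]; linarith
    have hκ1 : κ ≤ 3 / 2 * δ := by
      have h1 : p ^ 2 ≤ J.w ^ 2 := pow_le_pow_left₀ hp.le p2 2
      have h3 : J.w * J.w ≤ δ * 1 := mul_le_mul hcase (hcase.trans hδ1) hw.le hδ0
      have h4 : J.w * J.w = J.w ^ 2 := by ring
      rw [h4] at h3
      rw [hκ]; linarith
    have hp'0 : 0 ≤ p' := by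
      have : 0 ≤ J.w * p' := le_trans (mul_nonneg (by linarith) hp.le) p3
      exact nonneg_of_mul_nonneg_right this hw
    have hp'1 : p' ≤ 1 := by
      have : J.w * p' ≤ J.w * 1 := by linarith
      exact le_of_mul_le_mul_left this hw
    -- bounds of `ν * hw`
    have nb : ∀ X : ℝ, |X| ≤ C * J.w → |ν * X| ≤ ε * C := by
      intro X hX
      rw [abs_mul, abs_of_nonneg hν0]
      calc ν * |X| ≤ ν * (C * J.w) := mul_le_mul_of_nonneg_left hX hν0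
        _ = C * (ν * J.w) := by ring
        _ ≤ C * ε := mul_le_mul_of_nonneg_left hν1 hC
        _ = ε * C := by ring
    have n00 := abs_le.1 (nb _ b00)
    have n01 := abs_le.1 (nb _ b01)
    have n11 := abs_le.1 (nb _ b11)
    have n22 := abs_le.1 (nb _ b22)
    have hεC : 0 ≤ ε * C := mul_nonneg hε0 hC
    have T1 : -(ε * C * (2 * c0 ^ 2 + 2 * c1 ^ 2 + c2 ^ 2 + 3 * c3 ^ 2)) ≤
        ν * (J.hw00 * c0 ^ 2 + 2 * J.hw01 * (c0 * c1) + J.hw11 * c1 ^ 2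
          + J.hw22 * c2 ^ 2 + (J.hw00 + J.hw11 + J.hw22) * c3 ^ 2) := by
      have e01 : -(ε * C * (c0 ^ 2 + c1 ^ 2)) ≤ 2 * (ν * J.hw01) * (c0 * c1) := by
        have h1 : |2 * (ν * J.hw01) * (c0 * c1)| ≤ ε * C * (c0 ^ 2 + c1 ^ 2) := by
          rw [abs_mul, abs_mul]
          have h2 : |c0 * c1| ≤ (c0 ^ 2 + c1 ^ 2) / 2 := abs_mul_le_half _ _
          have h3 : |ν * J.hw01| ≤ ε * C := nb _ b01
          have h4 : |(2 : ℝ)| = 2 := abs_of_pos two_pos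
          rw [h4]
          calc 2 * |ν * J.hw01| * |c0 * c1| ≤ 2 * (ε * C) * ((c0 ^ 2 + c1 ^ 2) / 2) :=
                mul_le_mul (by linarith) h2 (abs_nonneg _) (by positivity)
            _ = _ := by ring
        exact (abs_le.1 h1).1
      have e00 := mul_le_mul_of_nonneg_right n00.1 (sq_nonneg c0)
      have e11 := mul_le_mul_of_nonneg_right n11.1 (sq_nonneg c1)
      have e22 := mul_le_mul_of_nonneg_right n22.1 (sq_nonneg c2)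
      have e3 : -(3 * (ε * C)) * c3 ^ 2 ≤ (ν * J.hw00 + ν * J.hw11 + ν * J.hw22) * c3 ^ 2 :=
        mul_le_mul_of_nonneg_right (by linarith [n00.1, n11.1, n22.1]) (sq_nonneg c3)
      linarith
    have sqb : ∀ X : ℝ, |X| ≤ C → X ^ 2 ≤ C ^ 2 := by
      intro X hX
      rw [← sq_abs]; exact pow_le_pow_left₀ (abs_nonneg _) hX 2
    have T2 : -(2 * ε * C ^ 2 * (c0 ^ 2 + c1 ^ 2 + c3 ^ 2)) ≤
        -(μ * ((J.w0 * c0 + J.w1 / J.a * c1) ^ 2 + (J.w0 ^ 2 + (J.w1 / J.a) ^ 2) * c3 ^ 2)) := by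
      have s0 := sqb _ g0
      have s1 := sqb _ g1
      have q1 : (J.w0 * c0 + J.w1 / J.a * c1) ^ 2 ≤ 2 * C ^ 2 * (c0 ^ 2 + c1 ^ 2) := by
        have h1 : (J.w0 * c0 + J.w1 / J.a * c1) ^ 2
            ≤ (J.w0 ^ 2 + (J.w1 / J.a) ^ 2) * (c0 ^ 2 + c1 ^ 2) := cs_two _ _ _ _
        refine h1.trans (mul_le_mul_of_nonneg_right (by linarith) (by positivity))
      have q2 : (J.w0 ^ 2 + (J.w1 / J.a) ^ 2) * c3 ^ 2 ≤ 2 * C ^ 2 * c3 ^ 2 :=
        mul_le_mul_of_nonneg_right (by linarith) (sq_nonneg _)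
      have q0 : 0 ≤ (J.w0 * c0 + J.w1 / J.a * c1) ^ 2 + (J.w0 ^ 2 + (J.w1 / J.a) ^ 2) * c3 ^ 2 := by
        positivity
      have q3 := mul_le_mul_of_nonneg_right hμ1 q0
      have q4 : ε * ((J.w0 * c0 + J.w1 / J.a * c1) ^ 2 + (J.w0 ^ 2 + (J.w1 / J.a) ^ 2) * c3 ^ 2)
          ≤ ε * (2 * C ^ 2 * (c0 ^ 2 + c1 ^ 2) + 2 * C ^ 2 * c3 ^ 2) :=
        mul_le_mul_of_nonneg_left (by linarith) hε0
      linarith
    have T3 : -(3 * δ * C ^ 2 * (c0 ^ 2 + c1 ^ 2 + c2 ^ 2)) ≤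
        -(κ * ((J.F02 * c0 + J.F12 * c1) ^ 2 + (J.F02 ^ 2 + J.F12 ^ 2) * (c2 ^ 2 - c3 ^ 2))) := by
      have s0 := sqb _ f02
      have s1 := sqb _ f12
      have q1 : (J.F02 * c0 + J.F12 * c1) ^ 2 ≤ 2 * C ^ 2 * (c0 ^ 2 + c1 ^ 2) := by
        have h1 : (J.F02 * c0 + J.F12 * c1) ^ 2
            ≤ (J.F02 ^ 2 + J.F12 ^ 2) * (c0 ^ 2 + c1 ^ 2) := cs_two _ _ _ _
        refine h1.trans (mul_le_mul_of_nonneg_right (by linarith) (by positivity))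
      have q2 : (J.F02 ^ 2 + J.F12 ^ 2) * (c2 ^ 2 - c3 ^ 2) ≤ 2 * C ^ 2 * c2 ^ 2 := by
        have h1 : (J.F02 ^ 2 + J.F12 ^ 2) * c2 ^ 2 ≤ 2 * C ^ 2 * c2 ^ 2 :=
          mul_le_mul_of_nonneg_right (by linarith) (sq_nonneg _)
        have h2 : 0 ≤ (J.F02 ^ 2 + J.F12 ^ 2) * c3 ^ 2 := by positivity
        linarith
      have q3 : (J.F02 * c0 + J.F12 * c1) ^ 2 + (J.F02 ^ 2 + J.F12 ^ 2) * (c2 ^ 2 - c3 ^ 2)
          ≤ 2 * C ^ 2 * (c0 ^ 2 + c1 ^ 2 + c2 ^ 2) := by linarith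
      have q4 := mul_le_mul_of_nonneg_left q3 hκ0
      have q5 : κ * (2 * C ^ 2 * (c0 ^ 2 + c1 ^ 2 + c2 ^ 2))
          ≤ 3 / 2 * δ * (2 * C ^ 2 * (c0 ^ 2 + c1 ^ 2 + c2 ^ 2)) :=
        mul_le_mul_of_nonneg_right hκ1 (by positivity)
      linarith
    have T4 : -(2 * C * δ * (c2 ^ 2 + c3 ^ 2)) ≤
        -((3 * (2 * p' - 1) * G + (2 * p - J.w) * J.divF) * (c2 * c3)) := by
      have a1 : |3 * (2 * p' - 1) * G| ≤ 3 * (C * δ) := by
        rw [abs_mul, abs_mul]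
        have h1 : |2 * p' - 1| ≤ 1 := by rw [abs_le]; constructor <;> linarith
        have h2 : |G| ≤ C * δ := fg.trans (mul_le_mul_of_nonneg_left hcase hC)
        have h3 : |(3 : ℝ)| = 3 := abs_of_pos (by norm_num)
        rw [h3]
        calc 3 * |2 * p' - 1| * |G| ≤ 3 * 1 * (C * δ) :=
              mul_le_mul (by linarith) h2 (abs_nonneg _) (by norm_num)
          _ = _ := by ring
      have a2 : |(2 * p - J.w) * J.divF| ≤ C * δ := by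
        rw [abs_mul]
        have h1 : |2 * p - J.w| ≤ δ := by rw [abs_le]; constructor <;> linarith
        calc |2 * p - J.w| * |J.divF| ≤ δ * C := mul_le_mul h1 dv (abs_nonneg _) hδ0
          _ = _ := by ring
      have a3 : |3 * (2 * p' - 1) * G + (2 * p - J.w) * J.divF| ≤ 4 * (C * δ) :=
        (abs_add_le _ _).trans (by linarith)
      have a4 : |(3 * (2 * p' - 1) * G + (2 * p - J.w) * J.divF) * (c2 * c3)|
          ≤ 2 * C * δ * (c2 ^ 2 + c3 ^ 2) := by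
        rw [abs_mul]
        have h2 : |c2 * c3| ≤ (c2 ^ 2 + c3 ^ 2) / 2 := abs_mul_le_half _ _
        calc _ ≤ 4 * (C * δ) * ((c2 ^ 2 + c3 ^ 2) / 2) :=
              mul_le_mul a3 h2 (abs_nonneg _) (by positivity)
          _ = _ := by ring
      have := (abs_le.1 a4).2
      linarith
    have r0 : 0 ≤ ε * C * (c0 ^ 2 + c1 ^ 2 + c2 ^ 2 + c3 ^ 2) := by positivity
    have z0 := sq_nonneg c0
    have z1 := sq_nonneg c1
    have z2 := sq_nonneg c2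
    have z3 := sq_nonneg c3
    have u1 : 0 ≤ ε * C * c0 ^ 2 := by positivity
    have u2 : 0 ≤ ε * C * c1 ^ 2 := by positivity
    have u3 : 0 ≤ ε * C * c2 ^ 2 := by positivity
    have u4 : 0 ≤ ε * C * c3 ^ 2 := by positivity
    have v1 : 0 ≤ δ * C * c0 ^ 2 := by positivity
    have v2 : 0 ≤ δ * C * c1 ^ 2 := by positivity
    have v3 : 0 ≤ δ * C * c2 ^ 2 := by positivity
    have v4 : 0 ≤ δ * C * c3 ^ 2 := by positivity
    have x1 : 0 ≤ ε * C ^ 2 * c0 ^ 2 := by positivity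
    have x2 : 0 ≤ ε * C ^ 2 * c1 ^ 2 := by positivity
    have x3 : 0 ≤ ε * C ^ 2 * c2 ^ 2 := by positivity
    have x4 : 0 ≤ ε * C ^ 2 * c3 ^ 2 := by positivity
    have y1 : 0 ≤ δ * C ^ 2 * c0 ^ 2 := by positivity
    have y2 : 0 ≤ δ * C ^ 2 * c1 ^ 2 := by positivity
    have y3 : 0 ≤ δ * C ^ 2 * c2 ^ 2 := by positivity
    have y4 : 0 ≤ δ * C ^ 2 * c3 ^ 2 := by positivity
    linarith

/-- R4c: the edge lemma. -/
theorem ricGE_edge (h : GFData k2 k3 A w V) (h2 : ∀ x ∈ V, pd 2 w x = 0) (hΨ : ContDiff ℝ ∞ Ψ)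
    {C ε δ κ : ℝ} (hC : 0 ≤ C) (hε0 : 0 ≤ ε) (hε1 : ε ≤ 1) (hδ0 : 0 ≤ δ) (hδ1 : δ ≤ 1)
    (p1 : ∀ t > 0, t / 2 ≤ Ψ t) (p2 : ∀ t > 0, Ψ t ≤ t) (p3 : ∀ t > 0, (1 - ε) * Ψ t ≤ t * deriv Ψ t)
    (p4 : ∀ t > 0, t * deriv Ψ t ≤ Ψ t) (p5 : ∀ t > 0, deriv (deriv Ψ) t ≤ ε * Ψ t)
    (p6 : ∀ t > δ, Ψ t = t / 2)
    (hbd : ∀ x ∈ V, EdgeBd (gfJet k2 k3 A w x) C) (hRic : RicGE (GF k2 k3 A w) V (-κ)) :
    RicGE (GF k2 k3 A (fun x => 2 * Ψ (w x))) V (-(κ + 5 * (C + C ^ 2) * (ε + δ))) := by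
  have hpos : ∀ t > 0, 0 < Ψ t := fun t ht => lt_of_lt_of_le (by positivity) (p1 t ht)
  have h' := h.comp hΨ hpos
  have hV := h.isOpen
  refine ricGE_GF h' fun x hx c0 c1 c2 c3 => ?_
  have hw := h.pW x hx
  have hk2 := h.pk2 x hx
  have hk3 := h.pk3 x hx
  -- vanishing jets
  have z : ∀ m, pd m (pd 2 w) x = 0 := by
    intro m
    rw [pd_congr_of_eqOn (g := fun _ => (0 : ℝ)) m hV hx (fun y hy => h2 y hy), pd_const]
  have z2 := h2 x hx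
  have hJ : gfJet k2 k3 A (fun x => 2 * Ψ (w x)) x
      = (gfJet k2 k3 A w x).mod (Ψ (w x)) (deriv Ψ (w x)) (deriv (deriv Ψ) (w x)) := by
    rw [gfJet_comp h hΨ hx, GFJet.mod]
    simp only [gfJet, z, z2, mul_zero, add_zero]
  rw [hJ]
  have p6' : δ < (gfJet k2 k3 A w x).w → Ψ (w x) = (gfJet k2 k3 A w x).w / 2 ∧ deriv Ψ (w x) = 1 / 2
      ∧ deriv (deriv Ψ) (w x) = 0 := by
    intro hlt
    have hlt' : δ < w x := hlt
    have e1 : Ψ =ᶠ[𝓝 (w x)] fun t => t / 2 := by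
      filter_upwards [Ioi_mem_nhds hlt'] with t ht using p6 t ht
    have e2 : deriv Ψ =ᶠ[𝓝 (w x)] fun _ => 1 / 2 := by
      filter_upwards [Ioi_mem_nhds hlt'] with t ht
      have e3 : Ψ =ᶠ[𝓝 t] fun t => t / 2 := by
        filter_upwards [Ioi_mem_nhds ht] with u hu using p6 u hu
      rw [e3.deriv_eq]; simp
    refine ⟨p6 _ hlt', e2.self_of_nhds, ?_⟩
    rw [e2.deriv_eq]; simp
  have key := edge_alg (gfJet k2 k3 A w x) (p := Ψ (w x)) (p' := deriv Ψ (w x))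
    (p'' := deriv (deriv Ψ) (w x)) hk2 hk3 hw z2 (z 0) (z 1) (z 2) hC hε0 hε1 hδ0 hδ1 (hbd x hx)
    (p1 _ hw) (p2 _ hw) (p3 _ hw) (p4 _ hw) (p5 _ hw) p6' c0 c1 c2 c3
  have hR : -κ * (c0 ^ 2 + c1 ^ 2 + c2 ^ 2 + c3 ^ 2) ≤ (gfJet k2 k3 A w x).ric c0 c1 c2 c3 := by
    have h3 := hRic x hx (!₂[c0, c1 / k2 x, c2 / k3 x, c3 / w x - A x * (c2 / k3 x)])
    rw [ricquad_GF h hx, gquad_GF] at h3
    have e1 : k2 x * (c1 / k2 x) = c1 := by field_simp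
    have e2 : k3 x * (c2 / k3 x) = c2 := by field_simp
    have e3 : w x * (c3 / w x - A x * (c2 / k3 x) + A x * (c2 / k3 x)) = c3 := by
      rw [sub_add_cancel]; field_simp
    simp only [PiLp.toLp_apply, Matrix.cons_val_zero, Matrix.cons_val_one, Matrix.cons_val] at h3
    rw [e1, e2, e3] at h3
    exact h3
  linarith

end Pool.Agent.MP39e402.RR
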