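import Pool.Agent.Lib.MP_39e402_gt.R.Edge
import Pool.Agent.Lib.MP_39e402_gt.R.CoreGF

/-! # MP_39e402, module RC-EdgeBound: the bounds of the edge lemma on a compact part of the core (near `ξ = 0`).

Only smoothness, parity and compactness.  `K = [t0,t2] × [0, π/6] ⊆ S0` is compact.  All the functions `k2F, k3F, AF, wF`
are smooth on the open set `S0` and `D1, D2` of smooth functions are smooth (`D1_smooth`, `D2_smooth`, R/TypeILem),
hence continuous, hence bounded on `K`.  `lift2` lemmas (`pd0_lift2, pd1_lift2, pd2_lift2, pd00_lift2, pd01_lift2,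
pd11_lift2`) turn the entries of `gfJet` into `D`-derivatives.  `EdgeBd` (R/Edge): `f02, f12, g0, g1, dv` are bounds of
continuous functions on `K` (denominators `b`, `k3F` are positive on `K`).  `h00, h01, h11, h22, fg` need a factor `w`:
* Lemma A: if `G` is smooth on `S0` and `G t 0 = 0` for all `t > 0`, then `∃ C, |G t ξ| ≤ C ξ` on `K` (bound of `D2 G` on `K`
  and the mean value inequality in `ξ`), hence `≤ C' wF` because `wF = sin ξ √N ≥ (ξ/2) √(min N)` on `K`.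
* apply it to `G = D11 w`, `D12 w/b - b' D2 w/b²`, `D22 w/b² + b' D1 w/b`, `D1 k3 D1 w/k3 + D2 k3 D2 w/(b² k3)`,
  `D1 w D1 A/k3 + D2 w D2 A/(b² k3)`.  Values at `ξ = 0`: `wF t 0 = 0` for all `t`, so `D1 w = D11 w = 0` there; `wF` is odd in
  `ξ`, `k3F, AF, √NF` are even in `ξ`, so `D2 k3 = D2 A = 0` and `D22 w = 0` at `ξ = 0`; `D2 w t 0 = √NF t 0 = b t`, so
  `D12 w t 0 = deriv b t` and `D12 w/b - b' D2 w/b² = 0` at `ξ = 0`. -/

open Real Set Filter Topology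
open scoped ContDiff

noncomputable section

namespace Pool.Agent.MP39e402.RR

/-- smoothness on `S0` -/
def SmS (F : ℝ → ℝ → ℝ) : Prop := ContDiffOn ℝ ∞ (fun p : ℝ × ℝ => F p.1 p.2) S0

theorem SmS.add {F G : ℝ → ℝ → ℝ} (hF : SmS F) (hG : SmS G) : SmS (fun t x => F t x + G t x) :=
  ContDiffOn.add hF hG

theorem SmS.sub {F G : ℝ → ℝ → ℝ} (hF : SmS F) (hG : SmS G) : SmS (fun t x => F t x - G t x) :=
  ContDiffOn.sub hF hG

theorem SmS.mul {F G : ℝ → ℝ → ℝ} (hF : SmS F) (hG : SmS G) : SmS (fun t x => F t x * G t x) :=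
  ContDiffOn.mul hF hG

theorem SmS.pow {F : ℝ → ℝ → ℝ} (hF : SmS F) (n : ℕ) : SmS (fun t x => F t x ^ n) :=
  ContDiffOn.pow hF n

theorem SmS.div {F G : ℝ → ℝ → ℝ} (hF : SmS F) (hG : SmS G) (h0 : ∀ p ∈ S0, 0 < G p.1 p.2) :
    SmS (fun t x => F t x / G t x) :=
  ContDiffOn.div hF hG fun p hp => (h0 p hp).ne'

theorem SmS.d1 {F : ℝ → ℝ → ℝ} (hF : SmS F) : SmS (D1 F) := D1_smooth S0_open hF
theorem SmS.d2 {F : ℝ → ℝ → ℝ} (hF : SmS F) : SmS (D2 F) := D2_smooth S0_open hF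

theorem rect_sub {t0 t2 : ℝ} (h0 : 0 < t0) : Icc t0 t2 ×ˢ Icc (0 : ℝ) (π / 6) ⊆ S0 := by
  rintro ⟨t, x⟩ ⟨h1, h2⟩
  have hp := pi_pos
  exact ⟨lt_of_lt_of_le h0 h1.1, by have := h2.1; change -(π / 2) < x; simp only at this; linarith,
    by have := h2.2; change x < π / 2; simp only at this; linarith⟩

theorem SmS.bdd {F : ℝ → ℝ → ℝ} (hF : SmS F) {t0 t2 : ℝ} (h0 : 0 < t0) :
    ∃ C : ℝ, 0 ≤ C ∧ ∀ t x, t0 ≤ t → t ≤ t2 → 0 ≤ x → x ≤ π / 6 → |F t x| ≤ C := by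
  have hK : IsCompact (Icc t0 t2 ×ˢ Icc (0 : ℝ) (π / 6)) := isCompact_Icc.prod isCompact_Icc
  obtain ⟨C, hC⟩ := hK.exists_bound_of_continuousOn (hF.continuousOn.mono (rect_sub h0))
  refine ⟨max C 0, le_max_right _ _, fun t x h1 h2 h3 h4 => ?_⟩
  exact (hC (t, x) ⟨⟨h1, h2⟩, ⟨h3, h4⟩⟩).trans (le_max_left _ _)

theorem SmS.lin {G : ℝ → ℝ → ℝ} (hG : SmS G) {t0 t2 : ℝ} (h0 : 0 < t0)
    (hz : ∀ t, 0 < t → G t 0 = 0) :
    ∃ C : ℝ, 0 ≤ C ∧ ∀ t x, t0 ≤ t → t ≤ t2 → 0 ≤ x → x ≤ π / 6 → |G t x| ≤ C * x := by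
  obtain ⟨C, hC0, hC⟩ := hG.d2.bdd (t2 := t2) h0
  refine ⟨C, hC0, fun t x h1 h2 h3 h4 => ?_⟩
  have hd : ∀ r ∈ Icc (0 : ℝ) (π / 6), HasDerivWithinAt (fun r => G t r) (D2 G t r) (Icc 0 (π / 6)) r := by
    intro r hr
    have hp : (t, r) ∈ S0 := rect_sub h0 ⟨⟨h1, h2⟩, hr⟩
    have := hasDerivAt_D2 S0_open hG hp
    have e : D2 G t r = fderiv ℝ (fun p : ℝ × ℝ => G p.1 p.2) (t, r) (0, 1) := this.deriv
    rw [e]
    exact this.hasDerivWithinAt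
  have h5 := (convex_Icc (0 : ℝ) (π / 6)).norm_image_sub_le_of_norm_hasDerivWithin_le (x := 0) (y := x) hd
    (fun r hr => hC t r h1 h2 hr.1 hr.2) ⟨le_rfl, by positivity⟩ ⟨h3, h4⟩
  rw [hz t (lt_of_lt_of_le h0 h1), sub_zero, sub_zero] at h5
  simpa [abs_of_nonneg h3] using h5

theorem deriv_even_zero {h : ℝ → ℝ} (he : ∀ x, h (-x) = h x) : deriv h 0 = 0 := by
  have h1 : (fun x => h (-x)) = h := funext he
  have h2 := deriv_comp_neg h 0
  rw [h1, neg_zero] at h2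
  linarith

theorem deriv_odd_even {h : ℝ → ℝ} (ho : ∀ x, h (-x) = -h x) (x : ℝ) : deriv h (-x) = deriv h x := by
  have h1 : (fun x => h (-x)) = fun x => -h x := funext ho
  have h2 := deriv_comp_neg h x
  rw [h1, deriv.fun_neg] at h2
  linarith

section
variable {b f : ℝ → ℝ}

theorem wF_zero (t : ℝ) : wF b f t 0 = 0 := by simp [wF]

theorem D1w_zero (t : ℝ) : D1 (wF b f) t 0 = 0 := by
  unfold D1
  have : (fun r => wF b f r 0) = fun _ => 0 := funext wF_zero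
  rw [this, deriv_const]

theorem D11w_zero (t : ℝ) : D11 (wF b f) t 0 = 0 := by
  unfold D11
  change deriv (fun r => D1 (wF b f) r 0) t = 0
  have : (fun r => D1 (wF b f) r 0) = fun _ => 0 := funext D1w_zero
  rw [this, deriv_const]

theorem NF_even (t x : ℝ) : NF b f t (-x) = NF b f t x := by simp [NF]

theorem wF_odd (t x : ℝ) : wF b f t (-x) = -wF b f t x := by simp [wF, NF_even]

theorem D22w_zero (t : ℝ) : D22 (wF b f) t 0 = 0 := by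
  change deriv (fun r => deriv (fun s => wF b f t s) r) 0 = 0
  exact deriv_even_zero fun x => deriv_odd_even (fun y => wF_odd t y) x

theorem D2k3_zero (t : ℝ) : D2 (k3F b f) t 0 = 0 := by
  change deriv (fun s => k3F b f t s) 0 = 0
  exact deriv_even_zero fun x => by simp [k3F, NF_even]

theorem D2A_zero (t : ℝ) : D2 (AF b f) t 0 = 0 := by
  change deriv (fun s => AF b f t s) 0 = 0
  exact deriv_even_zero fun x => by simp [AF, NF_even]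

theorem zero_mem_S0 {t : ℝ} (ht : 0 < t) : (t, (0 : ℝ)) ∈ S0 :=
  ⟨ht, by have := pi_pos; change -(π / 2) < 0; linarith, by have := pi_pos; change 0 < π / 2; linarith⟩

theorem D2w_zero (sb : ContDiff ℝ ∞ b) (sf : ContDiff ℝ ∞ f) (pb : ∀ t, 0 < t → 0 < b t) {t : ℝ}
    (ht : 0 < t) : D2 (wF b f) t 0 = b t := by
  have h1 := hasDerivAt_D2 (F := fun t x => √(NF b f t x)) S0_open (sqrtNF_smooth sb sf pb) (zero_mem_S0 ht)
  have h2 := (hasDerivAt_sin (0 : ℝ)).mul h1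
  change deriv (fun r => sin r * √(NF b f t r)) 0 = b t
  have h3 : deriv (fun r => sin r * √(NF b f t r)) 0 = _ := h2.deriv
  rw [h3]
  simp [NF, sqrt_sq (pb t ht).le]

theorem D12w_zero (sb : ContDiff ℝ ∞ b) (sf : ContDiff ℝ ∞ f) (pb : ∀ t, 0 < t → 0 < b t) {t : ℝ}
    (ht : 0 < t) : D12 (wF b f) t 0 = deriv b t := by
  change deriv (fun r => D2 (wF b f) r 0) t = deriv b t
  have : (fun r => D2 (wF b f) r 0) =ᶠ[𝓝 t] b := by
    filter_upwards [Ioi_mem_nhds ht] with r hr using D2w_zero sb sf pb hr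
  exact this.deriv_eq

theorem D1k2 (t x : ℝ) : D1 (k2F b) t x = deriv b t := rfl

theorem D2k2 (t x : ℝ) : D2 (k2F b) t x = 0 := by
  change deriv (fun _ : ℝ => b t) x = 0
  exact deriv_const _ _

theorem k3F_pos (pb : ∀ t, 0 < t → 0 < b t) (pf : ∀ t, 0 < t → 0 < f t) {p : ℝ × ℝ} (hp : p ∈ S0) :
    0 < k3F b f p.1 p.2 :=
  div_pos (mul_pos (mul_pos (pb _ hp.1) (pf _ hp.1)) (S0_cos_pos hp)) (sqrt_pos.2 (NF_pos pb hp))

/-- Lemma A -/
theorem SmS.linw {G : ℝ → ℝ → ℝ} (hG : SmS G) (sb : ContDiff ℝ ∞ b) (sf : ContDiff ℝ ∞ f)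
    (pb : ∀ t, 0 < t → 0 < b t) {t0 t2 : ℝ} (h0 : 0 < t0) (hz : ∀ t, 0 < t → G t 0 = 0) :
    ∃ C : ℝ, 0 ≤ C ∧ ∀ t x, t0 ≤ t → t ≤ t2 → 0 ≤ x → x ≤ π / 6 → |G t x| ≤ C * wF b f t x := by
  have hs : SmS (fun t x => √(NF b f t x)) := sqrtNF_smooth sb sf pb
  have hp : ∀ p ∈ S0, 0 < √(NF b f p.1 p.2) := fun p hp => sqrt_pos.2 (NF_pos pb hp)
  obtain ⟨C, hC0, hC⟩ := (hG.div hs hp).lin (t2 := t2) h0 (fun t ht => by simp [hz t ht])
  refine ⟨C * (π / 2), by positivity, fun t x h1 h2 h3 h4 => ?_⟩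
  have h5 := hC t x h1 h2 h3 h4
  have h6 : 0 < √(NF b f t x) := hp (t, x) (rect_sub h0 ⟨⟨h1, h2⟩, ⟨h3, h4⟩⟩)
  rw [abs_div, abs_of_pos h6, div_le_iff₀ h6] at h5
  have h7 : 2 / π * x ≤ sin x := mul_le_sin h3 (by have := pi_pos; linarith)
  have h8 : x ≤ π / 2 * sin x := by
    have := mul_le_mul_of_nonneg_left h7 (by positivity : 0 ≤ π / 2)
    have e : π / 2 * (2 / π * x) = x := by field_simp
    linarith
  calc |G t x| ≤ C * x * √(NF b f t x) := h5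
    _ ≤ C * (π / 2 * sin x) * √(NF b f t x) := by gcongr
    _ = C * (π / 2) * wF b f t x := by unfold wF; ring

end

theorem edge_bd {b f : ℝ → ℝ} (sb : ContDiff ℝ ∞ b) (sf : ContDiff ℝ ∞ f)
    (pb : ∀ t, 0 < t → 0 < b t) (pf : ∀ t, 0 < t → 0 < f t) {t0 t2 : ℝ} (h0 : 0 < t0) :
    ∃ C : ℝ, 0 ≤ C ∧ ∀ y : EE 4, t0 ≤ y 0 → y 0 ≤ t2 → 0 < y 1 → y 1 ≤ π / 6 →
      EdgeBd (gfJet (lift2 (k2F b)) (lift2 (k3F b f)) (lift2 (AF b f)) (lift2 (wF b f)) y) C := by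
  have s2 : SmS (k2F b) := k2F_smooth sb
  have s3 : SmS (k3F b f) := k3F_smooth sb sf pb
  have sA : SmS (AF b f) := AF_smooth sb sf pb
  have sw : SmS (wF b f) := wF_smooth sb sf pb
  have p2 : ∀ p ∈ S0, 0 < k2F b p.1 p.2 := fun p hp => pb _ hp.1
  have p3 : ∀ p ∈ S0, 0 < k3F b f p.1 p.2 := fun p hp => k3F_pos pb pf hp
  have p22 : ∀ p ∈ S0, 0 < k2F b p.1 p.2 ^ 2 := fun p hp => pow_pos (p2 p hp) 2
  have p23 : ∀ p ∈ S0, 0 < k2F b p.1 p.2 ^ 3 := fun p hp => pow_pos (p2 p hp) 3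
  have p33 : ∀ p ∈ S0, 0 < k3F b f p.1 p.2 ^ 2 := fun p hp => pow_pos (p3 p hp) 2
  have pm : ∀ p ∈ S0, 0 < k2F b p.1 p.2 * k3F b f p.1 p.2 := fun p hp => mul_pos (p2 p hp) (p3 p hp)
  have pm2 : ∀ p ∈ S0, 0 < k2F b p.1 p.2 ^ 2 * k3F b f p.1 p.2 := fun p hp => mul_pos (p22 p hp) (p3 p hp)
  have pm3 : ∀ p ∈ S0, 0 < k2F b p.1 p.2 ^ 3 * k3F b f p.1 p.2 := fun p hp => mul_pos (p23 p hp) (p3 p hp)
  have pm22 : ∀ p ∈ S0, 0 < k2F b p.1 p.2 ^ 2 * k3F b f p.1 p.2 ^ 2 :=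
    fun p hp => mul_pos (p22 p hp) (p33 p hp)
  obtain ⟨C1, c1, H1⟩ := (sw.d1.d1).linw sb sf pb (t2 := t2) h0 (fun t _ => D11w_zero t)
  obtain ⟨C2, c2, H2⟩ := ((sw.d2.d1.div s2 p2).sub ((s2.d1.mul sw.d2).div (s2.pow 2) p22)).linw sb sf pb
    (t2 := t2) h0 (fun t ht => by
      have e1 : D1 (D2 (wF b f)) t 0 = deriv b t := D12w_zero sb sf pb ht
      have hb := (pb t ht).ne'
      simp only [e1, D2w_zero sb sf pb ht, D1k2, k2F]
      field_simp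
      ring)
  obtain ⟨C3, c3, H3⟩ := (((sw.d2.d2.div (s2.pow 2) p22).sub ((s2.d2.mul sw.d2).div (s2.pow 3) p23)).add
    ((s2.d1.mul sw.d1).div s2 p2)).linw sb sf pb (t2 := t2) h0 (fun t ht => by
      have e1 : D2 (D2 (wF b f)) t 0 = 0 := D22w_zero t
      simp [e1, D2k2, D1w_zero])
  obtain ⟨C4, c4, H4⟩ := (((s3.d1.mul sw.d1).div s3 p3).add ((s3.d2.mul sw.d2).div
    ((s2.pow 2).mul s3) pm2)).linw sb sf pb (t2 := t2) h0 (fun t ht => by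
      simp [D2k3_zero, D1w_zero])
  obtain ⟨C5, c5, H5⟩ := (sA.d1.div s3 p3).bdd (t2 := t2) h0
  obtain ⟨C6, c6, H6⟩ := (sA.d2.div (s2.mul s3) pm).bdd (t2 := t2) h0
  obtain ⟨C7, c7, H7⟩ := sw.d1.bdd (t2 := t2) h0
  obtain ⟨C8, c8, H8⟩ := (sw.d2.div s2 p2).bdd (t2 := t2) h0
  obtain ⟨C9, c9, H9⟩ := ((sw.d1.mul (sA.d1.div s3 p3)).add ((sw.d2.div s2 p2).mul
    (sA.d2.div (s2.mul s3) pm))).linw sb sf pb (t2 := t2) h0 (fun t ht => by
      simp [D2A_zero, D1w_zero])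
  obtain ⟨C10, c10, H10⟩ := ((((((sA.d1.d1.div s3 p3).add ((s2.d1.mul sA.d1).div (s2.mul s3) pm)).sub
    ((s3.d1.mul sA.d1).div (s3.pow 2) p33)).add (sA.d2.d2.div ((s2.pow 2).mul s3) pm2)).sub
    ((s2.d2.mul sA.d2).div ((s2.pow 3).mul s3) pm3)).sub
    ((s3.d2.mul sA.d2).div ((s2.pow 2).mul (s3.pow 2)) pm22)).bdd (t2 := t2) h0
  refine ⟨C1 + C2 + C3 + C4 + C5 + C6 + C7 + C8 + C9 + C10, by positivity, fun y hy0 hy2 hy1 hy6 => ?_⟩
  have hy : y ∈ lset S0 := rect_sub h0 ⟨⟨hy0, hy2⟩, ⟨hy1.le, hy6⟩⟩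
  have hw : 0 < wF b f (y 0) (y 1) :=
    mul_pos (sin_pos_of_pos_of_lt_pi hy1 (by have := pi_pos; linarith)) (sqrt_pos.2 (NF_pos pb hy))
  have g1 := H1 _ _ hy0 hy2 hy1.le hy6
  have g2 := H2 _ _ hy0 hy2 hy1.le hy6
  have g3 := H3 _ _ hy0 hy2 hy1.le hy6
  have g4 := H4 _ _ hy0 hy2 hy1.le hy6
  have g5 := H5 _ _ hy0 hy2 hy1.le hy6
  have g6 := H6 _ _ hy0 hy2 hy1.le hy6
  have g7 := H7 _ _ hy0 hy2 hy1.le hy6
  have g8 := H8 _ _ hy0 hy2 hy1.le hy6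
  have g9 := H9 _ _ hy0 hy2 hy1.le hy6
  have g10 := H10 _ _ hy0 hy2 hy1.le hy6
  have z22 : pd 2 (pd 2 (lift2 (wF b f))) y = 0 := by
    rw [pd_congr_of_eqOn (g := fun _ => (0 : ℝ)) 2 (isOpen_lset S0_open) hy
      (fun z hz => pd2_lift2 S0_open sw hz), pd_const]
  have wmul : ∀ {C : ℝ}, C ≤ C1 + C2 + C3 + C4 + C5 + C6 + C7 + C8 + C9 + C10 →
      C * wF b f (y 0) (y 1) ≤ (C1 + C2 + C3 + C4 + C5 + C6 + C7 + C8 + C9 + C10) * wF b f (y 0) (y 1) :=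
    fun h => mul_le_mul_of_nonneg_right h hw.le
  have a0 := pd0_lift2 S0_open s2 hy
  have a1 := pd1_lift2 S0_open s2 hy
  have b0 := pd0_lift2 S0_open s3 hy
  have b1 := pd1_lift2 S0_open s3 hy
  have A0 := pd0_lift2 S0_open sA hy
  have A1 := pd1_lift2 S0_open sA hy
  have A00 := pd00_lift2 S0_open sA hy
  have A11 := pd11_lift2 S0_open sA hy
  have w0 := pd0_lift2 S0_open sw hy
  have w1 := pd1_lift2 S0_open sw hy
  have w00 := pd00_lift2 S0_open sw hy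
  have w01 := pd01_lift2 S0_open sw hy
  have w11 := pd11_lift2 S0_open sw hy
  constructor
  · refine le_trans ?_ (wmul (C := C1) (by linarith))
    simpa only [GFJet.hw00, gfJet, w00, lift2, D11] using g1
  · refine le_trans ?_ (wmul (C := C2) (by linarith))
    simpa only [GFJet.hw01, gfJet, w01, a0, w1, lift2, D12] using g2
  · refine le_trans ?_ (wmul (C := C3) (by linarith))
    simpa only [GFJet.hw11, gfJet, w11, a0, a1, w0, w1, lift2, D22] using g3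
  · refine le_trans ?_ (wmul (C := C4) (by linarith))
    simpa only [GFJet.hw22, gfJet, z22, b0, b1, w0, w1, lift2, zero_div, zero_add] using g4
  · refine le_trans ?_ (show C5 ≤ _ by linarith)
    simpa only [GFJet.F02, gfJet, A0, lift2] using g5
  · refine le_trans ?_ (show C6 ≤ _ by linarith)
    simpa only [GFJet.F12, gfJet, A1, lift2] using g6
  · refine le_trans ?_ (show C7 ≤ _ by linarith)
    simpa only [gfJet, w0, lift2] using g7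
  · refine le_trans ?_ (show C8 ≤ _ by linarith)
    simpa only [gfJet, w1, lift2] using g8
  · refine le_trans ?_ (wmul (C := C9) (by linarith))
    simpa only [GFJet.F02, GFJet.F12, gfJet, w0, w1, A0, A1, lift2] using g9
  · refine le_trans ?_ (show C10 ≤ _ by linarith)
    simpa only [GFJet.divF, gfJet, A0, A1, A00, A11, a0, a1, b0, b1, lift2, D11, D22] using g10

end Pool.Agent.MP39e402.RR
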