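import Pool.Agent.Lib.MP_39e402_gt.R.GFAlg

/-! Part R4: the general family
`g = dx0² + k2² dx1² + k3² dx2² + W² (dx3 + A dx2)²` with `k2, k3, A` functions of `(x0,x1)` and `W` a
function of `(x0,x1,x2)`. -/

open Set Filter Topology
open scoped ContDiff BigOperators

set_option linter.unusedSimpArgs false

noncomputable section

namespace Pool.Agent.MP39e402.RR

/-- `dx0² + k2² dx1² + k3² dx2² + W² (dx3 + A dx2)²` -/
def GF (k2 k3 A W : EE 4 → ℝ) : RMetric 4 := fun x =>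
  !![1, 0, 0, 0; 0, k2 x * k2 x, 0, 0;
     0, 0, k3 x * k3 x + (W x * A x) * (W x * A x), W x * (W x * A x);
     0, 0, W x * (W x * A x), W x * W x]

structure GFData (k2 k3 A W : EE 4 → ℝ) (V : Set (EE 4)) : Prop where
  isOpen : IsOpen V
  sk2 : ContDiffOn ℝ ∞ k2 V
  sk3 : ContDiffOn ℝ ∞ k3 V
  sA : ContDiffOn ℝ ∞ A V
  sW : ContDiffOn ℝ ∞ W V
  pk2 : ∀ x ∈ V, 0 < k2 x
  pk3 : ∀ x ∈ V, 0 < k3 x
  pW : ∀ x ∈ V, 0 < W x
  k2_2 : ∀ x ∈ V, pd 2 k2 x = 0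
  k2_3 : ∀ x ∈ V, pd 3 k2 x = 0
  k3_2 : ∀ x ∈ V, pd 2 k3 x = 0
  k3_3 : ∀ x ∈ V, pd 3 k3 x = 0
  A_2 : ∀ x ∈ V, pd 2 A x = 0
  A_3 : ∀ x ∈ V, pd 3 A x = 0
  W_3 : ∀ x ∈ V, pd 3 W x = 0

/-- the 2-jets at `x` -/
def gfJet (k2 k3 A W : EE 4 → ℝ) (x : EE 4) : GFJet where
  a := k2 x
  b := k3 x
  A := A x
  w := W x
  a0 := pd 0 k2 x
  a1 := pd 1 k2 x
  b0 := pd 0 k3 x
  b1 := pd 1 k3 x
  A0 := pd 0 A x
  A1 := pd 1 A x
  w0 := pd 0 W x
  w1 := pd 1 W x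
  w2 := pd 2 W x
  a00 := pd 0 (pd 0 k2) x
  a01 := pd 0 (pd 1 k2) x
  a11 := pd 1 (pd 1 k2) x
  b00 := pd 0 (pd 0 k3) x
  b01 := pd 0 (pd 1 k3) x
  b11 := pd 1 (pd 1 k3) x
  A00 := pd 0 (pd 0 A) x
  A01 := pd 0 (pd 1 A) x
  A11 := pd 1 (pd 1 A) x
  w00 := pd 0 (pd 0 W) x
  w01 := pd 0 (pd 1 W) x
  w02 := pd 0 (pd 2 W) x
  w11 := pd 1 (pd 1 W) x
  w12 := pd 1 (pd 2 W) x
  w22 := pd 2 (pd 2 W) x

theorem pdpd_const {n : ℕ} (m i : Fin n) (c : ℝ) (x : EE n) : pd m (pd i (fun _ => c)) x = 0 := by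
  have : pd i (fun _ : EE n => c) = fun _ => 0 := by funext y; exact pd_const i c y
  rw [this, pd_const]

theorem gquad_GF (k2 k3 A W : EE 4 → ℝ) (x v : EE 4) :
    gquad (GF k2 k3 A W) x v = v 0 ^ 2 + (k2 x * v 1) ^ 2 + (k3 x * v 2) ^ 2
      + (W x * (v 3 + A x * v 2)) ^ 2 := by
  simp [gquad, GF, Fin.sum_univ_four]
  ring

variable {k2 k3 A W : EE 4 → ℝ} {V : Set (EE 4)}

theorem isRMetricOn_GF (h : GFData k2 k3 A W V) : IsRMetricOn (GF k2 k3 A W) V where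
  isOpen := h.isOpen
  smooth i j := by
    have hWA := h.sW.mul h.sA
    fin_cases i <;> fin_cases j <;> simp [GF] <;>
    first
    | exact contDiffOn_const
    | exact h.sk2.mul h.sk2
    | exact (h.sk3.mul h.sk3).add (hWA.mul hWA)
    | exact h.sW.mul hWA
    | exact h.sW.mul h.sW
  posDef x hx := by
    have h2 := h.pk2 x hx
    have h3 := h.pk3 x hx
    have hW := h.pW x hx
    refine Matrix.PosDef.of_dotProduct_mulVec_pos ?_ ?_
    · ext i j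
      fin_cases i <;> fin_cases j <;> simp [GF]
    · intro v hv
      have e : star v ⬝ᵥ (GF k2 k3 A W x).mulVec v = v 0 ^ 2 + (k2 x * v 1) ^ 2 + (k3 x * v 2) ^ 2
          + (W x * (v 3 + A x * v 2)) ^ 2 := by
        simp [GF, dotProduct, Matrix.mulVec, Fin.sum_univ_four]
        ring
      rw [e]
      by_contra hcon
      have q0 := sq_nonneg (v 0)
      have q1 := sq_nonneg (k2 x * v 1)
      have q2 := sq_nonneg (k3 x * v 2)
      have q3 := sq_nonneg (W x * (v 3 + A x * v 2))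
      have z0 : v 0 = 0 := by
        have : v 0 ^ 2 = 0 := by linarith
        exact pow_eq_zero_iff (two_ne_zero) |>.1 this
      have z1 : v 1 = 0 := by
        have : (k2 x * v 1) ^ 2 = 0 := by linarith
        have := (pow_eq_zero_iff (two_ne_zero)).1 this
        exact (mul_eq_zero.1 this).resolve_left h2.ne'
      have z2 : v 2 = 0 := by
        have : (k3 x * v 2) ^ 2 = 0 := by linarith
        have := (pow_eq_zero_iff (two_ne_zero)).1 this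
        exact (mul_eq_zero.1 this).resolve_left h3.ne'
      have z3 : v 3 = 0 := by
        have : (W x * (v 3 + A x * v 2)) ^ 2 = 0 := by linarith
        have := (pow_eq_zero_iff (two_ne_zero)).1 this
        have := (mul_eq_zero.1 this).resolve_left hW.ne'
        rw [z2] at this; linarith
      apply hv
      ext i
      fin_cases i <;> simp [z0, z1, z2, z3]

theorem inv_GF (h : GFData k2 k3 A W V) {x : EE 4} (hx : x ∈ V) :
    (GF k2 k3 A W x)⁻¹ = gfG (k2 x) (k3 x) (A x) (W x) := by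
  have h2 := (h.pk2 x hx).ne'
  have h3 := (h.pk3 x hx).ne'
  have hW := (h.pW x hx).ne'
  apply Matrix.inv_eq_right_inv
  ext i j
  fin_cases i <;> fin_cases j <;> simp [GF, gfG, Matrix.mul_apply, Fin.sum_univ_four] <;>
    field_simp <;> ring

theorem jetD_GF (h : GFData k2 k3 A W V) {x : EE 4} (hx : x ∈ V) :
    jetD (GF k2 k3 A W) x = gfD (k2 x) (k3 x) (A x) (W x) (fun m => pd m k2 x) (fun m => pd m k3 x)
      (fun m => pd m A x) (fun m => pd m W x) := by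
  have d2 := differentiableAt_of_smooth h.isOpen h.sk2 hx
  have d3 := differentiableAt_of_smooth h.isOpen h.sk3 hx
  have dA := differentiableAt_of_smooth h.isOpen h.sA hx
  have dW := differentiableAt_of_smooth h.isOpen h.sW hx
  have dWA : DifferentiableAt ℝ (fun y => W y * A y) x := dW.mul dA
  have d33 : DifferentiableAt ℝ (fun y => k3 y * k3 y) x := d3.mul d3
  have dWAWA : DifferentiableAt ℝ (fun y => (W y * A y) * (W y * A y)) x := dWA.mul dWA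
  funext m a b
  fin_cases a <;> fin_cases b <;> simp [jetD, GF, gfD] <;>
    first
    | done
    | (rw [pd_mul m d2 d2]; ring)
    | (rw [pd_add m d33 dWAWA, pd_mul m d3 d3, pd_mul m dWA dWA, pd_mul m dW dA]; ring)
    | (rw [pd_mul m dW dWA, pd_mul m dW dA]; ring)
    | (rw [pd_mul m dW dW]; ring)

theorem jetH_GF (h : GFData k2 k3 A W V) {x : EE 4} (hx : x ∈ V) :
    jetH (GF k2 k3 A W) x = gfH (k2 x) (k3 x) (A x) (W x) (fun m => pd m k2 x) (fun m => pd m k3 x)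
      (fun m => pd m A x) (fun m => pd m W x) (fun m i => pd m (pd i k2) x) (fun m i => pd m (pd i k3) x)
      (fun m i => pd m (pd i A) x) (fun m i => pd m (pd i W) x) := by
  have hV := h.isOpen
  have dW := differentiableAt_of_smooth h.isOpen h.sW hx
  have dA := differentiableAt_of_smooth h.isOpen h.sA hx
  have sWA : ContDiffOn ℝ ∞ (fun y => W y * A y) V := h.sW.mul h.sA
  have s33 : ContDiffOn ℝ ∞ (fun y => k3 y * k3 y) V := h.sk3.mul h.sk3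
  have sWAWA : ContDiffOn ℝ ∞ (fun y => (W y * A y) * (W y * A y)) V := sWA.mul sWA
  funext m i a b
  fin_cases a <;> fin_cases b <;> simp [jetH, GF, gfH, pdpd_const] <;>
    first
    | done
    | (rw [pdpd_mul m i hV h.sk2 h.sk2 hx]; ring)
    | (rw [pdpd_add m i hV s33 sWAWA hx, pdpd_mul m i hV h.sk3 h.sk3 hx, pdpd_mul m i hV sWA sWA hx,
        pdpd_mul m i hV h.sW h.sA hx, pd_mul m dW dA, pd_mul i dW dA]; ring)
    | (rw [pdpd_mul m i hV h.sW sWA hx, pdpd_mul m i hV h.sW h.sA hx, pd_mul m dW dA, pd_mul i dW dA]; ring)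
    | (rw [pdpd_mul m i hV h.sW h.sW hx]; ring)

theorem ricci_GF (h : GFData k2 k3 A W V) {x : EE 4} (hx : x ∈ V) (i j : Fin 4) :
    ricci (GF k2 k3 A W) i j x = (gfJet k2 k3 A W x).rJ i j := by
  have hV := h.isOpen
  rw [ricci_eq_ricJ (isRMetricOn_GF h) hx, inv_GF h hx, jetD_GF h hx, jetH_GF h hx, GFJet.rJ]
  -- vanishing derivatives
  have z : ∀ (f : EE 4 → ℝ) (i : Fin 4), ContDiffOn ℝ ∞ f V → (∀ y ∈ V, pd i f y = 0) →
      (∀ m, pd m (pd i f) x = 0) ∧ ∀ m, pd i (pd m f) x = 0 := by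
    intro f i hf hi
    have h1 : ∀ m, pd m (pd i f) x = 0 := by
      intro m
      rw [pd_congr_of_eqOn (g := fun _ => (0 : ℝ)) m hV hx (fun y hy => hi y hy), pd_const]
    exact ⟨h1, fun m => by rw [pd_comm i m hV hf hx]; exact h1 m⟩
  obtain ⟨a1, a2⟩ := z k2 2 h.sk2 h.k2_2
  obtain ⟨a3, a4⟩ := z k2 3 h.sk2 h.k2_3
  obtain ⟨b1, b2⟩ := z k3 2 h.sk3 h.k3_2
  obtain ⟨b3, b4⟩ := z k3 3 h.sk3 h.k3_3
  obtain ⟨c1, c2⟩ := z A 2 h.sA h.A_2
  obtain ⟨c3, c4⟩ := z A 3 h.sA h.A_3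
  obtain ⟨d1, d2⟩ := z W 3 h.sW h.W_3
  have e1 : (fun m => pd m k2 x) = ![pd 0 k2 x, pd 1 k2 x, 0, 0] := by
    funext m; fin_cases m <;> simp [h.k2_2 x hx, h.k2_3 x hx]
  have e2 : (fun m => pd m k3 x) = ![pd 0 k3 x, pd 1 k3 x, 0, 0] := by
    funext m; fin_cases m <;> simp [h.k3_2 x hx, h.k3_3 x hx]
  have e3 : (fun m => pd m A x) = ![pd 0 A x, pd 1 A x, 0, 0] := by
    funext m; fin_cases m <;> simp [h.A_2 x hx, h.A_3 x hx]
  have e4 : (fun m => pd m W x) = ![pd 0 W x, pd 1 W x, pd 2 W x, 0] := by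
    funext m; fin_cases m <;> simp [h.W_3 x hx]
  have e5 : (fun m i => pd m (pd i k2) x) = !![pd 0 (pd 0 k2) x, pd 0 (pd 1 k2) x, 0, 0;
      pd 0 (pd 1 k2) x, pd 1 (pd 1 k2) x, 0, 0; 0, 0, 0, 0; 0, 0, 0, 0] := by
    funext m i; fin_cases m <;> fin_cases i <;> simp [a1, a2, a3, a4, pd_comm 1 0 hV h.sk2 hx]
  have e6 : (fun m i => pd m (pd i k3) x) = !![pd 0 (pd 0 k3) x, pd 0 (pd 1 k3) x, 0, 0;
      pd 0 (pd 1 k3) x, pd 1 (pd 1 k3) x, 0, 0; 0, 0, 0, 0; 0, 0, 0, 0] := by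
    funext m i; fin_cases m <;> fin_cases i <;> simp [b1, b2, b3, b4, pd_comm 1 0 hV h.sk3 hx]
  have e7 : (fun m i => pd m (pd i A) x) = !![pd 0 (pd 0 A) x, pd 0 (pd 1 A) x, 0, 0;
      pd 0 (pd 1 A) x, pd 1 (pd 1 A) x, 0, 0; 0, 0, 0, 0; 0, 0, 0, 0] := by
    funext m i; fin_cases m <;> fin_cases i <;> simp [c1, c2, c3, c4, pd_comm 1 0 hV h.sA hx]
  have e8 : (fun m i => pd m (pd i W) x) = !![pd 0 (pd 0 W) x, pd 0 (pd 1 W) x, pd 0 (pd 2 W) x, 0;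
      pd 0 (pd 1 W) x, pd 1 (pd 1 W) x, pd 1 (pd 2 W) x, 0;
      pd 0 (pd 2 W) x, pd 1 (pd 2 W) x, pd 2 (pd 2 W) x, 0; 0, 0, 0, 0] := by
    funext m i; fin_cases m <;> fin_cases i <;>
      simp [d1, d2, pd_comm 1 0 hV h.sW hx, pd_comm 2 0 hV h.sW hx, pd_comm 2 1 hV h.sW hx]
  rw [e1, e2, e3, e4, e5, e6, e7, e8]
  rfl

/-- R4: the Ricci form of `GF`. -/
theorem ricquad_GF (h : GFData k2 k3 A W V) {x : EE 4} (hx : x ∈ V) (v : EE 4) :
    ricquad (GF k2 k3 A W) x v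
      = (gfJet k2 k3 A W x).ric (v 0) (k2 x * v 1) (k3 x * v 2) (W x * (v 3 + A x * v 2)) := by
  have h2 : (gfJet k2 k3 A W x).a ≠ 0 := (h.pk2 x hx).ne'
  have h3 : (gfJet k2 k3 A W x).b ≠ 0 := (h.pk3 x hx).ne'
  have hW : (gfJet k2 k3 A W x).w ≠ 0 := (h.pW x hx).ne'
  simp only [ricquad, ricci_GF h hx, Fin.sum_univ_four]
  rw [GFJet.rJ00 h2 h3 hW, GFJet.rJ01 h2 h3 hW, GFJet.rJ02 h2 h3 hW, GFJet.rJ03 h2 h3 hW,
    GFJet.rJ10 h2 h3 hW, GFJet.rJ11 h2 h3 hW, GFJet.rJ12 h2 h3 hW, GFJet.rJ13 h2 h3 hW,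
    GFJet.rJ20 h2 h3 hW, GFJet.rJ21 h2 h3 hW, GFJet.rJ22 h2 h3 hW, GFJet.rJ23 h2 h3 hW,
    GFJet.rJ30 h2 h3 hW, GFJet.rJ31 h2 h3 hW, GFJet.rJ32 h2 h3 hW, GFJet.rJ33 h2 h3 hW]
  have e1 : (gfJet k2 k3 A W x).a = k2 x := rfl
  have e2 : (gfJet k2 k3 A W x).b = k3 x := rfl
  have e3 : (gfJet k2 k3 A W x).w = W x := rfl
  have e4 : (gfJet k2 k3 A W x).A = A x := rfl
  rw [e1, e2, e3, e4, GFJet.ric]
  ring

/-- criterion for `Ric ≥ κ` of `GF` -/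
theorem ricGE_GF (h : GFData k2 k3 A W V) {κ : ℝ}
    (H : ∀ x ∈ V, ∀ c0 c1 c2 c3 : ℝ, κ * (c0 ^ 2 + c1 ^ 2 + c2 ^ 2 + c3 ^ 2)
      ≤ (gfJet k2 k3 A W x).ric c0 c1 c2 c3) : RicGE (GF k2 k3 A W) V κ := by
  intro x hx v
  rw [ricquad_GF h hx, gquad_GF]
  exact H x hx _ _ _ _

end Pool.Agent.MP39e402.RR
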