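import Pool.Agent.Lib.MP_39e402_gt.R.Jet

/-! Part R4, algebra: the Ricci tensor of
`dx0² + a² dx1² + b² dx2² + w² (dx3 + A dx2)²`, `a, b, A` functions of `(x0,x1)`, `w` of `(x0,x1,x2)`,
in terms of the 2-jets of `a, b, A, w`. -/

open Set Filter Topology
open scoped ContDiff BigOperators

set_option linter.unusedSimpArgs false

noncomputable section

namespace Pool.Agent.MP39e402.RR

/-- inverse matrix of the metric `GF` -/
def gfG (a b A w : ℝ) : Matrix (Fin 4) (Fin 4) ℝ :=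
  !![1, 0, 0, 0; 0, 1 / a ^ 2, 0, 0; 0, 0, 1 / b ^ 2, -A / b ^ 2; 0, 0, -A / b ^ 2, 1 / w ^ 2 + A ^ 2 / b ^ 2]

/-- first derivatives of the metric `GF` -/
def gfD (a b A w : ℝ) (a' b' A' w' : Fin 4 → ℝ) (m : Fin 4) : Fin 4 → Fin 4 → ℝ :=
  !![0, 0, 0, 0; 0, 2 * a * a' m, 0, 0;
     0, 0, 2 * b * b' m + 2 * w * w' m * A ^ 2 + 2 * w ^ 2 * A * A' m, 2 * w * w' m * A + w ^ 2 * A' m;
     0, 0, 2 * w * w' m * A + w ^ 2 * A' m, 2 * w * w' m]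

/-- second derivatives of the metric `GF` -/
def gfH (a b A w : ℝ) (a' b' A' w' : Fin 4 → ℝ) (a'' b'' A'' w'' : Fin 4 → Fin 4 → ℝ) (m i : Fin 4) :
    Fin 4 → Fin 4 → ℝ :=
  !![0, 0, 0, 0; 0, 2 * (a' m * a' i + a * a'' m i), 0, 0;
     0, 0, 2 * (b' m * b' i + b * b'' m i) + 2 * (w' m * w' i + w * w'' m i) * A ^ 2
        + 4 * w * w' i * A * A' m + 4 * w * w' m * A * A' i + 2 * w ^ 2 * (A' m * A' i + A * A'' m i),
        2 * (w' m * w' i + w * w'' m i) * A + 2 * w * w' i * A' m + 2 * w * w' m * A' i + w ^ 2 * A'' m i;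
     0, 0, 2 * (w' m * w' i + w * w'' m i) * A + 2 * w * w' i * A' m + 2 * w * w' m * A' i + w ^ 2 * A'' m i,
       2 * (w' m * w' i + w * w'' m i)]

/-- 2-jets of the four functions `a, b, A` (of `x0, x1`) and `w` (of `x0, x1, x2`). -/
structure GFJet where
  (a b A w : ℝ)
  (a0 a1 b0 b1 A0 A1 w0 w1 w2 : ℝ)
  (a00 a01 a11 b00 b01 b11 A00 A01 A11 w00 w01 w02 w11 w12 w22 : ℝ)

namespace GFJet
variable (J : GFJet)

def F02 : ℝ := J.A0 / J.b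
def F12 : ℝ := J.A1 / (J.a * J.b)
/-- Hessian of `w` in the frame `e0,e1,e2` of `dx0² + a² dx1² + b² dx2²` -/
def hw00 : ℝ := J.w00
def hw01 : ℝ := J.w01 / J.a - J.a0 * J.w1 / J.a ^ 2
def hw11 : ℝ := J.w11 / J.a ^ 2 - J.a1 * J.w1 / J.a ^ 3 + J.a0 * J.w0 / J.a
def hw02 : ℝ := J.w02 / J.b - J.b0 * J.w2 / J.b ^ 2
def hw12 : ℝ := J.w12 / (J.a * J.b) - J.b1 * J.w2 / (J.a * J.b ^ 2)
def hw22 : ℝ := J.w22 / J.b ^ 2 + J.b0 * J.w0 / J.b + J.b1 * J.w1 / (J.a ^ 2 * J.b)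
/-- Hessian of `b` for `dx0² + a² dx1²` -/
def hb00 : ℝ := J.b00
def hb01 : ℝ := J.b01 / J.a - J.a0 * J.b1 / J.a ^ 2
def hb11 : ℝ := J.b11 / J.a ^ 2 - J.a1 * J.b1 / J.a ^ 3 + J.a0 * J.b0 / J.a
/-- Gauss curvature of `dx0² + a² dx1²` -/
def K : ℝ := -J.a00 / J.a
/-- second component of the divergence of `F` -/
def divF : ℝ := J.A00 / J.b + J.a0 * J.A0 / (J.a * J.b) - J.b0 * J.A0 / J.b ^ 2 + J.A11 / (J.a ^ 2 * J.b)
  - J.a1 * J.A1 / (J.a ^ 3 * J.b) - J.b1 * J.A1 / (J.a ^ 2 * J.b ^ 2)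
def R00 : ℝ := J.K - J.hb00 / J.b - J.hw00 / J.w - J.w ^ 2 / 2 * J.F02 ^ 2
def R11 : ℝ := J.K - J.hb11 / J.b - J.hw11 / J.w - J.w ^ 2 / 2 * J.F12 ^ 2
def R01 : ℝ := -J.hb01 / J.b - J.hw01 / J.w - J.w ^ 2 / 2 * (J.F02 * J.F12)
def R02 : ℝ := -J.hw02 / J.w
def R12 : ℝ := -J.hw12 / J.w
def R22 : ℝ := -(J.hb00 + J.hb11) / J.b - J.hw22 / J.w - J.w ^ 2 / 2 * (J.F02 ^ 2 + J.F12 ^ 2)
def R33 : ℝ := -(J.hw00 + J.hw11 + J.hw22) / J.w + J.w ^ 2 / 2 * (J.F02 ^ 2 + J.F12 ^ 2)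
def R03 : ℝ := 3 / 2 * J.w2 * J.A0 / J.b ^ 2
def R13 : ℝ := 3 / 2 * J.w2 * J.A1 / (J.a * J.b ^ 2)
def R23 : ℝ := -(3 / 2) * (J.w0 * J.F02 + J.w1 / J.a * J.F12) - J.w / 2 * J.divF

/-- The Ricci form on `c0 e0 + c1 e1 + c2 e2 + c3 e3`, where
`e0 = ∂0, e1 = ∂1/a, e2 = (∂2 - A ∂3)/b, e3 = ∂3/w`. -/
def ric (c0 c1 c2 c3 : ℝ) : ℝ :=
  J.R00 * c0 ^ 2 + J.R11 * c1 ^ 2 + J.R22 * c2 ^ 2 + J.R33 * c3 ^ 2
  + 2 * J.R01 * (c0 * c1) + 2 * J.R02 * (c0 * c2) + 2 * J.R12 * (c1 * c2)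
  + 2 * J.R03 * (c0 * c3) + 2 * J.R13 * (c1 * c3) + 2 * J.R23 * (c2 * c3)

/-- the algebraic Ricci tensor of the 2-jet -/
def rJ (i j : Fin 4) : ℝ :=
  ricJ (gfG J.a J.b J.A J.w) (gfD J.a J.b J.A J.w ![J.a0, J.a1, 0, 0] ![J.b0, J.b1, 0, 0]
      ![J.A0, J.A1, 0, 0] ![J.w0, J.w1, J.w2, 0])
    (gfH J.a J.b J.A J.w ![J.a0, J.a1, 0, 0] ![J.b0, J.b1, 0, 0] ![J.A0, J.A1, 0, 0]
      ![J.w0, J.w1, J.w2, 0]
      !![J.a00, J.a01, 0, 0; J.a01, J.a11, 0, 0; 0, 0, 0, 0; 0, 0, 0, 0]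
      !![J.b00, J.b01, 0, 0; J.b01, J.b11, 0, 0; 0, 0, 0, 0; 0, 0, 0, 0]
      !![J.A00, J.A01, 0, 0; J.A01, J.A11, 0, 0; 0, 0, 0, 0; 0, 0, 0, 0]
      !![J.w00, J.w01, J.w02, 0; J.w01, J.w11, J.w12, 0; J.w02, J.w12, J.w22, 0; 0, 0, 0, 0]) i j

variable {J} (ha : J.a ≠ 0) (hb : J.b ≠ 0) (hw : J.w ≠ 0)
include ha hb hw

theorem rJ00 : J.rJ 0 0 = J.R00 := by
  obtain ⟨a, b, A, w, a0, a1, b0, b1, A0, A1, w0, w1, w2, a00, a01, a11, b00, b01, b11, A00, A01, A11, w00, w01, w02, w11, w12, w22⟩ := J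
  simp only [rJ, R00, R01, R02, R03, R11, R12, R13, R22, R23, R33, K, divF, hb00, hb01, hb11, hw00, hw01, hw02,
    hw11, hw12, hw22, F02, F12] at *
  simp [ricJ, dchrJ, chrJ, Fin.sum_univ_four, gfG, gfD, gfH]
  field_simp
  ring

theorem rJ01 : J.rJ 0 1 = J.a * J.R01 := by
  obtain ⟨a, b, A, w, a0, a1, b0, b1, A0, A1, w0, w1, w2, a00, a01, a11, b00, b01, b11, A00, A01, A11, w00, w01, w02, w11, w12, w22⟩ := J
  simp only [rJ, R00, R01, R02, R03, R11, R12, R13, R22, R23, R33, K, divF, hb00, hb01, hb11, hw00, hw01, hw02,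
    hw11, hw12, hw22, F02, F12] at *
  simp [ricJ, dchrJ, chrJ, Fin.sum_univ_four, gfG, gfD, gfH]
  field_simp
  ring

theorem rJ02 : J.rJ 0 2 = J.b * J.R02 + J.w * J.A * J.R03 := by
  obtain ⟨a, b, A, w, a0, a1, b0, b1, A0, A1, w0, w1, w2, a00, a01, a11, b00, b01, b11, A00, A01, A11, w00, w01, w02, w11, w12, w22⟩ := J
  simp only [rJ, R00, R01, R02, R03, R11, R12, R13, R22, R23, R33, K, divF, hb00, hb01, hb11, hw00, hw01, hw02,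
    hw11, hw12, hw22, F02, F12] at *
  simp [ricJ, dchrJ, chrJ, Fin.sum_univ_four, gfG, gfD, gfH]
  field_simp
  ring

theorem rJ03 : J.rJ 0 3 = J.w * J.R03 := by
  obtain ⟨a, b, A, w, a0, a1, b0, b1, A0, A1, w0, w1, w2, a00, a01, a11, b00, b01, b11, A00, A01, A11, w00, w01, w02, w11, w12, w22⟩ := J
  simp only [rJ, R00, R01, R02, R03, R11, R12, R13, R22, R23, R33, K, divF, hb00, hb01, hb11, hw00, hw01, hw02,
    hw11, hw12, hw22, F02, F12] at *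
  simp [ricJ, dchrJ, chrJ, Fin.sum_univ_four, gfG, gfD, gfH]
  field_simp
  ring

theorem rJ10 : J.rJ 1 0 = J.a * J.R01 := by
  obtain ⟨a, b, A, w, a0, a1, b0, b1, A0, A1, w0, w1, w2, a00, a01, a11, b00, b01, b11, A00, A01, A11, w00, w01, w02, w11, w12, w22⟩ := J
  simp only [rJ, R00, R01, R02, R03, R11, R12, R13, R22, R23, R33, K, divF, hb00, hb01, hb11, hw00, hw01, hw02,
    hw11, hw12, hw22, F02, F12] at *
  simp [ricJ, dchrJ, chrJ, Fin.sum_univ_four, gfG, gfD, gfH]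
  field_simp
  ring

theorem rJ11 : J.rJ 1 1 = J.a ^ 2 * J.R11 := by
  obtain ⟨a, b, A, w, a0, a1, b0, b1, A0, A1, w0, w1, w2, a00, a01, a11, b00, b01, b11, A00, A01, A11, w00, w01, w02, w11, w12, w22⟩ := J
  simp only [rJ, R00, R01, R02, R03, R11, R12, R13, R22, R23, R33, K, divF, hb00, hb01, hb11, hw00, hw01, hw02,
    hw11, hw12, hw22, F02, F12] at *
  simp [ricJ, dchrJ, chrJ, Fin.sum_univ_four, gfG, gfD, gfH]
  field_simp
  ring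

theorem rJ12 : J.rJ 1 2 = J.a * (J.b * J.R12 + J.w * J.A * J.R13) := by
  obtain ⟨a, b, A, w, a0, a1, b0, b1, A0, A1, w0, w1, w2, a00, a01, a11, b00, b01, b11, A00, A01, A11, w00, w01, w02, w11, w12, w22⟩ := J
  simp only [rJ, R00, R01, R02, R03, R11, R12, R13, R22, R23, R33, K, divF, hb00, hb01, hb11, hw00, hw01, hw02,
    hw11, hw12, hw22, F02, F12] at *
  simp [ricJ, dchrJ, chrJ, Fin.sum_univ_four, gfG, gfD, gfH]
  field_simp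
  ring

theorem rJ13 : J.rJ 1 3 = J.a * J.w * J.R13 := by
  obtain ⟨a, b, A, w, a0, a1, b0, b1, A0, A1, w0, w1, w2, a00, a01, a11, b00, b01, b11, A00, A01, A11, w00, w01, w02, w11, w12, w22⟩ := J
  simp only [rJ, R00, R01, R02, R03, R11, R12, R13, R22, R23, R33, K, divF, hb00, hb01, hb11, hw00, hw01, hw02,
    hw11, hw12, hw22, F02, F12] at *
  simp [ricJ, dchrJ, chrJ, Fin.sum_univ_four, gfG, gfD, gfH]
  field_simp
  ring

theorem rJ20 : J.rJ 2 0 = J.b * J.R02 + J.w * J.A * J.R03 := by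
  obtain ⟨a, b, A, w, a0, a1, b0, b1, A0, A1, w0, w1, w2, a00, a01, a11, b00, b01, b11, A00, A01, A11, w00, w01, w02, w11, w12, w22⟩ := J
  simp only [rJ, R00, R01, R02, R03, R11, R12, R13, R22, R23, R33, K, divF, hb00, hb01, hb11, hw00, hw01, hw02,
    hw11, hw12, hw22, F02, F12] at *
  simp [ricJ, dchrJ, chrJ, Fin.sum_univ_four, gfG, gfD, gfH]
  field_simp
  ring

theorem rJ21 : J.rJ 2 1 = J.a * (J.b * J.R12 + J.w * J.A * J.R13) := by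
  obtain ⟨a, b, A, w, a0, a1, b0, b1, A0, A1, w0, w1, w2, a00, a01, a11, b00, b01, b11, A00, A01, A11, w00, w01, w02, w11, w12, w22⟩ := J
  simp only [rJ, R00, R01, R02, R03, R11, R12, R13, R22, R23, R33, K, divF, hb00, hb01, hb11, hw00, hw01, hw02,
    hw11, hw12, hw22, F02, F12] at *
  simp [ricJ, dchrJ, chrJ, Fin.sum_univ_four, gfG, gfD, gfH]
  field_simp
  ring

theorem rJ22 : J.rJ 2 2 = J.b ^ 2 * J.R22 + 2 * J.b * J.w * J.A * J.R23 + J.w ^ 2 * J.A ^ 2 * J.R33 := by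
  obtain ⟨a, b, A, w, a0, a1, b0, b1, A0, A1, w0, w1, w2, a00, a01, a11, b00, b01, b11, A00, A01, A11, w00, w01, w02, w11, w12, w22⟩ := J
  simp only [rJ, R00, R01, R02, R03, R11, R12, R13, R22, R23, R33, K, divF, hb00, hb01, hb11, hw00, hw01, hw02,
    hw11, hw12, hw22, F02, F12] at *
  simp [ricJ, dchrJ, chrJ, Fin.sum_univ_four, gfG, gfD, gfH]
  field_simp
  ring

theorem rJ23 : J.rJ 2 3 = J.w * (J.b * J.R23 + J.w * J.A * J.R33) := by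
  obtain ⟨a, b, A, w, a0, a1, b0, b1, A0, A1, w0, w1, w2, a00, a01, a11, b00, b01, b11, A00, A01, A11, w00, w01, w02, w11, w12, w22⟩ := J
  simp only [rJ, R00, R01, R02, R03, R11, R12, R13, R22, R23, R33, K, divF, hb00, hb01, hb11, hw00, hw01, hw02,
    hw11, hw12, hw22, F02, F12] at *
  simp [ricJ, dchrJ, chrJ, Fin.sum_univ_four, gfG, gfD, gfH]
  field_simp
  ring

theorem rJ30 : J.rJ 3 0 = J.w * J.R03 := by
  obtain ⟨a, b, A, w, a0, a1, b0, b1, A0, A1, w0, w1, w2, a00, a01, a11, b00, b01, b11, A00, A01, A11, w00, w01, w02, w11, w12, w22⟩ := J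
  simp only [rJ, R00, R01, R02, R03, R11, R12, R13, R22, R23, R33, K, divF, hb00, hb01, hb11, hw00, hw01, hw02,
    hw11, hw12, hw22, F02, F12] at *
  simp [ricJ, dchrJ, chrJ, Fin.sum_univ_four, gfG, gfD, gfH]
  field_simp
  ring

theorem rJ31 : J.rJ 3 1 = J.a * J.w * J.R13 := by
  obtain ⟨a, b, A, w, a0, a1, b0, b1, A0, A1, w0, w1, w2, a00, a01, a11, b00, b01, b11, A00, A01, A11, w00, w01, w02, w11, w12, w22⟩ := J
  simp only [rJ, R00, R01, R02, R03, R11, R12, R13, R22, R23, R33, K, divF, hb00, hb01, hb11, hw00, hw01, hw02,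
    hw11, hw12, hw22, F02, F12] at *
  simp [ricJ, dchrJ, chrJ, Fin.sum_univ_four, gfG, gfD, gfH]
  field_simp
  ring

theorem rJ32 : J.rJ 3 2 = J.w * (J.b * J.R23 + J.w * J.A * J.R33) := by
  obtain ⟨a, b, A, w, a0, a1, b0, b1, A0, A1, w0, w1, w2, a00, a01, a11, b00, b01, b11, A00, A01, A11, w00, w01, w02, w11, w12, w22⟩ := J
  simp only [rJ, R00, R01, R02, R03, R11, R12, R13, R22, R23, R33, K, divF, hb00, hb01, hb11, hw00, hw01, hw02,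
    hw11, hw12, hw22, F02, F12] at *
  simp [ricJ, dchrJ, chrJ, Fin.sum_univ_four, gfG, gfD, gfH]
  field_simp
  ring

theorem rJ33 : J.rJ 3 3 = J.w ^ 2 * J.R33 := by
  obtain ⟨a, b, A, w, a0, a1, b0, b1, A0, A1, w0, w1, w2, a00, a01, a11, b00, b01, b11, A00, A01, A11, w00, w01, w02, w11, w12, w22⟩ := J
  simp only [rJ, R00, R01, R02, R03, R11, R12, R13, R22, R23, R33, K, divF, hb00, hb01, hb11, hw00, hw01, hw02,
    hw11, hw12, hw22, F02, F12] at *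
  simp [ricJ, dchrJ, chrJ, Fin.sum_univ_four, gfG, gfD, gfH]
  field_simp
  ring

end GFJet
end Pool.Agent.MP39e402.RR
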