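import Pool.Agent.Lib.MP_39e402_gt.R.Basic

/-! Part R0: the Ricci tensor as an algebraic function of the 2-jet of the metric. -/

open Set Filter Topology
open scoped ContDiff BigOperators

noncomputable section

namespace Pool.Agent.MP39e402.RR

variable {n : ℕ}

/-- Christoffel symbols from the inverse matrix `G` and `D m a b = ∂_m g_ab`. -/
def chrJ (G : Matrix (Fin n) (Fin n) ℝ) (D : Fin n → Fin n → Fin n → ℝ) (k i j : Fin n) : ℝ :=
  (1 / 2) * ∑ l, G k l * (D i j l + D j i l - D l i j)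

/-- `∂_m Γ^k_ij` from the 2-jet (`H m i a b = ∂_m ∂_i g_ab`). -/
def dchrJ (G : Matrix (Fin n) (Fin n) ℝ) (D : Fin n → Fin n → Fin n → ℝ)
    (H : Fin n → Fin n → Fin n → Fin n → ℝ) (m k i j : Fin n) : ℝ :=
  (1 / 2) * ∑ l, ((-∑ a, ∑ b, G k a * D m a b * G b l) * (D i j l + D j i l - D l i j)
    + G k l * (H m i j l + H m j i l - H m l i j))

/-- The Ricci tensor from the 2-jet. -/
def ricJ (G : Matrix (Fin n) (Fin n) ℝ) (D : Fin n → Fin n → Fin n → ℝ)
    (H : Fin n → Fin n → Fin n → Fin n → ℝ) (i j : Fin n) : ℝ :=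
  ∑ k, (dchrJ G D H k k i j - dchrJ G D H j k i k
    + ∑ l, (chrJ G D k k l * chrJ G D l i j - chrJ G D k j l * chrJ G D l i k))

/-- first derivatives of the metric components -/
def jetD (g : RMetric n) (x : EE n) (m a b : Fin n) : ℝ := pd m (fun y => g y a b) x

/-- second derivatives of the metric components -/
def jetH (g : RMetric n) (x : EE n) (m i a b : Fin n) : ℝ := pd m (pd i (fun y => g y a b)) x

theorem christoffel_eq_chrJ (g : RMetric n) (k i j : Fin n) (x : EE n) :
    christoffel g k i j x = chrJ (g x)⁻¹ (jetD g x) k i j := rfl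

theorem isUnit_det {g : RMetric n} {V : Set (EE n)} (hg : IsRMetricOn g V) {x : EE n} (hx : x ∈ V) :
    IsUnit (g x).det := (Matrix.isUnit_iff_isUnit_det _).1 (hg.posDef x hx).isUnit

theorem inv_mul_self {g : RMetric n} {V : Set (EE n)} (hg : IsRMetricOn g V) {x : EE n} (hx : x ∈ V) :
    (g x)⁻¹ * g x = 1 := Matrix.nonsing_inv_mul _ (isUnit_det hg hx)

theorem self_mul_inv {g : RMetric n} {V : Set (EE n)} (hg : IsRMetricOn g V) {x : EE n} (hx : x ∈ V) :
    g x * (g x)⁻¹ = 1 := Matrix.mul_nonsing_inv _ (isUnit_det hg hx)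

theorem det_smooth {g : RMetric n} {V : Set (EE n)} (hg : IsRMetricOn g V) :
    ContDiffOn ℝ ∞ (fun x => (g x).det) V := by
  have : (fun x => (g x).det) = fun x => ∑ σ : Equiv.Perm (Fin n),
      ((Equiv.Perm.sign σ : ℤ) : ℝ) * ∏ i, g x (σ i) i := by
    funext x; rw [Matrix.det_apply']
  rw [this]
  refine ContDiffOn.sum fun σ _ => contDiffOn_const.mul ?_
  exact contDiffOn_prod fun i _ => hg.smooth _ _

theorem adjugate_smooth {g : RMetric n} {V : Set (EE n)} (hg : IsRMetricOn g V) (k l : Fin n) :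
    ContDiffOn ℝ ∞ (fun x => (g x).adjugate k l) V := by
  have : (fun x => (g x).adjugate k l) = fun x => ∑ σ : Equiv.Perm (Fin n),
      ((Equiv.Perm.sign σ : ℤ) : ℝ) * ∏ i, (Matrix.updateRow (g x) l (Pi.single k 1)) (σ i) i := by
    funext x; rw [Matrix.adjugate_apply, Matrix.det_apply']
  rw [this]
  refine ContDiffOn.sum fun σ _ => contDiffOn_const.mul ?_
  refine contDiffOn_prod fun i _ => ?_
  by_cases h : σ i = l
  · simp only [h, Matrix.updateRow_self]; exact contDiffOn_const
  · have : (fun x => (Matrix.updateRow (g x) l (Pi.single k 1)) (σ i) i) = fun x => g x (σ i) i := by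
      funext x; rw [Matrix.updateRow_ne h]
    rw [this]; exact hg.smooth _ _

theorem inv_smooth {g : RMetric n} {V : Set (EE n)} (hg : IsRMetricOn g V) (k l : Fin n) :
    ContDiffOn ℝ ∞ (fun x => (g x)⁻¹ k l) V := by
  have h : EqOn (fun x => (g x)⁻¹ k l) (fun x => ((g x).det)⁻¹ * (g x).adjugate k l) V := by
    intro x _
    simp [Matrix.inv_def, Ring.inverse_eq_inv']
  refine ContDiffOn.congr ?_ h
  exact ((det_smooth hg).inv fun x hx => (isUnit_det hg hx).ne_zero).mul (adjugate_smooth hg k l)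

/-- derivative of the inverse matrix -/
theorem pd_inv_entry {g : RMetric n} {V : Set (EE n)} (hg : IsRMetricOn g V) {x : EE n} (hx : x ∈ V)
    (m k l : Fin n) :
    pd m (fun y => (g y)⁻¹ k l) x = -∑ a, ∑ b, (g x)⁻¹ k a * jetD g x m a b * (g x)⁻¹ b l := by
  have hV := hg.isOpen
  have dG : ∀ k l, DifferentiableAt ℝ (fun y => (g y)⁻¹ k l) x := fun k l =>
    differentiableAt_of_smooth hV (inv_smooth hg k l) hx
  have dg : ∀ k l, DifferentiableAt ℝ (fun y => g y k l) x := fun k l =>
    differentiableAt_of_smooth hV (hg.smooth k l) hx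
  have h1 : ∀ b, ∑ c, (pd m (fun y => (g y)⁻¹ k c) x * g x c b + (g x)⁻¹ k c * jetD g x m c b) = 0 := by
    intro b
    have e1 : pd m (fun y => ∑ c, (g y)⁻¹ k c * g y c b) x = 0 := by
      rw [pd_congr_of_eqOn (g := fun _ => (1 : Matrix (Fin n) (Fin n) ℝ) k b) m hV hx]
      · exact pd_const _ _ _
      · intro y hy
        have := congrFun (congrFun (inv_mul_self hg hy) k) b
        simpa [Matrix.mul_apply] using this
    rw [pd_sum] at e1
    · rw [← e1]
      refine Finset.sum_congr rfl fun c _ => ?_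
      rw [pd_mul m (dG k c) (dg c b)]
      rfl
    · intro c _; exact (dG k c).mul (dg c b)
  have h2 : ∑ b, (∑ c, (pd m (fun y => (g y)⁻¹ k c) x * g x c b + (g x)⁻¹ k c * jetD g x m c b))
      * (g x)⁻¹ b l = 0 := by simp [h1]
  have h3 : ∑ b, (∑ c, pd m (fun y => (g y)⁻¹ k c) x * g x c b) * (g x)⁻¹ b l
      = pd m (fun y => (g y)⁻¹ k l) x := by
    have e2 : ∀ c, ∑ b, g x c b * (g x)⁻¹ b l = (1 : Matrix (Fin n) (Fin n) ℝ) c l := by
      intro c
      have := congrFun (congrFun (self_mul_inv hg hx) c) l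
      simpa [Matrix.mul_apply] using this
    calc _ = ∑ b, ∑ c, pd m (fun y => (g y)⁻¹ k c) x * (g x c b * (g x)⁻¹ b l) := by
          refine Finset.sum_congr rfl fun b _ => ?_
          rw [Finset.sum_mul]
          exact Finset.sum_congr rfl fun c _ => by ring
      _ = ∑ c, pd m (fun y => (g y)⁻¹ k c) x * ∑ b, (g x c b * (g x)⁻¹ b l) := by
          rw [Finset.sum_comm]
          exact Finset.sum_congr rfl fun c _ => by rw [Finset.mul_sum]
      _ = _ := by
          simp only [e2]
          simp [Matrix.one_apply]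
  have h4 : ∑ b, (∑ c, (g x)⁻¹ k c * jetD g x m c b) * (g x)⁻¹ b l
      = ∑ a, ∑ b, (g x)⁻¹ k a * jetD g x m a b * (g x)⁻¹ b l := by
    rw [Finset.sum_comm]
    exact Finset.sum_congr rfl fun b _ => by rw [Finset.sum_mul]
  have h5 : ∑ b, (∑ c, (pd m (fun y => (g y)⁻¹ k c) x * g x c b + (g x)⁻¹ k c * jetD g x m c b))
      * (g x)⁻¹ b l = ∑ b, (∑ c, pd m (fun y => (g y)⁻¹ k c) x * g x c b) * (g x)⁻¹ b l
        + ∑ b, (∑ c, (g x)⁻¹ k c * jetD g x m c b) * (g x)⁻¹ b l := by
    rw [← Finset.sum_add_distrib]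
    refine Finset.sum_congr rfl fun b _ => ?_
    rw [Finset.sum_add_distrib, add_mul]
  rw [h3, h4, h2] at h5
  linarith

theorem pd_christoffel {g : RMetric n} {V : Set (EE n)} (hg : IsRMetricOn g V) {x : EE n} (hx : x ∈ V)
    (m k i j : Fin n) :
    pd m (christoffel g k i j) x = dchrJ (g x)⁻¹ (jetD g x) (jetH g x) m k i j := by
  have hV := hg.isOpen
  have dG : ∀ k l, DifferentiableAt ℝ (fun y => (g y)⁻¹ k l) x := fun k l =>
    differentiableAt_of_smooth hV (inv_smooth hg k l) hx
  have dD : ∀ i a b, DifferentiableAt ℝ (pd i (fun y => g y a b)) x := fun i a b =>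
    differentiableAt_pd i hV (hg.smooth a b) hx
  have dS : ∀ l, DifferentiableAt ℝ (fun y => pd i (fun y => g y j l) y + pd j (fun y => g y i l) y
      - pd l (fun y => g y i j) y) x := fun l => ((dD i j l).add (dD j i l)).sub (dD l i j)
  have e1 : christoffel g k i j = fun y => (1 / 2) * ∑ l, (g y)⁻¹ k l *
      (pd i (fun y => g y j l) y + pd j (fun y => g y i l) y - pd l (fun y => g y i j) y) := rfl
  rw [e1, pd_const_mul, pd_sum]
  · unfold dchrJ
    congr 1
    refine Finset.sum_congr rfl fun l _ => ?_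
    rw [pd_mul m (dG k l) (dS l), pd_inv_entry hg hx]
    have dS1 : DifferentiableAt ℝ (fun y => pd i (fun y => g y j l) y + pd j (fun y => g y i l) y) x :=
      (dD i j l).add (dD j i l)
    rw [pd_sub m dS1 (dD l i j), pd_add m (dD i j l) (dD j i l)]
    rfl
  · intro l _; exact (dG k l).mul (dS l)
  · exact DifferentiableAt.fun_sum fun l _ => (dG k l).mul (dS l)

theorem christoffel_smooth {g : RMetric n} {V : Set (EE n)} (hg : IsRMetricOn g V) (k i j : Fin n) :
    ContDiffOn ℝ ∞ (christoffel g k i j) V := by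
  have hV := hg.isOpen
  have e1 : christoffel g k i j = fun y => (1 / 2) * ∑ l, (g y)⁻¹ k l *
      (pd i (fun y => g y j l) y + pd j (fun y => g y i l) y - pd l (fun y => g y i j) y) := rfl
  rw [e1]
  refine contDiffOn_const.mul (ContDiffOn.sum fun l _ => (inv_smooth hg k l).mul ?_)
  exact ((contDiffOn_pd i hV (hg.smooth j l)).add (contDiffOn_pd j hV (hg.smooth i l))).sub
    (contDiffOn_pd l hV (hg.smooth i j))

/-- The Ricci tensor is the algebraic function `ricJ` of the 2-jet of the metric. -/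
theorem ricci_eq_ricJ {g : RMetric n} {V : Set (EE n)} (hg : IsRMetricOn g V) {x : EE n} (hx : x ∈ V)
    (i j : Fin n) : ricci g i j x = ricJ (g x)⁻¹ (jetD g x) (jetH g x) i j := by
  unfold ricci ricJ
  refine Finset.sum_congr rfl fun k _ => ?_
  rw [pd_christoffel hg hx, pd_christoffel hg hx]
  rfl

end Pool.Agent.MP39e402.RR
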