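import Mathlib

/-! # MP_39e402, module RC-Ode: the arc length ODE `B' = √(V(B))`.

Proof.  `v := fun r => √(V r)` is `ContDiffAt ℝ 1` (even `∞`) at `r0` because `V r0 > 0`.  Picard-Lindelöf:
`ContDiffAt.exists_forall_mem_closedBall_exists_eq_forall_mem_Ioo_hasDerivAt` or
`exists_forall_hasDerivAt_Ioo_eq_of_contDiffAt` gives `B`, `ε > 0` with `B 0 = r0` and
`HasDerivAt B (v (B s)) s` on `Ioo (-ε) ε`.  `B` is continuous at 0, so after shrinking `ε` to `τ` we have `B s ∈ I`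
on `Ioo (-τ) τ` (note: `B` is differentiable hence continuous on the open interval; `B⁻¹(I)` is a neighbourhood of `0`).
Smoothness: by induction on `n : ℕ`, `ContDiffOn ℝ n B (Ioo (-τ) τ)` (`contDiffOn_succ_iff_deriv_of_isOpen`,
`deriv B = v ∘ B` on the interval and `v` is smooth on `I`); then `contDiffOn_infty`. -/

open Real Set Filter Topology
open scoped ContDiff

noncomputable section

namespace Pool.Agent.MP39e402.RR

theorem arc_ode {V : ℝ → ℝ} {I : Set ℝ} (hI : IsOpen I) (hV : ContDiffOn ℝ ∞ V I)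
    (hpos : ∀ r ∈ I, 0 < V r) {r0 : ℝ} (h0 : r0 ∈ I) :
    ∃ (B : ℝ → ℝ) (τ : ℝ), 0 < τ ∧ B 0 = r0 ∧ ContDiffOn ℝ ∞ B (Ioo (-τ) τ) ∧
      (∀ s ∈ Ioo (-τ) τ, B s ∈ I) ∧ ∀ s ∈ Ioo (-τ) τ, HasDerivAt B (√(V (B s))) s := by
  have hv : ContDiffOn ℝ ∞ (fun r => √(V r)) I := hV.sqrt fun r hr => (hpos r hr).ne'
  have hv1 : ContDiffAt ℝ 1 (fun r => √(V r)) r0 :=
    (hv.contDiffAt (hI.mem_nhds h0)).of_le (by norm_num)
  obtain ⟨B, hB0, ε, hε, hB⟩ :=
    hv1.exists_forall_mem_closedBall_exists_eq_forall_mem_Ioo_hasDerivAt₀ 0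
  simp only [zero_sub, zero_add] at hB
  have hc : ContinuousAt B 0 := (hB 0 ⟨by linarith, hε⟩).continuousAt
  have hnh : B ⁻¹' I ∈ 𝓝 (0 : ℝ) := hc.preimage_mem_nhds (by rw [hB0]; exact hI.mem_nhds h0)
  obtain ⟨δ, hδ, hball⟩ := Metric.mem_nhds_iff.1 hnh
  have hτ : 0 < min ε δ := lt_min hε hδ
  have hder : ∀ s ∈ Ioo (-(min ε δ)) (min ε δ), HasDerivAt B (√(V (B s))) s := by
    intro s hs
    exact hB s ⟨by have := hs.1; have := min_le_left ε δ; linarith,
      hs.2.trans_le (min_le_left ε δ)⟩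
  have hin : ∀ s ∈ Ioo (-(min ε δ)) (min ε δ), B s ∈ I := by
    intro s hs
    apply hball
    rw [Metric.mem_ball, dist_zero_right, Real.norm_eq_abs, abs_lt]
    exact ⟨by have := hs.1; have := min_le_right ε δ; linarith,
      hs.2.trans_le (min_le_right ε δ)⟩
  refine ⟨B, min ε δ, hτ, hB0, ?_, hin, hder⟩
  rw [contDiffOn_infty]
  intro n
  induction n with
  | zero =>
    have h1 : ContinuousOn B (Ioo (-(min ε δ)) (min ε δ)) :=
      fun s hs => (hder s hs).continuousAt.continuousWithinAt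
    exact contDiffOn_zero.2 h1
  | succ n ih =>
    have h1 : ((n + 1 : ℕ) : ℕ∞ω) = (n : ℕ∞ω) + 1 := by norm_cast
    rw [h1, contDiffOn_succ_iff_deriv_of_isOpen isOpen_Ioo]
    refine ⟨fun s hs => (hder s hs).differentiableAt.differentiableWithinAt, ?_, ?_⟩
    · intro h
      exact absurd h (by simp)
    · have h2 : ContDiffOn ℝ n (fun s => √(V (B s))) (Ioo (-(min ε δ)) (min ε δ)) :=
        (hv.of_le (by exact_mod_cast le_top)).comp ih hin
      exact h2.congr fun s hs => (hder s hs).deriv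

end Pool.Agent.MP39e402.RR
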