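import Pool.Agent.Lib.MP_39e402_gt.R.ContScale

/-! Part R1, first file: the metric and the Levi-Civita connection as maps with values in spaces of
bilinear maps. -/

open Set Filter Topology
open scoped ContDiff BigOperators

set_option linter.unusedSimpArgs false

noncomputable section

namespace Pool.Agent.MP39e402.RR

variable {n : ℕ}

theorem smul_const_smooth {E F : Type*} [NormedAddCommGroup E] [NormedSpace ℝ E]
    [NormedAddCommGroup F] [NormedSpace ℝ F] (T : F) {f : E → ℝ} {V : Set E}
    (hf : ContDiffOn ℝ ∞ f V) : ContDiffOn ℝ ∞ (fun y => f y • T) V :=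
  hf.smul contDiffOn_const

theorem hasFDerivAt_smul_const' {E F : Type*} [NormedAddCommGroup E] [NormedSpace ℝ E]
    [NormedAddCommGroup F] [NormedSpace ℝ F] (T : F) {f : E → ℝ} {f' : E →L[ℝ] ℝ} {x : E}
    (hf : HasFDerivAt f f' x) : HasFDerivAt (fun y => f y • T) (f'.smulRight T) x :=
  hf.smul_const T

/-- coordinate functional -/
def prj (i : Fin n) : EE n →L[ℝ] ℝ := EuclideanSpace.proj i

@[simp] theorem prj_apply (i : Fin n) (v : EE n) : prj i v = v i := rfl

/-- the bilinear map `(u, v) ↦ u_i v_j e_k` -/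
def bK (k i j : Fin n) : EE n →L[ℝ] EE n →L[ℝ] EE n :=
  (prj i).smulRight ((prj j).smulRight (EuclideanSpace.single k (1 : ℝ)))

/-- the bilinear form `(u, v) ↦ u_i v_j` -/
def bE (i j : Fin n) : EE n →L[ℝ] EE n →L[ℝ] ℝ := (prj i).smulRight (prj j)

/-- the metric as a bilinear form -/
def BL (g : RMetric n) (y : EE n) : EE n →L[ℝ] EE n →L[ℝ] ℝ := ∑ i, ∑ j, g y i j • bE i j

/-- the Levi-Civita connection as a bilinear map -/
def GamL (g : RMetric n) (y : EE n) : EE n →L[ℝ] EE n →L[ℝ] EE n :=
  ∑ k, ∑ i, ∑ j, christoffel g k i j y • bK k i j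

theorem BL_apply (g : RMetric n) (y u v : EE n) : BL g y u v = ∑ i, ∑ j, g y i j * u i * v j := by
  simp [BL, bE, sum_apply, mul_assoc]

theorem GamL_apply (g : RMetric n) (y u v : EE n) (k : Fin n) :
    GamL g y u v k = ∑ i, ∑ j, christoffel g k i j y * u i * v j := by
  simp [GamL, bK, sum_apply, Finset.sum_apply, Pi.single_apply, mul_assoc]

theorem gquad_eq_BL (g : RMetric n) (y v : EE n) : gquad g y v = BL g y v v := by
  rw [BL_apply]; rfl

theorem BL_smooth {g : RMetric n} {V : Set (EE n)} (hg : IsRMetricOn g V) :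
    ContDiffOn ℝ ∞ (BL g) V :=
  ContDiffOn.sum fun i _ => ContDiffOn.sum fun j _ => smul_const_smooth _ (hg.smooth i j)

theorem GamL_smooth {g : RMetric n} {V : Set (EE n)} (hg : IsRMetricOn g V) :
    ContDiffOn ℝ ∞ (GamL g) V :=
  ContDiffOn.sum fun k _ => ContDiffOn.sum fun i _ => ContDiffOn.sum fun j _ =>
    smul_const_smooth _ (christoffel_smooth hg k i j)

theorem fderiv_clm_apply_const {E A B : Type*} [NormedAddCommGroup E] [NormedSpace ℝ E]
    [NormedAddCommGroup A] [NormedSpace ℝ A] [NormedAddCommGroup B] [NormedSpace ℝ B]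
    {F : E → A →L[ℝ] B} {x : E} (hF : DifferentiableAt ℝ F x) (u : A) (a : E) :
    fderiv ℝ (fun y => F y u) x a = fderiv ℝ F x a u := by
  have h := ((ContinuousLinearMap.apply ℝ B u).hasFDerivAt (x := F x)).comp x hF.hasFDerivAt
  have h2 : HasFDerivAt (fun y => F y u) ((ContinuousLinearMap.apply ℝ B u).comp (fderiv ℝ F x)) x := h
  rw [h2.fderiv]; rfl

theorem differentiableAt_clm_apply {E A B : Type*} [NormedAddCommGroup E] [NormedSpace ℝ E]
    [NormedAddCommGroup A] [NormedSpace ℝ A] [NormedAddCommGroup B] [NormedSpace ℝ B]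
    {F : E → A →L[ℝ] B} {x : E} (hF : DifferentiableAt ℝ F x) (u : A) :
    DifferentiableAt ℝ (fun y => F y u) x := by
  have h := ((ContinuousLinearMap.apply ℝ B u).hasFDerivAt (x := F x)).comp x hF.hasFDerivAt
  have h2 : HasFDerivAt (fun y => F y u) ((ContinuousLinearMap.apply ℝ B u).comp (fderiv ℝ F x)) x := h
  exact h2.differentiableAt

theorem differentiableAt_of_smoothE {E F : Type*} [NormedAddCommGroup E] [NormedSpace ℝ E]
    [NormedAddCommGroup F] [NormedSpace ℝ F] {f : E → F} {V : Set E} {x : E} (hV : IsOpen V)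
    (hf : ContDiffOn ℝ ∞ f V) (hx : x ∈ V) : DifferentiableAt ℝ f x :=
  (hf.contDiffAt (hV.mem_nhds hx)).differentiableAt (by simp)

theorem fderiv_bilin {f : Fin n → Fin n → EE n → ℝ} {x : EE n}
    (hf : ∀ i j, DifferentiableAt ℝ (f i j) x) (a u v : EE n) :
    fderiv ℝ (fun y => ∑ i, ∑ j, f i j y * u i * v j) x a
      = ∑ i, ∑ j, (∑ m, a m * pd m (f i j) x) * u i * v j := by
  rw [fderiv_eq_sum_pd]
  have h1 : ∀ m, pd m (fun y => ∑ i, ∑ j, f i j y * u i * v j) x
      = ∑ i, ∑ j, pd m (f i j) x * u i * v j := by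
    intro m
    have hd : ∀ i j, DifferentiableAt ℝ (fun y => f i j y * u i * v j) x := fun i j =>
      ((hf i j).mul_const _).mul_const _
    rw [pd_sum _ m fun i _ => DifferentiableAt.fun_sum fun j _ => hd i j]
    refine Finset.sum_congr rfl fun i _ => ?_
    rw [pd_sum _ m fun j _ => hd i j]
    refine Finset.sum_congr rfl fun j _ => ?_
    have : (fun y => f i j y * u i * v j) = fun y => (u i * v j) * f i j y := by
      funext y; ring
    rw [this, pd_const_mul m _ (hf i j)]; ring
  simp_rw [h1, Finset.mul_sum, Finset.sum_mul]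
  rw [Finset.sum_comm]
  refine Finset.sum_congr rfl fun i _ => ?_
  rw [Finset.sum_comm]
  refine Finset.sum_congr rfl fun j _ => Finset.sum_congr rfl fun m _ => by ring

theorem fderiv_BL {g : RMetric n} {V : Set (EE n)} (hg : IsRMetricOn g V) {x : EE n} (hx : x ∈ V)
    (a u v : EE n) :
    fderiv ℝ (BL g) x a u v = ∑ i, ∑ j, (∑ m, a m * jetD g x m i j) * u i * v j := by
  have h1 : DifferentiableAt ℝ (BL g) x := differentiableAt_of_smoothE hg.isOpen (BL_smooth hg) hx
  rw [← fderiv_clm_apply_const h1 u a,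
    ← fderiv_clm_apply_const (differentiableAt_clm_apply h1 u) v a]
  have h2 : (fun y => BL g y u v) = fun y => ∑ i, ∑ j, g y i j * u i * v j :=
    funext fun y => BL_apply g y u v
  rw [h2]
  exact fderiv_bilin (f := fun i j y => g y i j)
    (fun i j => differentiableAt_of_smooth hg.isOpen (hg.smooth i j) hx) a u v

theorem fderiv_GamL {g : RMetric n} {V : Set (EE n)} (hg : IsRMetricOn g V) {x : EE n} (hx : x ∈ V)
    (a u v : EE n) (k : Fin n) :
    fderiv ℝ (GamL g) x a u v k
      = ∑ i, ∑ j, (∑ m, a m * pd m (christoffel g k i j) x) * u i * v j := by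
  have h1 : DifferentiableAt ℝ (GamL g) x :=
    differentiableAt_of_smoothE hg.isOpen (GamL_smooth hg) hx
  have h3 := differentiableAt_clm_apply (differentiableAt_clm_apply h1 u) v
  have h4 : fderiv ℝ (GamL g) x a u v k = fderiv ℝ (fun y => prj k (GamL g y u v)) x a := by
    rw [← fderiv_clm_apply_const h1 u a,
      ← fderiv_clm_apply_const (differentiableAt_clm_apply h1 u) v a]
    have h5 : HasFDerivAt (fun y => prj k (GamL g y u v))
        ((prj k).comp (fderiv ℝ (fun y => GamL g y u v) x)) x :=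
      ((prj k).hasFDerivAt (x := GamL g x u v)).comp x h3.hasFDerivAt
    rw [h5.fderiv]; rfl
  rw [h4]
  have h2 : (fun y => prj k (GamL g y u v)) = fun y => ∑ i, ∑ j, christoffel g k i j y * u i * v j :=
    funext fun y => GamL_apply g y u v k
  rw [h2]
  exact fderiv_bilin (f := fun i j => christoffel g k i j)
    (fun i j => differentiableAt_of_smooth hg.isOpen (christoffel_smooth hg k i j) hx) a u v

theorem metric_symm {g : RMetric n} {V : Set (EE n)} (hg : IsRMetricOn g V) {x : EE n} (hx : x ∈ V)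
    (i j : Fin n) : g x i j = g x j i := by
  have := (hg.posDef x hx).1.apply j i
  simpa using this

theorem BL_symm {g : RMetric n} {V : Set (EE n)} (hg : IsRMetricOn g V) {x : EE n} (hx : x ∈ V)
    (u v : EE n) : BL g x u v = BL g x v u := by
  rw [BL_apply, BL_apply, Finset.sum_comm]
  exact Finset.sum_congr rfl fun i _ => Finset.sum_congr rfl fun j _ => by
    rw [metric_symm hg hx j i]; ring

theorem jetD_symm {g : RMetric n} {V : Set (EE n)} (hg : IsRMetricOn g V) {x : EE n} (hx : x ∈ V)
    (m i j : Fin n) : jetD g x m i j = jetD g x m j i :=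
  pd_congr_of_eqOn m hg.isOpen hx fun _ hy => metric_symm hg hy i j

theorem christoffel_symm {g : RMetric n} {V : Set (EE n)} (hg : IsRMetricOn g V) {x : EE n}
    (hx : x ∈ V) (k i j : Fin n) : christoffel g k i j x = christoffel g k j i x := by
  rw [christoffel_eq_chrJ, christoffel_eq_chrJ]
  unfold chrJ
  congr 1
  refine Finset.sum_congr rfl fun l _ => ?_
  rw [jetD_symm hg hx l i j]; ring

theorem GamL_symm {g : RMetric n} {V : Set (EE n)} (hg : IsRMetricOn g V) {x : EE n} (hx : x ∈ V)
    (u v : EE n) : GamL g x u v = GamL g x v u := by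
  ext k
  rw [GamL_apply, GamL_apply, Finset.sum_comm]
  exact Finset.sum_congr rfl fun i _ => Finset.sum_congr rfl fun j _ => by
    rw [christoffel_symm hg hx k j i]; ring

/-- `BL` is nondegenerate -/
theorem BL_nondeg {g : RMetric n} {V : Set (EE n)} (hg : IsRMetricOn g V) {x : EE n} (hx : x ∈ V)
    {u : EE n} (h : ∀ v, BL g x u v = 0) : u = 0 := by
  by_contra hu
  have := gquad_pos hg hx hu
  rw [gquad_eq_BL, h u] at this
  exact lt_irrefl _ this

theorem lower_chr {g : RMetric n} {V : Set (EE n)} (hg : IsRMetricOn g V) {x : EE n} (hx : x ∈ V)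
    (l i j : Fin n) :
    ∑ k, g x l k * christoffel g k i j x
      = 1 / 2 * (jetD g x i j l + jetD g x j i l - jetD g x l i j) := by
  simp_rw [christoffel_eq_chrJ, chrJ]
  have h := self_mul_inv hg hx
  have h2 : ∀ p, ∑ k, g x l k * (g x)⁻¹ k p = if l = p then 1 else 0 := by
    intro p
    have := congrFun (congrFun h l) p
    rw [Matrix.mul_apply] at this
    rw [this, Matrix.one_apply]
  calc ∑ k, g x l k * (1 / 2 * ∑ p, (g x)⁻¹ k p * (jetD g x i j p + jetD g x j i p - jetD g x p i j))
      = ∑ p, (∑ k, g x l k * (g x)⁻¹ k p) * (1 / 2 * (jetD g x i j p + jetD g x j i p - jetD g x p i j)) := by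
        simp_rw [Finset.mul_sum, Finset.sum_mul]
        rw [Finset.sum_comm]
        exact Finset.sum_congr rfl fun i _ => Finset.sum_congr rfl fun j _ => by ring
    _ = _ := by
        simp_rw [h2]
        simp

/-- the Koszul formula -/
theorem koszul {g : RMetric n} {V : Set (EE n)} (hg : IsRMetricOn g V) {x : EE n} (hx : x ∈ V)
    (u v w : EE n) :
    2 * BL g x (GamL g x u v) w
      = fderiv ℝ (BL g) x u v w + fderiv ℝ (BL g) x v u w - fderiv ℝ (BL g) x w u v := by
  have e1 : fderiv ℝ (BL g) x u v w = ∑ i, ∑ j, ∑ l, jetD g x i j l * (u i * v j * w l) := by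
    rw [fderiv_BL hg hx]
    simp_rw [Finset.sum_mul]
    calc ∑ j, ∑ l, ∑ i, u i * jetD g x i j l * v j * w l
        = ∑ j, ∑ i, ∑ l, u i * jetD g x i j l * v j * w l :=
          Finset.sum_congr rfl fun j _ => Finset.sum_comm
      _ = ∑ i, ∑ j, ∑ l, u i * jetD g x i j l * v j * w l := Finset.sum_comm
      _ = _ := Finset.sum_congr rfl fun i _ => Finset.sum_congr rfl fun j _ =>
          Finset.sum_congr rfl fun l _ => by ring
  have e2 : fderiv ℝ (BL g) x v u w = ∑ i, ∑ j, ∑ l, jetD g x j i l * (u i * v j * w l) := by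
    rw [fderiv_BL hg hx]
    simp_rw [Finset.sum_mul]
    calc ∑ i, ∑ l, ∑ j, v j * jetD g x j i l * u i * w l
        = ∑ i, ∑ j, ∑ l, v j * jetD g x j i l * u i * w l :=
          Finset.sum_congr rfl fun j _ => Finset.sum_comm
      _ = _ := Finset.sum_congr rfl fun i _ => Finset.sum_congr rfl fun j _ =>
          Finset.sum_congr rfl fun l _ => by ring
  have e3 : fderiv ℝ (BL g) x w u v = ∑ i, ∑ j, ∑ l, jetD g x l i j * (u i * v j * w l) := by
    rw [fderiv_BL hg hx]
    simp_rw [Finset.sum_mul]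
    exact Finset.sum_congr rfl fun i _ => Finset.sum_congr rfl fun j _ =>
          Finset.sum_congr rfl fun l _ => by ring
  have e4 : BL g x (GamL g x u v) w
      = ∑ i, ∑ j, ∑ l, (1 / 2 * (jetD g x i j l + jetD g x j i l - jetD g x l i j))
        * (u i * v j * w l) := by
    rw [BL_symm hg hx, BL_apply]
    simp_rw [← lower_chr hg hx, GamL_apply, Finset.mul_sum, Finset.sum_mul]
    calc ∑ l, ∑ k, ∑ i, ∑ j, g x l k * w l * (christoffel g k i j x * u i * v j)
        = ∑ l, ∑ i, ∑ k, ∑ j, g x l k * w l * (christoffel g k i j x * u i * v j) :=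
          Finset.sum_congr rfl fun l _ => Finset.sum_comm
      _ = ∑ i, ∑ l, ∑ k, ∑ j, g x l k * w l * (christoffel g k i j x * u i * v j) :=
          Finset.sum_comm
      _ = ∑ i, ∑ l, ∑ j, ∑ k, g x l k * w l * (christoffel g k i j x * u i * v j) :=
          Finset.sum_congr rfl fun i _ => Finset.sum_congr rfl fun l _ => Finset.sum_comm
      _ = ∑ i, ∑ j, ∑ l, ∑ k, g x l k * w l * (christoffel g k i j x * u i * v j) :=
          Finset.sum_congr rfl fun i _ => Finset.sum_comm
      _ = _ := Finset.sum_congr rfl fun i _ => Finset.sum_congr rfl fun j _ =>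
          Finset.sum_congr rfl fun l _ => Finset.sum_congr rfl fun k _ => by ring
  rw [e1, e2, e3, e4, Finset.mul_sum, ← Finset.sum_add_distrib, ← Finset.sum_sub_distrib]
  refine Finset.sum_congr rfl fun i _ => ?_
  rw [Finset.mul_sum, ← Finset.sum_add_distrib, ← Finset.sum_sub_distrib]
  refine Finset.sum_congr rfl fun j _ => ?_
  rw [Finset.mul_sum, ← Finset.sum_add_distrib, ← Finset.sum_sub_distrib]
  refine Finset.sum_congr rfl fun l _ => ?_
  ring

/-- polarisation -/
theorem BL_polar {g g' : RMetric n} {V V' : Set (EE n)} (hg : IsRMetricOn g V) (hg' : IsRMetricOn g' V')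
    {x y : EE n} (hx : x ∈ V) (hy : y ∈ V') (L : EE n →L[ℝ] EE n)
    (h : ∀ v, gquad g' y v = gquad g x (L v)) (u v : EE n) : BL g' y u v = BL g x (L u) (L v) := by
  have h1 := h (u + v)
  have h2 := h u
  have h3 := h v
  simp only [gquad_eq_BL, map_add, add_apply] at h1 h2 h3
  have s1 := BL_symm hg hx (L u) (L v)
  have s2 := BL_symm hg' hy u v
  linarith

end Pool.Agent.MP39e402.RR
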