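import Pool.Agent.Lib.MP_39e402_gt.R.Pull1

/-! Part R1, second file: the transformation law of the Levi-Civita connection under a local isometry. -/

open Set Filter Topology
open scoped ContDiff BigOperators

set_option linter.unusedSimpArgs false

noncomputable section

namespace Pool.Agent.MP39e402.RR

section generic

variable {E A B C : Type*} [NormedAddCommGroup E] [NormedSpace ℝ E]
  [NormedAddCommGroup A] [NormedSpace ℝ A] [NormedAddCommGroup B] [NormedSpace ℝ B]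
  [NormedAddCommGroup C] [NormedSpace ℝ C]

/-- product rule for `y ↦ F y (p y)` -/
theorem fderiv_clm_apply' {F : E → A →L[ℝ] B} {p : E → A} {x : E}
    (hF : DifferentiableAt ℝ F x) (hp : DifferentiableAt ℝ p x) (a : E) :
    fderiv ℝ (fun y => F y (p y)) x a = fderiv ℝ F x a (p x) + F x (fderiv ℝ p x a) := by
  have h := hF.hasFDerivAt.clm_apply hp.hasFDerivAt
  rw [h.fderiv]
  simp [add_comm]

theorem differentiableAt_clm_apply' {F : E → A →L[ℝ] B} {p : E → A} {x : E}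
    (hF : DifferentiableAt ℝ F x) (hp : DifferentiableAt ℝ p x) :
    DifferentiableAt ℝ (fun y => F y (p y)) x :=
  hF.clm_apply hp

/-- product rule for `y ↦ T y (p y) (q y)` -/
theorem fderiv_clm_apply2 {T : E → A →L[ℝ] B →L[ℝ] C} {p : E → A} {q : E → B} {x : E}
    (hT : DifferentiableAt ℝ T x) (hp : DifferentiableAt ℝ p x) (hq : DifferentiableAt ℝ q x) (a : E) :
    fderiv ℝ (fun y => T y (p y) (q y)) x a
      = fderiv ℝ T x a (p x) (q x) + T x (fderiv ℝ p x a) (q x) + T x (p x) (fderiv ℝ q x a) := by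
  have h1 := fderiv_clm_apply' (differentiableAt_clm_apply' hT hp) hq a
  rw [h1, fderiv_clm_apply' hT hp a]
  simp

theorem hasFDerivAt_comp' {T : A → B} {p : E → A} {x : E}
    (hT : DifferentiableAt ℝ T (p x)) (hp : DifferentiableAt ℝ p x) :
    HasFDerivAt (fun y => T (p y)) ((fderiv ℝ T (p x)).comp (fderiv ℝ p x)) x :=
  hT.hasFDerivAt.comp x hp.hasFDerivAt

end generic

variable {n : ℕ}

/-- the derivative of `y ↦ T (Φ y) (DΦ_y u) (DΦ_y v)` -/
theorem fderiv_pull {C : Type*} [NormedAddCommGroup C] [NormedSpace ℝ C]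
    {T : EE n → EE n →L[ℝ] EE n →L[ℝ] C} {Φ : EE n → EE n} {x : EE n}
    (hT : DifferentiableAt ℝ T (Φ x)) (hΦ : DifferentiableAt ℝ Φ x)
    (hΦ' : DifferentiableAt ℝ (fderiv ℝ Φ) x) (u v a : EE n) :
    fderiv ℝ (fun y => T (Φ y) (fderiv ℝ Φ y u) (fderiv ℝ Φ y v)) x a
      = fderiv ℝ T (Φ x) (fderiv ℝ Φ x a) (fderiv ℝ Φ x u) (fderiv ℝ Φ x v)
        + T (Φ x) (fderiv ℝ (fderiv ℝ Φ) x a u) (fderiv ℝ Φ x v)
        + T (Φ x) (fderiv ℝ Φ x u) (fderiv ℝ (fderiv ℝ Φ) x a v) := by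
  have hTΦ : HasFDerivAt (fun y => T (Φ y)) ((fderiv ℝ T (Φ x)).comp (fderiv ℝ Φ x)) x :=
    hasFDerivAt_comp' (B := EE n →L[ℝ] EE n →L[ℝ] C) hT hΦ
  have h := fderiv_clm_apply2 (T := fun y => T (Φ y)) (p := fun y => fderiv ℝ Φ y u)
    (q := fun y => fderiv ℝ Φ y v) hTΦ.differentiableAt (differentiableAt_clm_apply hΦ' u)
    (differentiableAt_clm_apply hΦ' v) a
  rw [h, hTΦ.fderiv, fderiv_clm_apply_const hΦ', fderiv_clm_apply_const hΦ']
  rfl

theorem fderiv_congr_of_eqOn {E F : Type*} [NormedAddCommGroup E] [NormedSpace ℝ E]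
    [NormedAddCommGroup F] [NormedSpace ℝ F] {f f' : E → F} {U : Set E} {x : E} (hU : IsOpen U)
    (hx : x ∈ U) (h : EqOn f f' U) : fderiv ℝ f x = fderiv ℝ f' x :=
  Filter.EventuallyEq.fderiv_eq (h.eventuallyEq_of_mem (hU.mem_nhds hx))

/-- symmetry of the second derivative -/
theorem snd_symm {E F : Type*} [NormedAddCommGroup E] [NormedSpace ℝ E]
    [NormedAddCommGroup F] [NormedSpace ℝ F] {f : E → F} {U : Set E} {x : E} (hU : IsOpen U)
    (hf : ContDiffOn ℝ ∞ f U) (hx : x ∈ U) (u v : E) :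
    fderiv ℝ (fderiv ℝ f) x u v = fderiv ℝ (fderiv ℝ f) x v u := by
  have h : ContDiffAt ℝ ∞ f x := hf.contDiffAt (hU.mem_nhds hx)
  have hsym : IsSymmSndFDerivAt ℝ f x :=
    h.isSymmSndFDerivAt (by
      simp only [minSmoothness_of_isRCLikeNormedField]
      exact WithTop.coe_le_coe.2 (le_top : (2 : ℕ∞) ≤ ⊤))
  exact hsym.eq u v

/-- A local isometry from `(V', g')` to `(V, g)`. -/
structure RLocIso (g : RMetric n) (V : Set (EE n)) (g' : RMetric n) (V' : Set (EE n))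
    (Φ : EE n → EE n) : Prop where
  hg : IsRMetricOn g V
  hg' : IsRMetricOn g' V'
  smooth : ContDiffOn ℝ ∞ Φ V'
  maps : MapsTo Φ V' V
  iso : ∀ x ∈ V', ∀ v, gquad g' x v = gquad g (Φ x) (fderiv ℝ Φ x v)

variable {g g' : RMetric n} {V V' : Set (EE n)} {Φ : EE n → EE n}

theorem RLocIso.diff (h : RLocIso g V g' V' Φ) {x : EE n} (hx : x ∈ V') : DifferentiableAt ℝ Φ x :=
  differentiableAt_of_smoothE h.hg'.isOpen h.smooth hx

theorem RLocIso.fsmooth (h : RLocIso g V g' V' Φ) : ContDiffOn ℝ ∞ (fderiv ℝ Φ) V' :=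
  h.smooth.fderiv_of_isOpen h.hg'.isOpen (by simp)

theorem RLocIso.ffsmooth (h : RLocIso g V g' V' Φ) : ContDiffOn ℝ ∞ (fderiv ℝ (fderiv ℝ Φ)) V' :=
  h.fsmooth.fderiv_of_isOpen h.hg'.isOpen (by simp)

theorem RLocIso.fdiff (h : RLocIso g V g' V' Φ) {x : EE n} (hx : x ∈ V') :
    DifferentiableAt ℝ (fderiv ℝ Φ) x :=
  differentiableAt_of_smoothE h.hg'.isOpen h.fsmooth hx

theorem RLocIso.ffdiff (h : RLocIso g V g' V' Φ) {x : EE n} (hx : x ∈ V') :
    DifferentiableAt ℝ (fderiv ℝ (fderiv ℝ Φ)) x :=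
  differentiableAt_of_smoothE h.hg'.isOpen h.ffsmooth hx

theorem RLocIso.bl (h : RLocIso g V g' V' Φ) {x : EE n} (hx : x ∈ V') (u v : EE n) :
    BL g' x u v = BL g (Φ x) (fderiv ℝ Φ x u) (fderiv ℝ Φ x v) :=
  BL_polar h.hg h.hg' (h.maps hx) hx (fderiv ℝ Φ x) (h.iso x hx) u v

theorem RLocIso.injective (h : RLocIso g V g' V' Φ) {x : EE n} (hx : x ∈ V') :
    Function.Injective (fderiv ℝ Φ x) := by
  rw [injective_iff_map_eq_zero]
  intro v hv
  by_contra h0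
  have h1 := gquad_pos h.hg' hx h0
  rw [h.iso x hx, hv] at h1
  simp [gquad] at h1

theorem RLocIso.surjective (h : RLocIso g V g' V' Φ) {x : EE n} (hx : x ∈ V') :
    Function.Surjective (fderiv ℝ Φ x) :=
  (LinearMap.injective_iff_surjective (f := (fderiv ℝ Φ x : EE n →ₗ[ℝ] EE n))).1 (h.injective hx)

theorem RLocIso.dbl (h : RLocIso g V g' V' Φ) {x : EE n} (hx : x ∈ V') (a u v : EE n) :
    fderiv ℝ (BL g') x a u v
      = fderiv ℝ (BL g) (Φ x) (fderiv ℝ Φ x a) (fderiv ℝ Φ x u) (fderiv ℝ Φ x v)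
        + BL g (Φ x) (fderiv ℝ (fderiv ℝ Φ) x a u) (fderiv ℝ Φ x v)
        + BL g (Φ x) (fderiv ℝ Φ x u) (fderiv ℝ (fderiv ℝ Φ) x a v) := by
  have h1 : DifferentiableAt ℝ (BL g') x :=
    differentiableAt_of_smoothE h.hg'.isOpen (BL_smooth h.hg') hx
  have h2 : DifferentiableAt ℝ (BL g) (Φ x) :=
    differentiableAt_of_smoothE h.hg.isOpen (BL_smooth h.hg) (h.maps hx)
  rw [← fderiv_clm_apply_const h1 u a,
    ← fderiv_clm_apply_const (differentiableAt_clm_apply h1 u) v a]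
  have h3 : EqOn (fun y => BL g' y u v) (fun y => BL g (Φ y) (fderiv ℝ Φ y u) (fderiv ℝ Φ y v)) V' :=
    fun y hy => h.bl hy u v
  rw [fderiv_congr_of_eqOn h.hg'.isOpen hx h3]
  exact fderiv_pull h2 (h.diff hx) (h.fdiff hx) u v a

/-- transformation law of the Levi-Civita connection -/
theorem RLocIso.law (h : RLocIso g V g' V' Φ) {x : EE n} (hx : x ∈ V') (u v : EE n) :
    fderiv ℝ Φ x (GamL g' x u v)
      = fderiv ℝ (fderiv ℝ Φ) x u v + GamL g (Φ x) (fderiv ℝ Φ x u) (fderiv ℝ Φ x v) := by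
  have hx' := h.maps hx
  rw [← sub_eq_zero]
  refine BL_nondeg h.hg hx' fun w' => ?_
  obtain ⟨w, rfl⟩ := h.surjective hx w'
  have k1 := koszul h.hg' hx u v w
  have k2 := koszul h.hg hx' (fderiv ℝ Φ x u) (fderiv ℝ Φ x v) (fderiv ℝ Φ x w)
  rw [h.bl hx, h.dbl hx, h.dbl hx, h.dbl hx] at k1
  have s1 := snd_symm h.hg'.isOpen h.smooth hx u v
  have s2 := snd_symm h.hg'.isOpen h.smooth hx u w
  have s3 := snd_symm h.hg'.isOpen h.smooth hx v w
  rw [s1, s2, s3] at k1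
  rw [s1]
  have t1 := BL_symm h.hg hx' (fderiv ℝ Φ x v) (fderiv ℝ (fderiv ℝ Φ) x w u)
  simp only [map_sub, map_add, sub_apply, add_apply]
  linarith

end Pool.Agent.MP39e402.RR
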