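import Pool.Agent.Lib.MP_39e402_gt.R.Pull2

/-! Part R1, third file: naturality of the curvature and of the Ricci tensor. -/

open Set Filter Topology
open scoped ContDiff BigOperators

set_option linter.unusedSimpArgs false

noncomputable section

namespace Pool.Agent.MP39e402.RR

variable {n : ℕ} {g g' : RMetric n} {V V' : Set (EE n)} {Φ : EE n → EE n}

/-- the curvature tensor `R(a, u) v` -/
def curvL (g : RMetric n) (x a u v : EE n) : EE n :=
  fderiv ℝ (GamL g) x a u v - fderiv ℝ (GamL g) x u a v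
    + GamL g x a (GamL g x u v) - GamL g x u (GamL g x a v)

/-- the differentiated transformation law -/
theorem RLocIso.dlaw (h : RLocIso g V g' V' Φ) {x : EE n} (hx : x ∈ V') (a u v : EE n) :
    fderiv ℝ (fderiv ℝ Φ) x a (GamL g' x u v) + fderiv ℝ Φ x (fderiv ℝ (GamL g') x a u v)
      = fderiv ℝ (fderiv ℝ (fderiv ℝ Φ)) x a u v
        + (fderiv ℝ (GamL g) (Φ x) (fderiv ℝ Φ x a) (fderiv ℝ Φ x u) (fderiv ℝ Φ x v)
        + GamL g (Φ x) (fderiv ℝ (fderiv ℝ Φ) x a u) (fderiv ℝ Φ x v)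
        + GamL g (Φ x) (fderiv ℝ Φ x u) (fderiv ℝ (fderiv ℝ Φ) x a v)) := by
  have hG' : DifferentiableAt ℝ (GamL g') x :=
    differentiableAt_of_smoothE h.hg'.isOpen (GamL_smooth h.hg') hx
  have hG : DifferentiableAt ℝ (GamL g) (Φ x) :=
    differentiableAt_of_smoothE h.hg.isOpen (GamL_smooth h.hg) (h.maps hx)
  have hGu := differentiableAt_clm_apply hG' u
  have hGuv := differentiableAt_clm_apply hGu v
  have e1 : EqOn (fun y => fderiv ℝ Φ y (GamL g' y u v))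
      (fun y => fderiv ℝ (fderiv ℝ Φ) y u v + GamL g (Φ y) (fderiv ℝ Φ y u) (fderiv ℝ Φ y v)) V' :=
    fun y hy => h.law hy u v
  have e2 := congrArg (fun T => T a) (fderiv_congr_of_eqOn h.hg'.isOpen hx e1)
  have e3 : fderiv ℝ (fun y => fderiv ℝ Φ y (GamL g' y u v)) x a
      = fderiv ℝ (fderiv ℝ Φ) x a (GamL g' x u v) + fderiv ℝ Φ x (fderiv ℝ (GamL g') x a u v) := by
    rw [fderiv_clm_apply' (h.fdiff hx) hGuv a, fderiv_clm_apply_const hGu v a,
      fderiv_clm_apply_const hG' u a]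
  have hff := h.ffdiff hx
  have hffu := differentiableAt_clm_apply hff u
  have hffuv := differentiableAt_clm_apply hffu v
  have e4 : fderiv ℝ (fun y => fderiv ℝ (fderiv ℝ Φ) y u v) x a
      = fderiv ℝ (fderiv ℝ (fderiv ℝ Φ)) x a u v := by
    rw [fderiv_clm_apply_const hffu v a, fderiv_clm_apply_const hff u a]
  have hTΦ : HasFDerivAt (fun y => GamL g (Φ y)) ((fderiv ℝ (GamL g) (Φ x)).comp (fderiv ℝ Φ x)) x :=
    hasFDerivAt_comp' (B := EE n →L[ℝ] EE n →L[ℝ] EE n) hG (h.diff hx)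
  have hd : DifferentiableAt ℝ (fun y => GamL g (Φ y) (fderiv ℝ Φ y u) (fderiv ℝ Φ y v)) x :=
    differentiableAt_clm_apply' (differentiableAt_clm_apply' hTΦ.differentiableAt
      (differentiableAt_clm_apply (h.fdiff hx) u)) (differentiableAt_clm_apply (h.fdiff hx) v)
  have e5 : fderiv ℝ (fun y => fderiv ℝ (fderiv ℝ Φ) y u v
        + GamL g (Φ y) (fderiv ℝ Φ y u) (fderiv ℝ Φ y v)) x a
      = fderiv ℝ (fun y => fderiv ℝ (fderiv ℝ Φ) y u v) x a
        + fderiv ℝ (fun y => GamL g (Φ y) (fderiv ℝ Φ y u) (fderiv ℝ Φ y v)) x a := by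
    rw [fderiv_fun_add hffuv hd]; rfl
  rw [← e3, ← e4, ← fderiv_pull hG (h.diff hx) (h.fdiff hx) u v a, ← e5]
  exact e2

/-- naturality of the curvature -/
theorem RLocIso.curv (h : RLocIso g V g' V' Φ) {x : EE n} (hx : x ∈ V') (a u v : EE n) :
    fderiv ℝ Φ x (curvL g' x a u v)
      = curvL g (Φ x) (fderiv ℝ Φ x a) (fderiv ℝ Φ x u) (fderiv ℝ Φ x v) := by
  have d1 := h.dlaw hx a u v
  have d2 := h.dlaw hx u a v
  have s1 := snd_symm h.hg'.isOpen h.smooth hx a u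
  have s2 : fderiv ℝ (fderiv ℝ (fderiv ℝ Φ)) x a u = fderiv ℝ (fderiv ℝ (fderiv ℝ Φ)) x u a :=
    snd_symm h.hg'.isOpen h.fsmooth hx a u
  have l1 := h.law hx a (GamL g' x u v)
  have l2 := h.law hx u (GamL g' x a v)
  have l3 := h.law hx u v
  have l4 := h.law hx a v
  rw [s1, s2] at d1
  unfold curvL
  rw [map_sub, map_add, map_sub, l1, l2, l3, l4]
  rw [map_add, map_add]
  have d4 : fderiv ℝ Φ x (fderiv ℝ (GamL g') x a u v) - fderiv ℝ Φ x (fderiv ℝ (GamL g') x u a v)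
      = fderiv ℝ (GamL g) (Φ x) (fderiv ℝ Φ x a) (fderiv ℝ Φ x u) (fderiv ℝ Φ x v)
        - fderiv ℝ (GamL g) (Φ x) (fderiv ℝ Φ x u) (fderiv ℝ Φ x a) (fderiv ℝ Φ x v)
        + GamL g (Φ x) (fderiv ℝ Φ x u) (fderiv ℝ (fderiv ℝ Φ) x a v)
        - GamL g (Φ x) (fderiv ℝ Φ x a) (fderiv ℝ (fderiv ℝ Φ) x u v)
        - fderiv ℝ (fderiv ℝ Φ) x a (GamL g' x u v) + fderiv ℝ (fderiv ℝ Φ) x u (GamL g' x a v) := by
    linear_combination (norm := module) d1 - d2
  rw [d4]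
  abel

end Pool.Agent.MP39e402.RR
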