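import Pool.Agent.Lib.MP_39e402_gt.Defs

/-! # MP_39e402, module RC-Sph: spherical coordinates from a map to `S²`.

`p1² + p2² + p3² = 1`, all positive, `T = arcsin p1`, `X = arctan (p3/p2)`.
`cos T = √(1 - p1²) = √(p2²+p3²) =: c`, `cos X = p2/c`, `sin X = p3/c` (`Real.cos_arctan`, `Real.sin_arctan`).
Derivatives: from `sin T = p1`: `cos T dT = dp1`; from `cos T cos X = p2`, `cos T sin X = p3`:
`dp2 = -sin T cos X dT - cos T sin X dX`, `dp3 = -sin T sin X dT + cos T cos X dX`; hence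
`dp1² + dp2² + dp3² = dT² + cos² T dX²`.  (Differentiate the three identities, which hold on the open set `V`, with
`HasFDerivAt.congr_of_eventuallyEq`.) -/

open Real Set Filter Topology
open scoped ContDiff

noncomputable section

namespace Pool.Agent.MP39e402.RR

theorem sph_coord {V : Set (EE 4)} (hV : IsOpen V) {p1 p2 p3 : EE 4 → ℝ}
    (s1 : ContDiffOn ℝ ∞ p1 V) (s2 : ContDiffOn ℝ ∞ p2 V) (s3 : ContDiffOn ℝ ∞ p3 V)
    (h1 : ∀ y ∈ V, 0 < p1 y) (h2 : ∀ y ∈ V, 0 < p2 y) (h3 : ∀ y ∈ V, 0 < p3 y)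
    (hs : ∀ y ∈ V, p1 y ^ 2 + p2 y ^ 2 + p3 y ^ 2 = 1) :
    ContDiffOn ℝ ∞ (fun y => arcsin (p1 y)) V ∧ ContDiffOn ℝ ∞ (fun y => arctan (p3 y / p2 y)) V ∧
    ∀ y ∈ V, 0 < arcsin (p1 y) ∧ arcsin (p1 y) < π / 2 ∧ 0 < arctan (p3 y / p2 y) ∧
      arctan (p3 y / p2 y) < π / 2 ∧ sin (arcsin (p1 y)) = p1 y ∧
      cos (arcsin (p1 y)) * cos (arctan (p3 y / p2 y)) = p2 y ∧
      cos (arcsin (p1 y)) * sin (arctan (p3 y / p2 y)) = p3 y ∧
      ∀ v : EE 4, (fderiv ℝ (fun y => arcsin (p1 y)) y v) ^ 2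
        + cos (arcsin (p1 y)) ^ 2 * (fderiv ℝ (fun y => arctan (p3 y / p2 y)) y v) ^ 2
        = (fderiv ℝ p1 y v) ^ 2 + (fderiv ℝ p2 y v) ^ 2 + (fderiv ℝ p3 y v) ^ 2 := by
  have hlt : ∀ y ∈ V, p1 y < 1 := by
    intro y hy
    nlinarith [h1 y hy, h2 y hy, h3 y hy, hs y hy, sq_nonneg (p1 y - 1),
      mul_pos (h2 y hy) (h2 y hy), mul_pos (h3 y hy) (h3 y hy)]
  have hT : ContDiffOn ℝ ∞ (fun y => arcsin (p1 y)) V := by
    intro y hy
    have ha : ContDiffAt ℝ ∞ arcsin (p1 y) :=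
      Real.contDiffAt_arcsin (by have := h1 y hy; linarith) (ne_of_lt (hlt y hy))
    exact ha.comp_contDiffWithinAt y (s1 y hy)
  have hX : ContDiffOn ℝ ∞ (fun y => arctan (p3 y / p2 y)) V :=
    Real.contDiff_arctan.comp_contDiffOn (s3.div s2 fun y hy => (h2 y hy).ne')
  have hsin : ∀ y ∈ V, sin (arcsin (p1 y)) = p1 y := fun y hy =>
    Real.sin_arcsin (by have := h1 y hy; linarith) (hlt y hy).le
  have hcos : ∀ y ∈ V, cos (arcsin (p1 y)) = √(p2 y ^ 2 + p3 y ^ 2) := by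
    intro y hy
    rw [Real.cos_arcsin]
    congr 1
    linarith [hs y hy]
  have hc0 : ∀ y ∈ V, 0 < √(p2 y ^ 2 + p3 y ^ 2) := fun y hy =>
    Real.sqrt_pos.2 (by have := h2 y hy; positivity)
  have hq : ∀ y ∈ V, √(1 + (p3 y / p2 y) ^ 2) = √(p2 y ^ 2 + p3 y ^ 2) / p2 y := by
    intro y hy
    have hp := h2 y hy
    have e : 1 + (p3 y / p2 y) ^ 2 = (p2 y ^ 2 + p3 y ^ 2) / p2 y ^ 2 := by
      field_simp
    rw [e, Real.sqrt_div (by positivity), Real.sqrt_sq hp.le]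
  have hcc : ∀ y ∈ V, cos (arcsin (p1 y)) * cos (arctan (p3 y / p2 y)) = p2 y := by
    intro y hy
    have hp := h2 y hy
    have hc := hc0 y hy
    rw [hcos y hy, Real.cos_arctan, hq y hy]
    field_simp
  have hcs : ∀ y ∈ V, cos (arcsin (p1 y)) * sin (arctan (p3 y / p2 y)) = p3 y := by
    intro y hy
    have hp := h2 y hy
    have hc := hc0 y hy
    rw [hcos y hy, Real.sin_arctan, hq y hy]
    field_simp
  refine ⟨hT, hX, fun y hy => ⟨Real.arcsin_pos.2 (h1 y hy),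
    Real.arcsin_lt_pi_div_two.2 (hlt y hy), Real.arctan_pos.2 (div_pos (h3 y hy) (h2 y hy)),
    Real.arctan_lt_pi_div_two _, hsin y hy, hcc y hy, hcs y hy, fun v => ?_⟩⟩
  have hVy : V ∈ 𝓝 y := hV.mem_nhds hy
  have dT : HasFDerivAt (fun y => arcsin (p1 y)) (fderiv ℝ (fun y => arcsin (p1 y)) y) y :=
    ((hT.contDiffAt hVy).differentiableAt (by simp)).hasFDerivAt
  have dX : HasFDerivAt (fun y => arctan (p3 y / p2 y))
      (fderiv ℝ (fun y => arctan (p3 y / p2 y)) y) y :=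
    ((hX.contDiffAt hVy).differentiableAt (by simp)).hasFDerivAt
  have e1 : fderiv ℝ p1 y v = cos (arcsin (p1 y)) * fderiv ℝ (fun y => arcsin (p1 y)) y v := by
    have h := dT.sin
    have h' := h.congr_of_eventuallyEq (f₁ := p1)
      (Filter.eventually_of_mem hVy fun z hz => (hsin z hz).symm)
    rw [h'.fderiv]
    simp
  have e2 : fderiv ℝ p2 y v =
      -(sin (arcsin (p1 y)) * cos (arctan (p3 y / p2 y)) *
        fderiv ℝ (fun y => arcsin (p1 y)) y v)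
      - cos (arcsin (p1 y)) * sin (arctan (p3 y / p2 y)) *
        fderiv ℝ (fun y => arctan (p3 y / p2 y)) y v := by
    have h := dT.cos.mul dX.cos
    have h' := h.congr_of_eventuallyEq (f₁ := p2)
      (Filter.eventually_of_mem hVy fun z hz => (hcc z hz).symm)
    rw [h'.fderiv]
    simp
    ring
  have e3 : fderiv ℝ p3 y v =
      -(sin (arcsin (p1 y)) * sin (arctan (p3 y / p2 y)) *
        fderiv ℝ (fun y => arcsin (p1 y)) y v)
      + cos (arcsin (p1 y)) * cos (arctan (p3 y / p2 y)) *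
        fderiv ℝ (fun y => arctan (p3 y / p2 y)) y v := by
    have h := dT.cos.mul dX.sin
    have h' := h.congr_of_eventuallyEq (f₁ := p3)
      (Filter.eventually_of_mem hVy fun z hz => (hcs z hz).symm)
    rw [h'.fderiv]
    simp
    ring
  rw [e1, e2, e3]
  generalize fderiv ℝ (fun y => arcsin (p1 y)) y v = A
  generalize fderiv ℝ (fun y => arctan (p3 y / p2 y)) y v = B
  have t1 := Real.sin_sq_add_cos_sq (arcsin (p1 y))
  have t2 := Real.sin_sq_add_cos_sq (arctan (p3 y / p2 y))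
  generalize sin (arcsin (p1 y)) = a at *
  generalize cos (arcsin (p1 y)) = b at *
  generalize sin (arctan (p3 y / p2 y)) = c at *
  generalize cos (arctan (p3 y / p2 y)) = d at *
  linear_combination (-(A ^ 2)) * t1 - (a ^ 2 * A ^ 2 + b ^ 2 * B ^ 2) * t2

end Pool.Agent.MP39e402.RR
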