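import Pool.Agent.Lib.MP_39e402_gt.R.TypeU
import Pool.Agent.Lib.MP_39e402_gt.LPar

/-! # MP_39e402, module RC-UCap: the cap has nonnegative Ricci curvature.

`UU b f = dx0² + b² (dx1² + sin² x1 cos² x1 dx2²) + f² (dx3 + sin² x1 dx2)²`, criterion `ricGE_UU` (R/TypeU).
Here `b = B`, `f = B √V(B)` with `V = 1 - U`, `B' = √V(B)`.  On the interval (write `V, V', V''` at `B s`):
`B'' = V'/2`, `f' = V + B V'/2`, `f'' = (3 V'/2 + B V''/2) √V`.  Hence
* `-2B''/B - f''/f = -(5V'/(2B) + V''/2) = (U'' + 5U'/B)/2 ≥ 0` (`IsCap.ric0`),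
* `-f''/f - 2f'B'/(fB) + 2f²/B⁴ = -3V'/(2B) - V''/2 - V'/B` = the same,
* `-B''/B - B'²/B² - f'B'/(fB) + 4/B² - 2f²/B⁴ = (B U' + 4U)/B² ≥ 0` (`IsCap.ric1`).
Use `HasDerivAt` of `fun s => √(1 - U (B s))` (value `V' B'/(2√V) = V'/2`), valid on the open interval, then
`Filter.EventuallyEq.deriv_eq` for the second derivatives.  `0 < 1 - U (B s)` by `IsCap.lt_one`. -/

open Real Set Filter Topology
open scoped ContDiff

noncomputable section

namespace Pool.Agent.MP39e402.RR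

theorem ric_cap {ρ1 a : ℝ} {U : ℝ → ℝ} (hU : IsCap ρ1 a U) {B : ℝ → ℝ} {τ : ℝ}
    (hB : ContDiffOn ℝ ∞ B (Ioo (-τ) τ)) (hBI : ∀ s ∈ Ioo (-τ) τ, a < B s ∧ B s < 1)
    (hB' : ∀ s ∈ Ioo (-τ) τ, HasDerivAt B (√(1 - U (B s))) s) :
    UUData B (fun s => B s * √(1 - U (B s))) (Ioo (-τ) τ) ∧
      RicGE (UU B (fun s => B s * √(1 - U (B s)))) (UDom (Ioo (-τ) τ)) 0 := by
  have hopen : IsOpen (Ioo (-τ) τ) := isOpen_Ioo
  have hBpos : ∀ s ∈ Ioo (-τ) τ, 0 < B s := fun s hs => hU.a_pos.trans (hBI s hs).1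
  have hVpos : ∀ s ∈ Ioo (-τ) τ, 0 < 1 - U (B s) := fun s hs => by
    have := hU.lt_one (B s) (hBI s hs).1 (hBI s hs).2
    linarith
  have hRpos : ∀ s ∈ Ioo (-τ) τ, 0 < √(1 - U (B s)) := fun s hs => Real.sqrt_pos.2 (hVpos s hs)
  have hRsq : ∀ s ∈ Ioo (-τ) τ, √(1 - U (B s)) * √(1 - U (B s)) = 1 - U (B s) := fun s hs =>
    Real.mul_self_sqrt (hVpos s hs).le
  have hsU : ContDiffOn ℝ ∞ (deriv U) (Ioi 0) := hU.smooth.deriv_of_isOpen isOpen_Ioi (by simp)
  have hdU : ∀ ρ, 0 < ρ → HasDerivAt U (deriv U ρ) ρ := fun ρ hρ =>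
    ((hU.smooth.contDiffAt (isOpen_Ioi.mem_nhds hρ)).differentiableAt (by simp)).hasDerivAt
  have hddU : ∀ ρ, 0 < ρ → HasDerivAt (deriv U) (deriv (deriv U) ρ) ρ := fun ρ hρ =>
    ((hsU.contDiffAt (isOpen_Ioi.mem_nhds hρ)).differentiableAt (by simp)).hasDerivAt
  have hR : ∀ s ∈ Ioo (-τ) τ, HasDerivAt (fun s => √(1 - U (B s))) (-(deriv U (B s)) / 2) s := by
    intro s hs
    have h1 : HasDerivAt (fun s => 1 - U (B s)) (0 - deriv U (B s) * √(1 - U (B s))) s :=
      (hasDerivAt_const s (1:ℝ)).sub ((hdU _ (hBpos s hs)).comp s (hB' s hs))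
    have h2 := h1.sqrt (hVpos s hs).ne'
    convert h2 using 1
    have := (hRpos s hs).ne'
    field_simp
    ring
  have hf' : ∀ s ∈ Ioo (-τ) τ, HasDerivAt (fun s => B s * √(1 - U (B s)))
      (√(1 - U (B s)) * √(1 - U (B s)) + B s * (-(deriv U (B s)) / 2)) s := fun s hs =>
    (hB' s hs).mul (hR s hs)
  have hdB : EqOn (deriv B) (fun s => √(1 - U (B s))) (Ioo (-τ) τ) := fun s hs => (hB' s hs).deriv
  have hdf : EqOn (deriv (fun s => B s * √(1 - U (B s))))
      (fun s => √(1 - U (B s)) * √(1 - U (B s)) + B s * (-(deriv U (B s)) / 2)) (Ioo (-τ) τ) :=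
    fun s hs => (hf' s hs).deriv
  have hddB : ∀ s ∈ Ioo (-τ) τ, deriv (deriv B) s = -(deriv U (B s)) / 2 := by
    intro s hs
    have e : deriv B =ᶠ[𝓝 s] (fun s => √(1 - U (B s))) := by
      filter_upwards [hopen.mem_nhds hs] with t ht using hdB ht
    rw [e.deriv_eq, (hR s hs).deriv]
  have hddf : ∀ s ∈ Ioo (-τ) τ, deriv (deriv (fun s => B s * √(1 - U (B s)))) s =
      -(3 / 2 * deriv U (B s) + B s * deriv (deriv U) (B s) / 2) * √(1 - U (B s)) := by
    intro s hs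
    have e : deriv (fun s => B s * √(1 - U (B s))) =ᶠ[𝓝 s]
        (fun s => √(1 - U (B s)) * √(1 - U (B s)) + B s * (-(deriv U (B s)) / 2)) := by
      filter_upwards [hopen.mem_nhds hs] with t ht using hdf ht
    have h1 : HasDerivAt (fun s => deriv U (B s)) (deriv (deriv U) (B s) * √(1 - U (B s))) s :=
      (hddU _ (hBpos s hs)).comp s (hB' s hs)
    have h2 := ((hR s hs).mul (hR s hs)).add ((hB' s hs).mul ((h1.neg).div_const 2))
    rw [e.deriv_eq]
    have h3 := h2.deriv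
    refine Eq.trans ?_ (h3.trans ?_)
    · rfl
    · simp only [Pi.neg_apply]
      ring
  have hData : UUData B (fun s => B s * √(1 - U (B s))) (Ioo (-τ) τ) :=
    { isOpen := hopen
      sb := hB
      sf := by
        refine hB.mul (ContDiffOn.sqrt (contDiffOn_const.sub (hU.smooth.comp hB fun s hs => hBpos s hs))
          fun s hs => (hVpos s hs).ne')
      pb := hBpos
      pf := fun s hs => mul_pos (hBpos s hs) (hRpos s hs) }
  refine ⟨hData, ricGE_UU hData ?_ ?_ ?_⟩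
  · intro s hs
    have hb := hBpos s hs
    have hr := hRpos s hs
    have h0 := hU.ric0 (B s) hb
    rw [hddB s hs, hddf s hs]
    have : -2 * (-(deriv U (B s)) / 2) / B s - -(3 / 2 * deriv U (B s) +
        B s * deriv (deriv U) (B s) / 2) * √(1 - U (B s)) / (B s * √(1 - U (B s)))
        = (deriv (deriv U) (B s) + 5 * deriv U (B s) / B s) / 2 := by
      field_simp
      ring
    rw [this]
    positivity
  · intro s hs
    have hb := hBpos s hs
    have hr := hRpos s hs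
    have h0 := hU.ric1 (B s) hb
    rw [hddB s hs, hdB hs, hdf hs]
    have hsq := hRsq s hs
    simp only
    generalize √(1 - U (B s)) = R at *
    have : -(-(deriv U (B s)) / 2) / B s - R ^ 2 / B s ^ 2
        - (R * R + B s * (-(deriv U (B s)) / 2)) * R / (B s * R * B s) + 4 / B s ^ 2
        - 2 * (B s * R) ^ 2 / B s ^ 4
        = (B s * deriv U (B s) + 4 * (1 - R * R)) / B s ^ 2 := by
      field_simp
      ring
    rw [this, hsq]
    have : B s * deriv U (B s) + 4 * (1 - (1 - U (B s))) = B s * deriv U (B s) + 4 * U (B s) := by ring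
    rw [this]
    positivity
  · intro s hs
    have hb := hBpos s hs
    have hr := hRpos s hs
    have h0 := hU.ric0 (B s) hb
    rw [hddf s hs, hdB hs, hdf hs]
    simp only
    have : -(-(3 / 2 * deriv U (B s) + B s * deriv (deriv U) (B s) / 2) * √(1 - U (B s))) /
          (B s * √(1 - U (B s)))
        - 2 * (√(1 - U (B s)) * √(1 - U (B s)) + B s * (-(deriv U (B s)) / 2)) * √(1 - U (B s)) /
          (B s * √(1 - U (B s)) * B s)
        + 2 * (B s * √(1 - U (B s))) ^ 2 / B s ^ 4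
        = (deriv (deriv U) (B s) + 5 * deriv U (B s) / B s) / 2 := by
      field_simp
      ring
    rw [this]
    positivity

end Pool.Agent.MP39e402.RR
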