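import Pool.Agent.Lib.MP_39e402_gt.R.TypeU
import Pool.Agent.Lib.MP_39e402_gt.LPar

/-! # MP_39e402, module RC-UEdge: Fubini-Study with smoothed edge has nonnegative Ricci curvature.

`UU b f` with `b = cos`, `f = 2Ψ(w)`, `w = sin s cos s` (`w' = cos 2s`, `w'' = -4w`), criterion `ricGE_UU`.
Write `p = wΨ'/Ψ ∈ [1-ε,1]`, `q = Ψ''/Ψ ≤ ε`, `T = tan² s`; `f'/f = p w'/w`, `(f'/f) tan s = p (1 - T)`,
`f''/f = q w'² - 4p ≤ ε - 4(1-ε)`, `w ≤ f ≤ 2w`, `w²/cos⁴ s = T`.
* `-2b''/b - f''/f ≥ 2 + 4(1-ε) - ε ≥ 0`.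
* `-f''/f - 2f'b'/(fb) + 2f²/b⁴ ≥ 4 - 5ε + 2p(1-T) + 2T ≥ 0`.
* `-b''/b - b'²/b² - f'b'/(fb) + 4/b² - 2f²/b⁴ = 1 - T + p(1-T) + 4(1+T) - 2f²/b⁴`.  If `w ≥ δ` near the point then
  `Ψ(w) = w/2`, `f = w`, `p = 1` (at a point with `w = δ` use `IsEdge.far` for the value and `p ≤ 1`, or continuity)
  and it is `≥ 5 + 3T + p(1-T) - 2T ≥ 0` (for `T ≥ 1` use `p ≤ 1`, for `T ≤ 1` use `p ≥ 0`).
  If `w ≤ δ ≤ 1/10`: then `sin s ≤ w/cos s ≤ 4δ ≤ 2/5`, so `T ≤ 1/5`, `f ≤ 2w` and it is `≥ (5+p)(1-T) ≥ 0`. -/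

open Real Set Filter Topology
open scoped ContDiff

noncomputable section

namespace Pool.Agent.MP39e402.RR

/-- distance to `F` in the Fubini-Study zone away from `P` -/
def IFS : Set ℝ := {s | 0 < s ∧ s < π / 2 ∧ 1 / 4 < cos s}

theorem isOpen_IFS : IsOpen IFS :=
  (isOpen_lt continuous_const continuous_id).inter
    ((isOpen_lt continuous_id continuous_const).inter
      (isOpen_lt continuous_const Real.continuous_cos))

section
variable {Ψ : ℝ → ℝ} (hΨ : ContDiff ℝ ∞ Ψ)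
include hΨ

theorem fsedge_hasDeriv (t : ℝ) : HasDerivAt (fun s => 2 * Ψ (sin s * cos s))
    (2 * (deriv Ψ (sin t * cos t) * (cos t ^ 2 - sin t ^ 2))) t := by
  have h1 := ((hΨ.differentiable (by simp)) (sin t * cos t)).hasDerivAt
  have h2 : HasDerivAt (fun s => sin s * cos s) (cos t ^ 2 - sin t ^ 2) t :=
    ((Real.hasDerivAt_sin t).mul (Real.hasDerivAt_cos t)).congr_deriv (by ring)
  exact (h1.comp t h2).const_mul 2

theorem fsedge_deriv : deriv (fun s => 2 * Ψ (sin s * cos s)) =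
    fun t => 2 * (deriv Ψ (sin t * cos t) * (cos t ^ 2 - sin t ^ 2)) :=
  funext fun t => (fsedge_hasDeriv hΨ t).deriv

theorem fsedge_deriv2 (t : ℝ) : deriv (deriv (fun s => 2 * Ψ (sin s * cos s))) t =
    2 * (deriv (deriv Ψ) (sin t * cos t) * (cos t ^ 2 - sin t ^ 2) ^ 2
      - 4 * (sin t * cos t) * deriv Ψ (sin t * cos t)) := by
  rw [fsedge_deriv hΨ]
  have h0 : ContDiff ℝ ∞ (deriv Ψ) := (contDiff_infty_iff_deriv.1 hΨ).2
  have h1 := ((h0.differentiable (by simp)) (sin t * cos t)).hasDerivAt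
  have h2 : HasDerivAt (fun s => sin s * cos s) (cos t ^ 2 - sin t ^ 2) t :=
    ((Real.hasDerivAt_sin t).mul (Real.hasDerivAt_cos t)).congr_deriv (by ring)
  have h3 : HasDerivAt (fun s => cos s ^ 2 - sin s ^ 2) (-4 * (sin t * cos t)) t :=
    (((Real.hasDerivAt_cos t).pow 2).sub ((Real.hasDerivAt_sin t).pow 2)).congr_deriv (by
      simp; ring)
  have h4 := ((HasDerivAt.comp t h1 h2).mul h3).const_mul 2
  refine (h4.congr_deriv ?_).deriv
  simp only [Function.comp_apply]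
  ring
end

theorem deriv_deriv_cos' (t : ℝ) : deriv (deriv cos) t = -cos t := by
  have : deriv cos = fun t => -sin t := funext fun t => Real.deriv_cos
  rw [this]
  exact (Real.hasDerivAt_sin t).neg.deriv

theorem ric_fsedge {ε δ : ℝ} {Ψ : ℝ → ℝ} (h : IsEdge ε δ Ψ) (hε0 : 0 ≤ ε) (hε : ε ≤ 1 / 10)
    (hδ : δ ≤ 1 / 10) :
    UUData cos (fun s => 2 * Ψ (sin s * cos s)) IFS ∧
      RicGE (UU cos (fun s => 2 * Ψ (sin s * cos s))) (UDom IFS) 0 := by
  have hs : ∀ t ∈ IFS, 0 < sin t := fun t ht =>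
    Real.sin_pos_of_pos_of_lt_pi ht.1 (by have := ht.2.1; linarith [Real.pi_pos])
  have hc : ∀ t ∈ IFS, 0 < cos t := fun t ht => by have := ht.2.2; linarith
  have hP : ∀ t ∈ IFS, 0 < Ψ (sin t * cos t) := fun t ht => by
    have h1 := mul_pos (hs t ht) (hc t ht)
    have h2 := h.lb _ h1.le
    linarith
  have hU : UUData cos (fun s => 2 * Ψ (sin s * cos s)) IFS :=
    { isOpen := isOpen_IFS
      sb := Real.contDiff_cos.contDiffOn
      sf := (contDiff_const.mul (h.smooth.comp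
        (Real.contDiff_sin.mul Real.contDiff_cos))).contDiffOn
      pb := hc
      pf := fun t ht => mul_pos two_pos (hP t ht) }
  refine ⟨hU, ?_⟩
  -- bounds
  have key : ∀ t ∈ IFS, ∃ p T : ℝ, 0 ≤ p ∧ p ≤ 1 ∧ 0 ≤ T ∧ T = sin t ^ 2 / cos t ^ 2 ∧
      deriv (deriv (fun s => 2 * Ψ (sin s * cos s))) t / (2 * Ψ (sin t * cos t)) ≤ 5 * ε - 4 ∧
      deriv (fun s => 2 * Ψ (sin s * cos s)) t * deriv cos t /
        (2 * Ψ (sin t * cos t) * cos t) = -(p * (1 - T)) ∧
      2 * T ≤ 2 * (2 * Ψ (sin t * cos t)) ^ 2 / cos t ^ 4 ∧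
      2 * (2 * Ψ (sin t * cos t)) ^ 2 / cos t ^ 4 ≤ 8 * T ∧
      (δ ≤ sin t * cos t → 2 * (2 * Ψ (sin t * cos t)) ^ 2 / cos t ^ 4 = 2 * T) := by
    intro t ht
    have s0 := hs t ht
    have c0 := hc t ht
    have w0 := mul_pos s0 c0
    have P0 := hP t ht
    have b1 := h.lb _ w0.le
    have b2 := h.ub _ w0.le
    have b3 := h.dlb _ w0
    have b4 := h.dub _ w0
    have b5 := h.dd _ w0
    have b6 := h.far (sin t * cos t)
    have hsc := Real.sin_sq_add_cos_sq t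
    rw [fsedge_deriv2 h.smooth, fsedge_deriv h.smooth, Real.deriv_cos]
    beta_reduce
    have hw : (cos t ^ 2 - sin t ^ 2) ^ 2 ≤ 1 := by
      have e : (cos t ^ 2 - sin t ^ 2) ^ 2 = 1 - 4 * (sin t * cos t) ^ 2 := by
        have : (1 : ℝ) = (sin t ^ 2 + cos t ^ 2) ^ 2 := by rw [hsc]; norm_num
        rw [this]
        ring
      rw [e]
      have := sq_nonneg (sin t * cos t)
      linarith
    generalize deriv (deriv Ψ) (sin t * cos t) = E at *
    generalize deriv Ψ (sin t * cos t) = D at *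
    generalize Ψ (sin t * cos t) = P at *
    generalize sin t = s at *
    generalize cos t = c at *
    refine ⟨s * c * D / P, s ^ 2 / c ^ 2, ?_, ?_, by positivity, rfl, ?_, ?_, ?_, ?_, ?_⟩
    · refine div_nonneg (le_trans ?_ b3) P0.le
      exact mul_nonneg (by linarith) P0.le
    · rw [div_le_one P0]
      exact b4
    · rw [div_le_iff₀ (by positivity)]
      have c1 : E * (c ^ 2 - s ^ 2) ^ 2 ≤ ε * P := by
        have c2 := mul_le_mul_of_nonneg_right b5 (sq_nonneg (c ^ 2 - s ^ 2))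
        have c3 := mul_le_mul_of_nonneg_left hw (mul_nonneg hε0 P0.le)
        linarith
      linarith
    · field_simp
    · have e : 2 * (s ^ 2 / c ^ 2) = 2 * (2 * (s * c / 2)) ^ 2 / c ^ 4 := by field_simp
      rw [e]
      gcongr
    · have e : 8 * (s ^ 2 / c ^ 2) = 2 * (2 * (s * c)) ^ 2 / c ^ 4 := by
        field_simp
        ring
      rw [e]
      gcongr
    · intro hd
      rw [b6 hd]
      field_simp
  apply ricGE_UU hU
  · intro t ht
    obtain ⟨p, T, p0, p1, T0, hT, k1, k2, k3, k4, k5⟩ := key t ht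
    have c0 := hc t ht
    rw [deriv_deriv_cos']
    have e : -2 * -cos t / cos t = 2 := by field_simp
    rw [e]
    linarith
  · intro t ht
    obtain ⟨p, T, p0, p1, T0, hT, k1, k2, k3, k4, k5⟩ := key t ht
    have s0 := hs t ht
    have c0 := hc t ht
    have hsc := Real.sin_sq_add_cos_sq t
    rw [deriv_deriv_cos', k2, Real.deriv_cos]
    have e1 : - -cos t / cos t = 1 := by field_simp
    have e2 : (-sin t) ^ 2 / cos t ^ 2 = T := by rw [hT, neg_sq]
    have e3 : 4 / cos t ^ 2 = 4 * (1 + T) := by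
      rw [hT]
      field_simp
      linarith
    rw [e1, e2, e3]
    rcases le_or_gt δ (sin t * cos t) with hd | hd
    · rw [k5 hd]
      rcases le_total T 1 with h1 | h1
      · have := mul_nonneg p0 (sub_nonneg.2 h1)
        linarith
      · have := mul_nonneg (sub_nonneg.2 p1) (sub_nonneg.2 h1)
        nlinarith
    · have h4 := ht.2.2
      have h5 : sin t ≤ 2 / 5 := by nlinarith
      have h6 : sin t ^ 2 ≤ 4 / 25 := by nlinarith
      have h7 : T ≤ 1 := by
        rw [hT, div_le_one (by positivity)]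
        linarith
      have := mul_nonneg p0 (sub_nonneg.2 h7)
      linarith
  · intro t ht
    obtain ⟨p, T, p0, p1, T0, hT, k1, k2, k3, k4, k5⟩ := key t ht
    have e : -deriv (deriv (fun s => 2 * Ψ (sin s * cos s))) t / (2 * Ψ (sin t * cos t)) =
      -(deriv (deriv (fun s => 2 * Ψ (sin s * cos s))) t / (2 * Ψ (sin t * cos t))) := neg_div _ _
    have e2 : 2 * deriv (fun s => 2 * Ψ (sin s * cos s)) t * deriv cos t /
        (2 * Ψ (sin t * cos t) * cos t) = 2 * -(p * (1 - T)) := by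
      rw [← k2]
      ring
    rw [e, e2]
    rcases le_total T 1 with h1 | h1
    · have := mul_nonneg p0 (sub_nonneg.2 h1)
      linarith
    · have := mul_nonneg (sub_nonneg.2 p1) (sub_nonneg.2 h1)
      nlinarith

end Pool.Agent.MP39e402.RR
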