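import Pool.Agent.Lib.MP_39e402_gt.R.Comp
import Pool.Agent.Lib.MP_39e402_gt.R.Sph
import Pool.Agent.Lib.MP_39e402_gt.UTor

/-! Part U4: the core form in the Fubini-Study zone in terms of maps to `S²`. -/

open Set Filter Topology
open scoped ContDiff BigOperators

set_option linter.unusedSimpArgs false

noncomputable section

namespace Pool.Agent.MP39e402.RR

theorem fderiv_cos_sin {T X : EE 4 → ℝ} {y : EE 4} (hT : DifferentiableAt ℝ T y)
    (hX : DifferentiableAt ℝ X y) (u : EE 4) :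
    fderiv ℝ (fun y => Real.cos (T y) * Real.sin (X y)) y u
      = -(Real.sin (T y) * Real.sin (X y)) * fderiv ℝ T y u
        + Real.cos (T y) * Real.cos (X y) * fderiv ℝ X y u := by
  have h1 := hT.hasFDerivAt.cos.mul hX.hasFDerivAt.sin
  have h2 : HasFDerivAt (fun y => Real.cos (T y) * Real.sin (X y)) _ y := h1
  rw [h2.fderiv]
  simp
  ring

/-- composite of `tor` with a coordinate change -/
theorem fderiv_tor_Gm {T X : EE 4 → ℝ} {α β : ℝ} {V : Set (EE 4)} (hV : IsOpen V)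
    (hT : ContDiffOn ℝ ∞ T V) (hX : ContDiffOn ℝ ∞ X V) {y : EE 4} (hy : y ∈ V) (u : EE 4) :
    fderiv ℝ (fun y => tor (Gm T X α β y)) y u
      = fderiv ℝ tor (Gm T X α β y) (v4 (fderiv ℝ T y u) (fderiv ℝ X y u) (u 2) (α * u 3 + β * u 2)) := by
  have h1 : DifferentiableAt ℝ tor (Gm T X α β y) := tor_contDiff.differentiable (by simp) _
  have h2 := differentiableAt_of_smoothE hV (Gm_smooth (α := α) (β := β) hT hX) hy
  have h3 := h1.hasFDerivAt.comp y h2.hasFDerivAt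
  have h4 : HasFDerivAt (fun y => tor (Gm T X α β y)) _ y := h3
  rw [h4.fderiv, ContinuousLinearMap.comp_apply, fderiv_Gm hV hT hX hy]

theorem v4_0 (a b c d : ℝ) : v4 a b c d 0 = a := rfl
theorem v4_1 (a b c d : ℝ) : v4 a b c d 1 = b := rfl
theorem v4_2 (a b c d : ℝ) : v4 a b c d 2 = c := rfl
theorem v4_3 (a b c d : ℝ) : v4 a b c d 3 = d := rfl

theorem qC_fs (Ψ U : ℝ → ℝ) {V : Set (EE 4)} (hV : IsOpen V) {p1 p2 p3 : EE 4 → ℝ}
    (s1 : ContDiffOn ℝ ∞ p1 V) (s2 : ContDiffOn ℝ ∞ p2 V) (s3 : ContDiffOn ℝ ∞ p3 V)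
    (h1 : ∀ y ∈ V, 0 < p1 y) (h2 : ∀ y ∈ V, 0 < p2 y) (h3 : ∀ y ∈ V, 0 < p3 y)
    (hs : ∀ y ∈ V, p1 y ^ 2 + p2 y ^ 2 + p3 y ^ 2 = 1) (hta : ∀ y ∈ V, Real.arcsin (p1 y) < taC)
    (α β : ℝ) {r : EE 4 → ℝ} (hr0 : ∀ y ∈ V, 0 < r y) (hr : ∀ y ∈ V, r y ^ 2 = p1 y ^ 2 + p2 y ^ 2) :
    ContDiffOn ℝ ∞ (fun y => tor (Gm (fun y => Real.arcsin (p1 y))
      (fun y => Real.arctan (p3 y / p2 y)) α β y)) V ∧
    ∀ y ∈ V, Gm (fun y => Real.arcsin (p1 y)) (fun y => Real.arctan (p3 y / p2 y)) α β y ∈ torD ∧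
      tc (tor (Gm (fun y => Real.arcsin (p1 y)) (fun y => Real.arctan (p3 y / p2 y)) α β y))
        = Real.arcsin (p1 y) ∧
      rhoP (tor (Gm (fun y => Real.arcsin (p1 y)) (fun y => Real.arctan (p3 y / p2 y)) α β y)) = r y ∧
      (¬ r y < 1 / 2 → ∀ u, qC Ψ U (tor (Gm (fun y => Real.arcsin (p1 y))
          (fun y => Real.arctan (p3 y / p2 y)) α β y))
          (fderiv ℝ (fun y => tor (Gm (fun y => Real.arcsin (p1 y))
            (fun y => Real.arctan (p3 y / p2 y)) α β y)) y u)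
        = (fderiv ℝ p1 y u) ^ 2 + (fderiv ℝ p2 y u) ^ 2 + (fderiv ℝ p3 y u) ^ 2
          + (p1 y * p2 y / r y * u 2) ^ 2
          + (Ψ (p3 y * r y) * ((α * u 3 + β * u 2) - 2 * p2 y ^ 2 / r y ^ 2 * u 2)) ^ 2) ∧
      (r y < 1 / 2 → ∀ u, qC Ψ U (tor (Gm (fun y => Real.arcsin (p1 y))
          (fun y => Real.arctan (p3 y / p2 y)) α β y))
          (fderiv ℝ (fun y => tor (Gm (fun y => Real.arcsin (p1 y))
            (fun y => Real.arctan (p3 y / p2 y)) α β y)) y u)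
        = (fderiv ℝ p1 y u) ^ 2 + (fderiv ℝ p2 y u) ^ 2 + (fderiv ℝ p3 y u) ^ 2
          + (p1 y * p2 y / r y * u 2) ^ 2
          + (1 / (1 - U (r y)) - 1 / (1 - r y ^ 2)) * (p3 y * fderiv ℝ p3 y u / r y) ^ 2
          + r y ^ 2 * (1 - U (r y)) / 4
            * ((α * u 3 + β * u 2) - 2 * p2 y ^ 2 / r y ^ 2 * u 2) ^ 2) := by
  obtain ⟨sT, sX, hsph⟩ := sph_coord hV s1 s2 s3 h1 h2 h3 hs
  refine ⟨tor_contDiff.comp_contDiffOn (Gm_smooth sT sX), ?_⟩
  intro y hy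
  obtain ⟨t0, t1, x0, x1, e1, e2, e3, e4⟩ := hsph y hy
  have hD : Gm (fun y => Real.arcsin (p1 y)) (fun y => Real.arctan (p3 y / p2 y)) α β y ∈ torD :=
    ⟨t0, x0, x1⟩
  have hr1 : r y ^ 2 = 1 - (Real.cos (Real.arcsin (p1 y)) * Real.sin (Real.arctan (p3 y / p2 y))) ^ 2 := by
    rw [e3, hr y hy]; linarith [hs y hy]
  have hrt : rt (Real.arcsin (p1 y)) (Real.arctan (p3 y / p2 y)) = r y := by
    unfold rt
    rw [← mul_pow, ← hr1, Real.sqrt_sq (hr0 y hy).le]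
  have hrho : rhoP (tor (Gm (fun y => Real.arcsin (p1 y)) (fun y => Real.arctan (p3 y / p2 y)) α β y))
      = r y := by
    rw [tor_rhoP hD]; exact hrt
  have htc : tc (tor (Gm (fun y => Real.arcsin (p1 y)) (fun y => Real.arctan (p3 y / p2 y)) α β y))
      = Real.arcsin (p1 y) := tor_tc hD
  have hfs := isCoreC.fs (Real.arcsin (p1 y)) (hta y hy).le
  have hct : 0 < Real.cos (Real.arcsin (p1 y)) :=
    Real.cos_pos_of_mem_Ioo ⟨by linarith [Real.pi_pos], t1⟩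
  have hst : 0 < Real.sin (Real.arcsin (p1 y)) := by rw [e1]; exact h1 y hy
  obtain ⟨f1, f2, f3, f4⟩ := fs_values (x := Real.arctan (p3 y / p2 y)) hst hct (hr0 y hy) hr1
  have hNt : Nt (Real.arcsin (p1 y)) (Real.arctan (p3 y / p2 y))
      = NF Real.cos (fun s => Real.sin s * Real.cos s) (Real.arcsin (p1 y))
        (Real.arctan (p3 y / p2 y)) := by
    unfold Nt NF; rw [hfs.1, hfs.2]
  have hN0 : 0 ≤ NF Real.cos (fun s => Real.sin s * Real.cos s) (Real.arcsin (p1 y))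
        (Real.arctan (p3 y / p2 y)) := by rw [f1]; positivity
  refine ⟨hD, htc, hrho, ?_, ?_⟩
  · intro hr2 u
    have hP : tor (Gm (fun y => Real.arcsin (p1 y)) (fun y => Real.arctan (p3 y / p2 y)) α β y) ∉ PZ := by
      intro hP; exact hr2 (by rw [← hrho]; exact hP.2)
    rw [fderiv_tor_Gm hV sT sX hy, qC_tor Ψ U hD hP]
    simp only [v4_0, v4_1, v4_2, v4_3, Gm_0, Gm_1]
    rw [← e4 u, hNt, f4, e3, hfs.1, hfs.2]
    have k1 : kt (Real.arcsin (p1 y)) (Real.arctan (p3 y / p2 y))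
        * Real.cos (Real.arctan (p3 y / p2 y)) ^ 2 = 2 * p2 y ^ 2 / r y ^ 2 := by
      rw [e2] at f3
      rw [← f3]
      unfold kt
      rw [hNt, hfs.1, hfs.2]
    rw [k1]
    have k2 : (Real.cos (Real.arcsin (p1 y)) * (Real.sin (Real.arcsin (p1 y)) * Real.cos (Real.arcsin (p1 y)))
          * Real.cos (Real.arctan (p3 y / p2 y))
          / √(NF Real.cos (fun s => Real.sin s * Real.cos s) (Real.arcsin (p1 y))
            (Real.arctan (p3 y / p2 y))) * u 2) ^ 2 = (p1 y * p2 y / r y * u 2) ^ 2 := by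
      rw [mul_pow, div_pow, Real.sq_sqrt hN0, f2, e1, e2, mul_pow]
    rw [k2]
    ring
  · intro hr2 u
    have hP : tor (Gm (fun y => Real.arcsin (p1 y)) (fun y => Real.arctan (p3 y / p2 y)) α β y) ∈ PZ :=
      ⟨by rw [htc]; exact hta y hy, by rw [hrho]; exact hr2⟩
    rw [fderiv_tor_Gm hV sT sX hy, qC_tor_PZ Ψ U hD hP]
    simp only [v4_0, v4_1, v4_2, v4_3, Gm_0, Gm_1]
    rw [← e4 u, hrt]
    have hp3 : fderiv ℝ p3 y u = -(Real.sin (Real.arcsin (p1 y)) * Real.sin (Real.arctan (p3 y / p2 y)))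
          * fderiv ℝ (fun y => Real.arcsin (p1 y)) y u
        + Real.cos (Real.arcsin (p1 y)) * Real.cos (Real.arctan (p3 y / p2 y))
          * fderiv ℝ (fun y => Real.arctan (p3 y / p2 y)) y u := by
      rw [← fderiv_cos_sin (differentiableAt_of_smoothE hV sT hy) (differentiableAt_of_smoothE hV sX hy)]
      rw [fderiv_congr_of_eqOn hV hy fun z hz => ((hsph z hz).2.2.2.2.2.2.1).symm]
    have k3 : Real.cos (Real.arcsin (p1 y)) * Real.sin (Real.arctan (p3 y / p2 y)) *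
        (Real.sin (Real.arcsin (p1 y)) * Real.sin (Real.arctan (p3 y / p2 y))
          * fderiv ℝ (fun y => Real.arcsin (p1 y)) y u
        - Real.cos (Real.arcsin (p1 y)) * Real.cos (Real.arctan (p3 y / p2 y))
          * fderiv ℝ (fun y => Real.arctan (p3 y / p2 y)) y u) = -(p3 y * fderiv ℝ p3 y u) := by
      rw [hp3, e3]; ring
    rw [k3]
    have k1 : 2 * Real.cos (Real.arcsin (p1 y)) ^ 2 / r y ^ 2
        * Real.cos (Real.arctan (p3 y / p2 y)) ^ 2 = 2 * p2 y ^ 2 / r y ^ 2 := by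
      have : 2 * Real.cos (Real.arcsin (p1 y)) ^ 2 / r y ^ 2 * Real.cos (Real.arctan (p3 y / p2 y)) ^ 2
          = 2 * (Real.cos (Real.arcsin (p1 y)) * Real.cos (Real.arctan (p3 y / p2 y))) ^ 2 / r y ^ 2 := by
        ring
      rw [this, e2]
    rw [k1]
    have k2 : Real.cos (Real.arcsin (p1 y)) * Real.sin (Real.arcsin (p1 y))
          * Real.cos (Real.arctan (p3 y / p2 y)) = p1 y * p2 y := by
      have : Real.cos (Real.arcsin (p1 y)) * Real.sin (Real.arcsin (p1 y))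
          * Real.cos (Real.arctan (p3 y / p2 y)) = Real.sin (Real.arcsin (p1 y))
          * (Real.cos (Real.arcsin (p1 y)) * Real.cos (Real.arctan (p3 y / p2 y))) := by ring
      rw [this, e1, e2]
    rw [k2]
    ring

end Pool.Agent.MP39e402.RR
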