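import Pool.Agent.Lib.MP_39e402_gt.LTIa
import Pool.Agent.Lib.MP_39e402_gt.LTIc
import Pool.Agent.Lib.MP_39e402_gt.R.Pull4
import Pool.Agent.Lib.MP_39e402_gt.R.TypeILem
import Pool.Agent.Lib.MP_39e402_gt.UIm
import Pool.Agent.Lib.MP_39e402_gt.UPol

/-! Part U4: Ricci curvature of the type I metric of the one-hole model. -/

open Set Filter Topology
open scoped ContDiff BigOperators

set_option linter.unusedSimpArgs false

noncomputable section

namespace Pool.Agent.MP39e402.RR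

/-- transport of a pointwise Ricci bound by a coordinate map, for metrics given by quadratic forms -/
theorem push_polMet {q : EE 4 → EE 4 → ℝ} {U V' : Set (EE 4)} (hU : IsRMetricOn (polMet q) U)
    (hq : ∀ p ∈ U, IsQF (q p)) {g' : RMetric 4} (hg' : IsRMetricOn g' V') {Φ : EE 4 → EE 4}
    (hs : ContDiffOn ℝ ∞ Φ V') (hm : MapsTo Φ V' U)
    (hi : ∀ y ∈ V', ∀ v, q (Φ y) (fderiv ℝ Φ y v) = gquad g' y v) {κ : ℝ} {y : EE 4} (hy : y ∈ V')
    (hR : ∀ v, κ * gquad g' y v ≤ ricquad g' y v) (w : EE 4) :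
    κ * gquad (polMet q) (Φ y) w ≤ ricquad (polMet q) (Φ y) w := by
  have h : RLocIso (polMet q) U g' V' Φ :=
    ⟨hU, hg', hs, hm, fun x hx v => by rw [gquad_polMet (hq _ (hm hx)), hi x hx v]⟩
  exact h.ricGE_push_at hy hR w

theorem gquad_TIm (J φ : EE 4 → ℝ) (Ψ : ℝ → ℝ) (x v : EE 4) :
    gquad (TIm J φ Ψ) x v = v 0 ^ 2 + (J x * v 1) ^ 2 + (φ x * v 2) ^ 2
      + (Ψ (φ x * Real.sin (x 2)) * v 3) ^ 2 := gquad_TI J φ Ψ x v

/-- angle near the right axis -/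
theorem ang_lt_of {X Y : ℝ} (hX : 0 < X) (hY : 0 < Y) (h : 40 * Y < X) : ang X Y < Real.pi / 40 := by
  obtain ⟨h0, h1⟩ := ang_mem (X := X) hY
  obtain ⟨e1, e2⟩ := polar_eq (X := X) hY
  have hr : 0 < rad X Y := rad_pos hY
  by_contra hc
  have hc := not_lt.1 hc
  have hcos : 0 < Real.cos (ang X Y) := by
    by_contra hn
    have := mul_nonpos_of_nonneg_of_nonpos hr.le (not_lt.1 hn)
    linarith
  have hlt : ang X Y < Real.pi / 2 := by
    by_contra hn
    have := Real.cos_nonpos_of_pi_div_two_le_of_le (not_lt.1 hn) (by linarith [Real.pi_pos])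
    linarith
  have h2 : ang X Y < Real.tan (ang X Y) := Real.lt_tan h0 hlt
  have h3 : Real.tan (ang X Y) * Real.cos (ang X Y) = Real.sin (ang X Y) := Real.tan_mul_cos hcos.ne'
  have hpi := Real.pi_gt_three
  have h4 : 3 / 40 < Real.tan (ang X Y) := by linarith
  have h5 : 3 / 40 * Real.cos (ang X Y) < Real.sin (ang X Y) := by
    rw [← h3]; exact mul_lt_mul_of_pos_right h4 hcos
  have h6 : rad X Y * (3 / 40 * Real.cos (ang X Y)) < rad X Y * Real.sin (ang X Y) :=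
    mul_lt_mul_of_pos_left h5 hr
  nlinarith

theorem ang_neg {X Y : ℝ} (hY : 0 < Y) : ang (-X) Y = Real.pi - ang X Y := by
  unfold ang
  have : rad (-X) Y = rad X Y := by unfold rad; ring_nf
  rw [this, neg_div, Real.arccos_neg]

theorem mf_axis {X Y : ℝ} (hY : 0 < Y) (h : 40 * Y < |X|) : mf (ang X Y) = 0 := by
  rcases lt_trichotomy X 0 with hX | hX | hX
  · have h1 : ang (-X) Y < Real.pi / 40 := ang_lt_of (by linarith) hY (by rwa [abs_of_neg hX] at h)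
    have h2 : ang X Y = Real.pi - ang (-X) Y := by rw [ang_neg hY]; ring
    rw [h2, mf_symm]
    exact mf_zero_left h1.le
  · rw [hX, abs_zero] at h; linarith
  · exact mf_zero_left (ang_lt_of hX hY (by rwa [abs_of_pos hX] at h)).le

theorem JL_flat_axis {ph X Y : ℝ} (hY : 0 < Y) (h : 40 * Y < |X|) :
    JL ph (rad X Y) (ang X Y) = rad X Y := by
  rw [JL, mf_axis hY h]; ring

theorem JL_flat_far {ph X Y : ℝ} (h : 1 < rad X Y) : JL ph (rad X Y) (ang X Y) = rad X Y := by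
  rw [JL, st_one (by linarith)]; ring

/-- `sin` and `tan` of small angles -/
theorem small_angle {t : ℝ} (h0 : 0 < t) (h : t ≤ Real.pi / 160) :
    Real.sin t ≤ 1 / 50 ∧ 41 * Real.sin t ≤ Real.cos t := by
  have hpi := Real.pi_lt_d2
  have h1 : t ≤ 0.02 := by linarith
  have h2 := Real.sin_le h0.le
  have h3 := Real.one_sub_sq_div_two_le_cos (x := t)
  refine ⟨by linarith, ?_⟩
  nlinarith

/-- the point is in one of the zones -/
theorem zones {ε X Y : ℝ} (hε : 0 < ε) (hY : 0 < Y) :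
    rad X Y < 100000 * ε ∨
    (1500 * ε ≤ rad X Y ∧ 41 * Y ≤ |X| ∧ 60 * Y ≤ 1) ∨
    (1500 * ε ≤ rad X Y ∧ rad X Y < 1 / 2 ∧ Real.pi / 160 < ang X Y ∧ ang X Y < Real.pi - Real.pi / 160) ∨
    (9 / 20 < rad X Y ∧ rad X Y < 11 / 10 ∧ 1 / 100 < Y) ∨ (1 < rad X Y ∧ 1 / 100 < Y) := by
  by_cases h1 : rad X Y < 100000 * ε
  · exact Or.inl h1
  right
  have h1' : 1500 * ε ≤ rad X Y := by linarith [not_lt.1 h1]
  have hr : 0 < rad X Y := rad_pos hY
  obtain ⟨h0, hpi⟩ := ang_mem (X := X) hY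
  obtain ⟨e1, e2⟩ := polar_eq (X := X) hY
  by_cases h2 : rad X Y < 1 / 2
  · by_cases h3 : Real.pi / 160 < ang X Y
    · by_cases h4 : ang X Y < Real.pi - Real.pi / 160
      · exact Or.inr (Or.inl ⟨h1', h2, h3, h4⟩)
      · left
        obtain ⟨s1, s2⟩ := small_angle (t := Real.pi - ang X Y) (by linarith) (by linarith [not_lt.1 h4])
        rw [Real.sin_pi_sub] at s1 s2
        rw [Real.cos_pi_sub] at s2
        refine ⟨h1', ?_, ?_⟩
        · have : 41 * (rad X Y * Real.sin (ang X Y)) ≤ -(rad X Y * Real.cos (ang X Y)) := by nlinarith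
          rw [e1, e2] at this
          exact this.trans (neg_le_abs X)
        · have : rad X Y * Real.sin (ang X Y) ≤ 1 / 2 * (1 / 50) := by
            have hs : 0 ≤ Real.sin (ang X Y) := (Real.sin_pos_of_pos_of_lt_pi h0 hpi).le
            nlinarith
          rw [e2] at this; linarith
    · left
      obtain ⟨s1, s2⟩ := small_angle h0 (not_lt.1 h3)
      refine ⟨h1', ?_, ?_⟩
      · have : 41 * (rad X Y * Real.sin (ang X Y)) ≤ rad X Y * Real.cos (ang X Y) := by nlinarith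
        rw [e1, e2] at this
        exact this.trans (le_abs_self X)
      · have : rad X Y * Real.sin (ang X Y) ≤ 1 / 2 * (1 / 50) := by
          have hs : 0 ≤ Real.sin (ang X Y) := (Real.sin_pos_of_pos_of_lt_pi h0 hpi).le
          nlinarith
        rw [e2] at this; linarith
  · by_cases h3 : 1 / 100 < Y
    · by_cases h4 : 1 < rad X Y
      · exact Or.inr (Or.inr (Or.inr ⟨h4, h3⟩))
      · exact Or.inr (Or.inr (Or.inl ⟨by linarith [not_lt.1 h2], by linarith [not_lt.1 h4], h3⟩))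
    · left
      refine ⟨h1', ?_, by linarith [not_lt.1 h3]⟩
      have h5 : rad X Y ^ 2 = X ^ 2 + Y ^ 2 := Real.sq_sqrt (by positivity)
      have h6 : (1 / 2 : ℝ) ≤ rad X Y := not_lt.1 h2
      have h7 : (41 / 100 : ℝ) ^ 2 ≤ X ^ 2 := by nlinarith [not_lt.1 h3]
      have h8 : (41 / 100 : ℝ) ≤ |X| := by
        rw [← abs_of_pos (by norm_num : (0:ℝ) < 41 / 100)]
        exact sq_le_sq.1 h7
      linarith [not_lt.1 h3]

/-- a type I bound in a coordinate chart -/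
theorem chart_bound {ph : ℝ} {Ψ : ℝ → ℝ} {ε δ : ℝ} (hE : IsEdge ε δ Ψ) (he0 : 0 ≤ ε) (he1 : ε ≤ 1)
    (hph : 0 < ph) (hph1 : ph ≤ 1 / 2) {J f : ℝ → ℝ → ℝ} {S : Set (ℝ × ℝ)} (hS : IsOpen S)
    (hJ : ContDiffOn ℝ ∞ (fun p : ℝ × ℝ => J p.1 p.2) S)
    (hf : ContDiffOn ℝ ∞ (fun p : ℝ × ℝ => f p.1 p.2) S)
    (pJ : ∀ p ∈ S, 0 < J p.1 p.2) (pf : ∀ p ∈ S, 0 < f p.1 p.2)
    {Φ : EE 4 → EE 4} (hs : ContDiffOn ℝ ∞ Φ (TDom S)) (hm : MapsTo Φ (TDom S) {p | Ur p ≠ 0})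
    (hi : ∀ y ∈ TDom S, ∀ v, qI ph Ψ (Φ y) (fderiv ℝ Φ y v) = v 0 ^ 2 + (J (y 0) (y 1) * v 1) ^ 2
      + (f (y 0) (y 1) * v 2) ^ 2 + (Ψ (f (y 0) (y 1) * Real.sin (y 2)) * v 3) ^ 2)
    {K0 k K0' k' : ℝ} (hK0 : 0 ≤ K0') (hk : 0 ≤ k') (h1 : K0 ≤ K0') (h2 : k ≤ k') {y : EE 4}
    (hy : y ∈ TDom S) (h : TI J f K0 k (y 0) (y 1)) (w : EE 4) :
    -(3 * k' + ε * (K0' + 1)) * gquad (polMet (qI ph Ψ)) (Φ y) w
      ≤ ricquad (polMet (qI ph Ψ)) (Φ y) w := by
  have pΨ : ∀ w, 0 < w → 0 < Ψ w := fun w hw => lt_of_lt_of_le (by positivity) (hE.lb w hw.le)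
  have hU := qI_met hph hph1 hE.smooth.contDiffOn pΨ
  have hd := tiData_lift2 hS hJ hf pJ pf hE.smooth fun w hw => pΨ w hw
  exact push_polMet hU (fun p _ => qI_isQF ph Ψ p) (isRMetricOn_TI hd) hs hm
    (fun y hy v => by rw [hi y hy v, gquad_TIm]; rfl) hy
    (fun v => typeI_point hS hJ hf pJ pf hE he0 he1 hK0 hk hy (TI_mono h h1 h2) v) w

/-- positive numbers -/
def SPos : Set (ℝ × ℝ) := {p | 0 < p.1 ∧ 0 < p.2 ∧ p.2 < Real.pi}

theorem isOpen_SPos : IsOpen SPos :=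
  (isOpen_lt continuous_const continuous_fst).inter
    ((isOpen_lt continuous_const continuous_snd).inter (isOpen_lt continuous_snd continuous_const))

theorem TDom_SPos : TDom SPos = polD := by
  ext y
  simp only [TDom, SPos, polD, mem_setOf_eq]
  tauto

theorem PhLpol_smooth {ph : ℝ} (h : 0 < ph) (h1 : ph ≤ 1 / 2) :
    ContDiffOn ℝ ∞ (fun p : ℝ × ℝ => PhL ph (p.1 * Real.cos p.2) (p.1 * Real.sin p.2)) SPos := by
  have hg : ContDiff ℝ ∞ (fun p : ℝ × ℝ => (p.1 * Real.cos p.2, p.1 * Real.sin p.2)) :=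
    (contDiff_fst.mul (Real.contDiff_cos.comp contDiff_snd)).prodMk
      (contDiff_fst.mul (Real.contDiff_sin.comp contDiff_snd))
  exact (PhL_contDiffOn h h1).comp hg.contDiffOn fun p hp =>
    mul_pos hp.1 (Real.sin_pos_of_pos_of_lt_pi hp.2.1 hp.2.2)

/-- T2: the Ricci curvature of the type I metric -/
theorem typeI_ricci : ∃ C p0 : ℝ, 0 < C ∧ 0 < p0 ∧ p0 ≤ 1 / 2 ∧ ∀ ph : ℝ, 0 < ph → ph ≤ p0 →
    ∀ (ε δ : ℝ) (Ψ : ℝ → ℝ), IsEdge ε δ Ψ → 0 ≤ ε → ε ≤ 1 →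
      RicGE (polMet (qI ph Ψ)) {p | Ur p ≠ 0} (-(3 * (C * ph) + ε * (1 / (epsh ph) ^ 2 + 1 + 1))) := by
  obtain ⟨C1, p1, hC1, hp1, hp1', H1⟩ := TI_cut_polar
  obtain ⟨C2, p2, hC2, hp2, hp2', H2⟩ := TI_cut_flat
  refine ⟨max C1 C2, min p1 p2, lt_max_of_lt_left hC1, lt_min hp1 hp2,
    (min_le_left _ _).trans (hp1'.trans (by norm_num)), ?_⟩
  intro ph hph hphle ε δ Ψ hE he0 he1 p hp w
  have hle1 : ph ≤ p1 := hphle.trans (min_le_left _ _)
  have hle2 : ph ≤ p2 := hphle.trans (min_le_right _ _)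
  have hph1 : ph ≤ 1 / 2 := hle1.trans (hp1'.trans (by norm_num))
  have heps := epsh_pos hph
  have hK0 : 0 ≤ 1 / (epsh ph) ^ 2 + 1 := by positivity
  have hk : 0 ≤ max C1 C2 * ph := mul_nonneg (hC1.le.trans (le_max_left _ _)) hph.le
  have hk1 : C1 * ph ≤ max C1 C2 * ph := mul_le_mul_of_nonneg_right (le_max_left _ _) hph.le
  have hk2 : C2 * ph ≤ max C1 C2 * ph := mul_le_mul_of_nonneg_right (le_max_right _ _) hph.le
  have hKa : (0 : ℝ) ≤ 1 / (epsh ph) ^ 2 + 1 := hK0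
  have hKb : 1 / (epsh ph) ^ 2 ≤ 1 / (epsh ph) ^ 2 + 1 := by linarith
  have hKc : (1 : ℝ) ≤ 1 / (epsh ph) ^ 2 + 1 := by
    have : 0 ≤ 1 / (epsh ph) ^ 2 := by positivity
    linarith
  have hY : 0 < Yr p := Yr_pos hp
  have hrad := rad_eq_norm p
  rcases zones (X := p 0) heps hY with hz | hz | hz | hz | hz
  · -- tip
    obtain ⟨y, hy, rfl⟩ := quadm_surj hp
    let S : Set (ℝ × ℝ) := {q | 0 < q.1 ∧ 0 < q.2 ∧ √(q.1 ^ 2 + q.2 ^ 2) < 100000 * epsh ph}
    have hS : IsOpen S := by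
      have h3 : IsOpen {q : ℝ × ℝ | √(q.1 ^ 2 + q.2 ^ 2) < 100000 * epsh ph} :=
        isOpen_lt (by fun_prop) continuous_const
      exact (isOpen_lt continuous_const continuous_fst).inter
        ((isOpen_lt continuous_const continuous_snd).inter h3)
    have hQ : ∀ q ∈ S, (q.1 / epsh ph, q.2 / epsh ph) ∈ Qd := fun q hq =>
      ⟨div_pos hq.1 heps, div_pos hq.2.1 heps⟩
    have hf : ContDiffOn ℝ ∞ (fun q : ℝ × ℝ => epsh ph * PhiT (q.1 / epsh ph) (q.2 / epsh ph)) S := by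
      refine contDiffOn_const.mul (PhiT_contDiffOn.comp (g := fun p : ℝ × ℝ => PhiT p.1 p.2)
        (f := fun q : ℝ × ℝ => (q.1 / epsh ph, q.2 / epsh ph)) ?_ hQ)
      exact ((contDiff_fst.div_const _).prodMk (contDiff_snd.div_const _)).contDiffOn
    have hsub : TDom S ⊆ quadD := fun z hz => ⟨hz.1.1, hz.1.2.1, hz.2.1, hz.2.2⟩
    have hyS : y ∈ TDom S := by
      refine ⟨⟨hy.1, hy.2.1, ?_⟩, hy.2.2.1, hy.2.2.2⟩
      rw [hrad, quadm_norm hy] at hz
      exact hz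
    exact chart_bound (J := fun _ _ => 1) (f := fun x y => epsh ph * PhiT (x / epsh ph) (y / epsh ph))
      hE he0 he1 hph hph1 hS contDiffOn_const hf (fun _ _ => one_pos)
      (fun q hq => mul_pos heps (PhiT_pos (hQ q hq).1 (hQ q hq).2)) (quadm_contDiffOn.mono hsub)
      (fun z hz => quadm_Ur_ne (hsub hz))
      (fun z hz v => by
        rw [qI_quadm hph hph1 Ψ (hsub hz) hz.1.2.2.le v, one_mul])
      hK0 hk hKa hk hyS (TI_tip hph hy.1 hy.2.1) w
  · -- near the axis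
    obtain ⟨y, hy, rfl⟩ := cyl_surj hp
    rw [cyl_Yr hy, cyl_0] at hz
    let S : Set (ℝ × ℝ) := {q | 0 < q.2 ∧ 40 * q.2 < |q.1|}
    have hS : IsOpen S := by
      have h3 : IsOpen {q : ℝ × ℝ | 40 * q.2 < |q.1|} := isOpen_lt (by fun_prop) (by fun_prop)
      exact (isOpen_lt continuous_const continuous_snd).inter h3
    have hsub : TDom S ⊆ cylD := fun z hz => ⟨hz.1.1, hz.2.1, hz.2.2⟩
    have hyS : y ∈ TDom S := ⟨⟨hy.1, by have := hy.1; show 40 * y 1 < |y 0|; linarith [hz.2.1]⟩, hy.2.1, hy.2.2⟩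
    have hTI : TI (fun _ _ => 1) (fun x y => PhL ph x y) 0 0 (y 0) (y 1) := by
      rcases lt_trichotomy (y 0) 0 with hX | hX | hX
      · exact TI_axisL hph hph1 hX hy.1 hz.1 (by have := hz.2.1; rwa [abs_of_neg hX] at this) hz.2.2
      · exfalso
        have := hz.2.1
        rw [hX, abs_zero] at this
        linarith [hy.1]
      · exact TI_axisR hph hph1 hX hy.1 hz.1 (by have := hz.2.1; rwa [abs_of_pos hX] at this) hz.2.2
    exact chart_bound (J := fun _ _ => 1) (f := fun x y => PhL ph x y)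
      hE he0 he1 hph hph1 hS contDiffOn_const
      ((PhL_contDiffOn hph hph1).mono fun q hq => hq.1) (fun _ _ => one_pos)
      (fun q hq => PhL_pos hph hph1 hq.1) (cyl_contDiff.contDiffOn)
      (fun z hz => cyl_Ur_ne (hsub hz))
      (fun z hz v => by
        rw [qI_cyl Ψ (hsub hz) (JL_flat_axis hz.1.1 hz.1.2) v, one_mul])
      hK0 hk hKa hk hyS hTI w
  · -- middle
    obtain ⟨y, hy, rfl⟩ := pol_surj hp
    rw [hrad, pol_norm hy, pol_ang hy] at hz
    rw [← TDom_SPos] at hy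
    refine chart_bound (J := JL ph) (f := fun R t => PhL ph (R * Real.cos t) (R * Real.sin t))
      hE he0 he1 hph hph1 isOpen_SPos ((JL_contDiffOn hph hph1).mono fun q hq => hq.1)
      (PhLpol_smooth hph hph1) (fun q hq => ?_)
      (fun q hq => PhL_pos hph hph1 (mul_pos hq.1 (Real.sin_pos_of_pos_of_lt_pi hq.2.1 hq.2.2)))
      pol_contDiff.contDiffOn (fun z hz => pol_Ur_ne (by rwa [TDom_SPos] at hz))
      (fun z hz v => qI_pol ph Ψ (by rwa [TDom_SPos] at hz) v)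
      hK0 hk hKb hk hy (TI_mid hph hph1 hz.1 hz.2.1 hz.2.2.1 hz.2.2.2) w
    have := (JL_pos hph hph1 hq.1 (t := q.2)).1
    have h3 : 0 < 2 / 5 * q.1 := mul_pos (by norm_num) hq.1
    exact h3.trans this
  · -- cut off, polar
    obtain ⟨y, hy, rfl⟩ := pol_surj hp
    rw [hrad, pol_norm hy, pol_Yr hy] at hz
    have hy' := hy
    rw [← TDom_SPos] at hy
    refine chart_bound (J := JL ph) (f := fun R t => PhL ph (R * Real.cos t) (R * Real.sin t))
      hE he0 he1 hph hph1 isOpen_SPos ((JL_contDiffOn hph hph1).mono fun q hq => hq.1)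
      (PhLpol_smooth hph hph1) (fun q hq => ?_)
      (fun q hq => PhL_pos hph hph1 (mul_pos hq.1 (Real.sin_pos_of_pos_of_lt_pi hq.2.1 hq.2.2)))
      pol_contDiff.contDiffOn (fun z hz => pol_Ur_ne (by rwa [TDom_SPos] at hz))
      (fun z hz v => qI_pol ph Ψ (by rwa [TDom_SPos] at hz) v)
      hK0 hk hKc hk1 hy (H1 ph hph hle1 _ _ hz.1 hz.2.1 hy'.2.1 hy'.2.2.1 hz.2.2) w
    have := (JL_pos hph hph1 hq.1 (t := q.2)).1
    have h3 : 0 < 2 / 5 * q.1 := mul_pos (by norm_num) hq.1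
    exact h3.trans this
  · -- cut off, flat
    obtain ⟨y, hy, rfl⟩ := cyl_surj hp
    rw [cyl_Yr hy, cyl_0] at hz
    let S : Set (ℝ × ℝ) := {q | 0 < q.2 ∧ 1 < rad q.1 q.2}
    have hS : IsOpen S := by
      have h3 : IsOpen {q : ℝ × ℝ | 1 < rad q.1 q.2} := by
        unfold rad
        exact isOpen_lt continuous_const (by fun_prop)
      exact (isOpen_lt continuous_const continuous_snd).inter h3
    have hsub : TDom S ⊆ cylD := fun z hz => ⟨hz.1.1, hz.2.1, hz.2.2⟩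
    have hyS : y ∈ TDom S := ⟨⟨hy.1, hz.1⟩, hy.2.1, hy.2.2⟩
    exact chart_bound (J := fun _ _ => 1) (f := fun x y => PhL ph x y)
      hE he0 he1 hph hph1 hS contDiffOn_const
      ((PhL_contDiffOn hph hph1).mono fun q hq => hq.1) (fun _ _ => one_pos)
      (fun q hq => PhL_pos hph hph1 hq.1) (cyl_contDiff.contDiffOn)
      (fun z hz => cyl_Ur_ne (hsub hz))
      (fun z hz v => by
        rw [qI_cyl Ψ (hsub hz) (JL_flat_far hz.1.2) v, one_mul])
      hK0 hk hKc hk2 hyS (H2 ph hph hle2 _ _ hz.1 hz.2) w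

end Pool.Agent.MP39e402.RR
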