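import Pool.Agent.Lib.MP_39e402_gt.R.CoreC1
import Pool.Agent.Lib.MP_39e402_gt.R.Ode
import Pool.Agent.Lib.MP_39e402_gt.R.UCap
import Pool.Agent.Lib.MP_39e402_gt.R.UEdge
import Pool.Agent.Lib.MP_39e402_gt.R.ZFs
import Pool.Agent.Lib.MP_39e402_gt.R.ZTypeI
import Pool.Agent.Lib.MP_39e402_gt.UCm

/-! Part U4: Ricci curvature of the core, zone by zone. -/

open Set Filter Topology
open scoped ContDiff BigOperators

set_option linter.unusedSimpArgs false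

noncomputable section

namespace Pool.Agent.MP39e402.RR

theorem mem_Uc_tor {a : ℝ} {y : EE 4} (h : y ∈ torD) (hc : tor y ∈ PZ → a < rhoP (tor y)) :
    tor y ∈ Uc a :=
  ⟨tor_norm_gt h, tor_Ur_ne h, fun hx => absurd (hc hx.1) (not_lt.2 hx.2)⟩

/-- zone C1: `t > ta` -/
theorem zone_C1 {a : ℝ} {Ψ U : ℝ → ℝ} (hA : Adm a Ψ U) {ε δ : ℝ} (hE : IsEdge ε δ Ψ) {κ : ℝ}
    (hR : RicGE (gTor bC fC Ψ) (TorD1 taC TC) κ) {x : EE 4} (hx : x ∈ Uc a) (ht : taC < tc x)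
    (ht2 : tc x < TC) (hn : n3 x < 1) (w : EE 4) :
    κ * gquad (polMet (qC Ψ U)) x w ≤ ricquad (polMet (qC Ψ U)) x w := by
  obtain ⟨y', hy', rfl⟩ := tor_surj hx.1 hx.2.1 hn
  rw [tor_tc hy'] at ht ht2
  let G : EE 4 → EE 4 := Gm (fun y => y 0) (fun y => y 1) 2 0
  let y : EE 4 := v4 (y' 0) (y' 1) (y' 2) (y' 3 / 2)
  have hGy : G y = y' := by
    ext i
    fin_cases i
    · rfl
    · rfl
    · rfl
    · show (2 : ℝ) * (y' 3 / 2) + 0 * y' 2 = y' 3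
      ring
  have hyV : y ∈ TorD1 taC TC := ⟨⟨hy'.1, hy'.2.1, hy'.2.2⟩, ht, ht2⟩
  have hV := TorD1_open taC TC
  have hG : ∀ z ∈ TorD1 taC TC, G z ∈ torD := fun z hz => ⟨hz.1.1, hz.1.2.1, hz.1.2.2⟩
  have hP : ∀ z ∈ TorD1 taC TC, tor (G z) ∉ PZ := by
    intro z hz hp
    have h1 := hp.1
    rw [tor_tc (hG z hz)] at h1
    exact absurd (show z 0 < taC from h1) (not_lt.2 hz.2.1.le)
  have key := push_polMet (q := qC Ψ U) (qC_met hA) (fun p _ => qC_isQF Ψ U p)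
    (g' := gTor bC fC Ψ) (V' := TorD1 taC TC)
    (isRMetricOn_GF ((gTor_data isCoreC hE).mono hV fun z hz => hz.1))
    (Φ := fun y => tor (G y))
    (tor_contDiff.comp_contDiffOn (Gm_smooth (coord_smooth 0 _) (coord_smooth 1 _)))
    (fun z hz => mem_Uc_tor (hG z hz) fun hp => absurd hp (hP z hz))
    (fun z hz v => by
      rw [fderiv_tor_Gm hV (coord_smooth 0 _) (coord_smooth 1 _) hz,
        qC_tor Ψ U (hG z hz) (hP z hz), fderiv_coord, fderiv_coord]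
      simp only [v4_0, v4_1, v4_2, v4_3, Gm_0, Gm_1, G]
      rw [gTor, gquad_GF]
      simp only [lift2, k2F, k3F, AF, wF]
      have hNe : Nt (z 0) (z 1) = NF bC fC (z 0) (z 1) := rfl
      rw [hNe]
      have hkt : kt (z 0) (z 1) = 2 * (bC (z 0) ^ 2 - fC (z 0) ^ 2) / NF bC fC (z 0) (z 1) := rfl
      rw [hkt]
      ring) hyV (fun v => hR y hyV v) w
  rw [hGy] at key
  exact key

/-- inverse spherical coordinates -/
theorem sph_inv {q1 q2 q3 : ℝ} (h1 : 0 < q1) (h2 : 0 < q2) (h3 : 0 < q3)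
    (hs : q1 ^ 2 + q2 ^ 2 + q3 ^ 2 = 1) :
    0 < Real.arcsin q1 ∧ Real.arcsin q1 < Real.pi / 2 ∧ 0 < Real.arctan (q3 / q2) ∧
      Real.arctan (q3 / q2) < Real.pi / 2 ∧ Real.sin (Real.arcsin q1) = q1 ∧
      Real.cos (Real.arcsin q1) * Real.cos (Real.arctan (q3 / q2)) = q2 ∧
      Real.cos (Real.arcsin q1) * Real.sin (Real.arctan (q3 / q2)) = q3 := by
  obtain ⟨-, -, h⟩ := sph_coord (V := univ) isOpen_univ (p1 := fun _ => q1) (p2 := fun _ => q2)
    (p3 := fun _ => q3) contDiffOn_const contDiffOn_const contDiffOn_const (fun _ _ => h1)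
    (fun _ _ => h2) (fun _ _ => h3) (fun _ _ => hs)
  obtain ⟨a1, a2, a3, a4, a5, a6, a7, -⟩ := h 0 (mem_univ _)
  exact ⟨a1, a2, a3, a4, a5, a6, a7⟩

theorem arctan_ratio {t x : ℝ} (hc : 0 < Real.cos t) (h0 : 0 < x) (h1 : x < Real.pi / 2) :
    Real.arctan (Real.cos t * Real.sin x / (Real.cos t * Real.cos x)) = x := by
  rw [mul_div_mul_left _ _ hc.ne', ← Real.tan_eq_sin_div_cos]
  exact Real.arctan_tan (by linarith [Real.pi_pos]) h1

/-- zone C2: `t < ta`, `ρ > 1/4` -/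
theorem zone_C2 {ρ1 a ε δ : ℝ} {Ψ U : ℝ → ℝ} (hA : Adm a Ψ U) (hP : Par ρ1 a ε δ Ψ U)
    (hε : ε ≤ 1 / 10) (hδ : δ ≤ 1 / 10) {x : EE 4} (hx : x ∈ Uc a) (ht : tc x < taC)
    (hρ : 1 / 4 < rhoP x) (hn : n3 x < 1) (w : EE 4) :
    0 * gquad (polMet (qC Ψ U)) x w ≤ ricquad (polMet (qC Ψ U)) x w := by
  obtain ⟨y', hy', rfl⟩ := tor_surj hx.1 hx.2.1 hn
  rw [tor_tc hy'] at ht
  rw [tor_rhoP hy'] at hρ
  have hta := isCoreC.ta_le
  have hpi := Real.pi_gt_three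
  -- the point of `S²`
  have ht0 : 0 < y' 0 := hy'.1
  have ht1 : y' 0 < Real.pi / 2 := by linarith
  have hst : 0 < Real.sin (y' 0) := Real.sin_pos_of_pos_of_lt_pi ht0 (by linarith)
  have hct : 0 < Real.cos (y' 0) := Real.cos_pos_of_mem_Ioo ⟨by linarith, ht1⟩
  have hsx : 0 < Real.sin (y' 1) := Real.sin_pos_of_pos_of_lt_pi hy'.2.1 (by linarith [hy'.2.2])
  have hcx : 0 < Real.cos (y' 1) := Real.cos_pos_of_mem_Ioo ⟨by linarith [hy'.2.1], hy'.2.2⟩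
  have e1 := Real.sin_sq_add_cos_sq (y' 0)
  have e2 := Real.sin_sq_add_cos_sq (y' 1)
  obtain ⟨a1, a2, a3, a4, a5, a6, a7⟩ := sph_inv (q1 := Real.cos (y' 0) * Real.sin (y' 1))
    (q2 := Real.cos (y' 0) * Real.cos (y' 1)) (q3 := Real.sin (y' 0)) (mul_pos hct hsx)
    (mul_pos hct hcx) hst (by
      have : (Real.cos (y' 0) * Real.sin (y' 1)) ^ 2 + (Real.cos (y' 0) * Real.cos (y' 1)) ^ 2
        = Real.cos (y' 0) ^ 2 * (Real.sin (y' 1) ^ 2 + Real.cos (y' 1) ^ 2) := by ring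
      rw [this, e2]; linarith)
  set A := Real.arcsin (Real.cos (y' 0) * Real.sin (y' 1)) with hAdef
  set B := Real.arctan (Real.sin (y' 0) / (Real.cos (y' 0) * Real.cos (y' 1))) with hBdef
  let y : EE 4 := v4 A B (y' 2) (y' 3 / 2 - y' 2)
  -- the domain
  let p1 : EE 4 → ℝ := fun y => Real.cos (y 0) * Real.sin (y 1)
  let p2 : EE 4 → ℝ := fun y => Real.cos (y 0) * Real.cos (y 1)
  let p3 : EE 4 → ℝ := fun y => Real.sin (y 0)
  have c0 : ContDiff ℝ ∞ (fun y : EE 4 => y 0) := contDiff_piLp_apply ..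
  have c1 : ContDiff ℝ ∞ (fun y : EE 4 => y 1) := contDiff_piLp_apply ..
  have sp1 : ContDiff ℝ ∞ p1 := (Real.contDiff_cos.comp c0).mul (Real.contDiff_sin.comp c1)
  have sp2 : ContDiff ℝ ∞ p2 := (Real.contDiff_cos.comp c0).mul (Real.contDiff_cos.comp c1)
  have sp3 : ContDiff ℝ ∞ p3 := Real.contDiff_sin.comp c0
  let V : Set (EE 4) := {y | y ∈ UDom IFS ∧ Real.arcsin (p1 y) < taC}
  have hV : IsOpen V := (isOpen_UDom isOpen_IFS).inter
    (isOpen_lt (Real.continuous_arcsin.comp sp1.continuous) continuous_const)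
  have b0 : ∀ z ∈ V, 0 < Real.sin (z 0) := fun z hz =>
    Real.sin_pos_of_pos_of_lt_pi hz.1.1.1 (by linarith [hz.1.1.2.1])
  have b1 : ∀ z ∈ V, 0 < Real.cos (z 0) := fun z hz =>
    Real.cos_pos_of_mem_Ioo ⟨by linarith [hz.1.1.1], hz.1.1.2.1⟩
  have b2 : ∀ z ∈ V, 0 < Real.sin (z 1) := fun z hz =>
    Real.sin_pos_of_pos_of_lt_pi hz.1.2.1 (by linarith [hz.1.2.2])
  have b3 : ∀ z ∈ V, 0 < Real.cos (z 1) := fun z hz =>
    Real.cos_pos_of_mem_Ioo ⟨by linarith [hz.1.2.1], hz.1.2.2⟩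
  have hyV : y ∈ V := by
    refine ⟨⟨⟨a1, a2, ?_⟩, a3, a4⟩, ?_⟩
    · -- cos A = ρ
      show 1 / 4 < Real.cos A
      have h5 := Real.sin_sq_add_cos_sq A
      rw [a5] at h5
      have h6 : Real.cos A ^ 2 = rt (y' 0) (y' 1) ^ 2 := by
        unfold rt
        rw [Real.sq_sqrt (by
          have : Real.cos (y' 0) ^ 2 * Real.sin (y' 1) ^ 2 = (Real.cos (y' 0) * Real.sin (y' 1)) ^ 2 := by ring
          rw [this]; nlinarith [sq_nonneg (Real.cos A)])]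
        linarith [mul_pow (Real.cos (y' 0)) (Real.sin (y' 1)) 2]
      have h7 : 0 < Real.cos A := Real.cos_pos_of_mem_Ioo ⟨by linarith, a2⟩
      have h8 : Real.cos A = rt (y' 0) (y' 1) := by
        have h9 : 0 ≤ rt (y' 0) (y' 1) := Real.sqrt_nonneg _
        nlinarith [sq_nonneg (Real.cos A - rt (y' 0) (y' 1))]
      rw [h8]; exact hρ
    · show Real.arcsin (Real.cos A * Real.sin B) < taC
      rw [a7, Real.arcsin_sin (by linarith) ht1.le]; exact ht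
  obtain ⟨sΦ, hΦ⟩ := qC_fs Ψ U hV sp1.contDiffOn sp2.contDiffOn sp3.contDiffOn
    (fun z hz => mul_pos (b1 z hz) (b2 z hz)) (fun z hz => mul_pos (b1 z hz) (b3 z hz)) b0
    (fun z _ => by
      show (Real.cos (z 0) * Real.sin (z 1)) ^ 2 + (Real.cos (z 0) * Real.cos (z 1)) ^ 2
        + Real.sin (z 0) ^ 2 = 1
      have h5 := Real.sin_sq_add_cos_sq (z 0)
      have h6 := Real.sin_sq_add_cos_sq (z 1)
      have : (Real.cos (z 0) * Real.sin (z 1)) ^ 2 + (Real.cos (z 0) * Real.cos (z 1)) ^ 2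
        = Real.cos (z 0) ^ 2 * (Real.sin (z 1) ^ 2 + Real.cos (z 1) ^ 2) := by ring
      rw [this, h6]; linarith)
    (fun z hz => hz.2) 2 2 (r := fun z => Real.cos (z 0)) b1
    (fun z _ => by
      show Real.cos (z 0) ^ 2 = (Real.cos (z 0) * Real.sin (z 1)) ^ 2 + (Real.cos (z 0) * Real.cos (z 1)) ^ 2
      have h6 := Real.sin_sq_add_cos_sq (z 1)
      have : (Real.cos (z 0) * Real.sin (z 1)) ^ 2 + (Real.cos (z 0) * Real.cos (z 1)) ^ 2
        = Real.cos (z 0) ^ 2 * (Real.sin (z 1) ^ 2 + Real.cos (z 1) ^ 2) := by ring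
      rw [this, h6]; ring)
  obtain ⟨hUU, hRic⟩ := ric_fsedge hP.edge hP.eps0.le hε hδ
  have hGy : tor (Gm (fun y => Real.arcsin (p1 y)) (fun y => Real.arctan (p3 y / p2 y)) 2 2 y)
      = tor y' := by
    congr 1
    ext i
    fin_cases i
    · show Real.arcsin (Real.cos A * Real.sin B) = y' 0
      rw [a7, Real.arcsin_sin (by linarith) ht1.le]
    · show Real.arctan (Real.sin A / (Real.cos A * Real.cos B)) = y' 1
      rw [a6, a5]
      exact arctan_ratio hct hy'.2.1 hy'.2.2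
    · rfl
    · show (2 : ℝ) * (y' 3 / 2 - y' 2) + 2 * y' 2 = y' 3
      ring
  -- derivatives of the three functions
  have d1 : ∀ z u : EE 4, fderiv ℝ p1 z u = -(Real.sin (z 0) * Real.sin (z 1)) * u 0
      + Real.cos (z 0) * Real.cos (z 1) * u 1 := by
    intro z u
    have := fderiv_cos_sin (T := fun y : EE 4 => y 0) (X := fun y : EE 4 => y 1) (y := z)
      (c0.differentiable (by simp) z) (c1.differentiable (by simp) z) u
    rw [fderiv_coord, fderiv_coord] at this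
    exact this
  have d2 : ∀ z u : EE 4, fderiv ℝ p2 z u = -(Real.sin (z 0) * Real.cos (z 1)) * u 0
      - Real.cos (z 0) * Real.sin (z 1) * u 1 := by
    intro z u
    have h1 : HasFDerivAt (fun y : EE 4 => y 0) (prj 0) z := (prj 0).hasFDerivAt
    have h2 : HasFDerivAt (fun y : EE 4 => y 1) (prj 1) z := (prj 1).hasFDerivAt
    have h3 : HasFDerivAt p2 _ z := h1.cos.mul h2.cos
    rw [h3.fderiv]
    simp
    ring
  have d3 : ∀ z u : EE 4, fderiv ℝ p3 z u = Real.cos (z 0) * u 0 := by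
    intro z u
    have h1 : HasFDerivAt (fun y : EE 4 => y 0) (prj 0) z := (prj 0).hasFDerivAt
    have h3 : HasFDerivAt p3 _ z := h1.sin
    rw [h3.fderiv]
    simp
  have key := push_polMet (q := qC Ψ U) (qC_met hA) (fun p _ => qC_isQF Ψ U p)
    (g' := UU Real.cos (fun s => 2 * Ψ (Real.sin s * Real.cos s))) (V' := V)
    ⟨hV, fun i j => ((isRMetricOn_UU hUU).smooth i j).mono fun z hz => hz.1,
      fun z hz => (isRMetricOn_UU hUU).posDef z hz.1⟩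
    sΦ
    (fun z hz => mem_Uc_tor (hΦ z hz).1 fun _ => by
      rw [(hΦ z hz).2.2.1]
      have h1 := hP.cap.a_lt
      have h2 := hP.rho1
      have h3 := hz.1.1.2.2
      linarith)
    (fun z hz u => by
      obtain ⟨h1, h2, h3, h4, h5⟩ := hΦ z hz
      have hs0 := b0 z hz
      have hc0 := b1 z hz
      have hc0' := hc0.ne'
      have q0 := Real.sin_sq_add_cos_sq (z 0)
      have q1 := Real.sin_sq_add_cos_sq (z 1)
      have k1 : (fderiv ℝ p1 z u) ^ 2 + (fderiv ℝ p2 z u) ^ 2 + (fderiv ℝ p3 z u) ^ 2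
          = u 0 ^ 2 + (Real.cos (z 0) * u 1) ^ 2 := by
        rw [d1, d2, d3]
        have : (-(Real.sin (z 0) * Real.sin (z 1)) * u 0 + Real.cos (z 0) * Real.cos (z 1) * u 1) ^ 2
          + (-(Real.sin (z 0) * Real.cos (z 1)) * u 0 - Real.cos (z 0) * Real.sin (z 1) * u 1) ^ 2
          + (Real.cos (z 0) * u 0) ^ 2
          = (Real.sin (z 0) ^ 2 * (Real.sin (z 1) ^ 2 + Real.cos (z 1) ^ 2) + Real.cos (z 0) ^ 2) * u 0 ^ 2
            + Real.cos (z 0) ^ 2 * (Real.sin (z 1) ^ 2 + Real.cos (z 1) ^ 2) * u 1 ^ 2 := by ring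
        rw [this, q1, mul_one, mul_one, q0]; ring
      have k2 : p1 z * p2 z / Real.cos (z 0) * u 2
          = Real.cos (z 0) * (Real.sin (z 1) * Real.cos (z 1)) * u 2 := by
        show Real.cos (z 0) * Real.sin (z 1) * (Real.cos (z 0) * Real.cos (z 1)) / Real.cos (z 0) * u 2 = _
        field_simp
      have k3 : (2 * u 3 + 2 * u 2) - 2 * p2 z ^ 2 / Real.cos (z 0) ^ 2 * u 2
          = 2 * (u 3 + Real.sin (z 1) ^ 2 * u 2) := by
        show (2 * u 3 + 2 * u 2) - 2 * (Real.cos (z 0) * Real.cos (z 1)) ^ 2 / Real.cos (z 0) ^ 2 * u 2 = _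
        rw [mul_pow]
        field_simp
        have : Real.cos (z 1) ^ 2 = 1 - Real.sin (z 1) ^ 2 := by linarith
        rw [this]; ring
      by_cases hh : Real.cos (z 0) < 1 / 2
      · rw [h5 hh u, gquad_UU, k1, k2, k3]
        have hU2 : U (Real.cos (z 0)) = Real.cos (z 0) ^ 2 :=
          hP.cap.fs _ (hP.rho1.trans hz.1.1.2.2.le)
        have hΨ2 : Ψ (Real.sin (z 0) * Real.cos (z 0)) = Real.sin (z 0) * Real.cos (z 0) / 2 := by
          refine hP.edge.far _ ?_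
          have h6 : 1 / 4 < Real.cos (z 0) := hz.1.1.2.2
          have h7 : (4 / 5) ^ 2 ≤ Real.sin (z 0) ^ 2 := by nlinarith
          have h8 : 4 / 5 ≤ Real.sin (z 0) := by
            by_contra hc
            nlinarith [not_le.1 hc]
          nlinarith
        rw [hU2, hΨ2]
        have q0' : 1 - Real.cos (z 0) ^ 2 = Real.sin (z 0) ^ 2 := by linarith
        rw [q0']
        ring
      · rw [h4 hh u, gquad_UU, k1, k2, k3]
        have : p3 z * Real.cos (z 0) = Real.sin (z 0) * Real.cos (z 0) := rfl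
        rw [this]
        ring) hyV (fun v => hRic y hyV.1 v) w
  rw [hGy] at key
  exact key

/-- zone C3: `t < ta`, `ρ < 1/2` -/
theorem zone_C3 {ρ1 a ε δ : ℝ} {Ψ U : ℝ → ℝ} (hA : Adm a Ψ U) (hP : Par ρ1 a ε δ Ψ U)
    {x : EE 4} (hx : x ∈ Uc a) (ht : tc x < taC)
    (hρ : rhoP x < 1 / 2) (hn : n3 x < 1) (w : EE 4) :
    0 * gquad (polMet (qC Ψ U)) x w ≤ ricquad (polMet (qC Ψ U)) x w := by
  have hxP : x ∈ PZ := ⟨ht, hρ⟩
  have hax : a < rhoP x := by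
    by_contra hc
    exact hx.2.2 ⟨hxP, not_lt.1 hc⟩
  obtain ⟨y', hy', rfl⟩ := tor_surj hx.1 hx.2.1 hn
  rw [tor_tc hy'] at ht
  rw [tor_rhoP hy'] at hρ hax
  have hta := isCoreC.ta_le
  have hpi := Real.pi_gt_three
  have ha0 := hP.cap.a_pos
  -- the point of `S²`
  have ht0 : 0 < y' 0 := hy'.1
  have ht1 : y' 0 < Real.pi / 2 := by linarith
  have hst : 0 < Real.sin (y' 0) := Real.sin_pos_of_pos_of_lt_pi ht0 (by linarith)
  have hct : 0 < Real.cos (y' 0) := Real.cos_pos_of_mem_Ioo ⟨by linarith, ht1⟩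
  have hsx : 0 < Real.sin (y' 1) := Real.sin_pos_of_pos_of_lt_pi hy'.2.1 (by linarith [hy'.2.2])
  have hcx : 0 < Real.cos (y' 1) := Real.cos_pos_of_mem_Ioo ⟨by linarith [hy'.2.1], hy'.2.2⟩
  have e1 := Real.sin_sq_add_cos_sq (y' 0)
  have e2 := Real.sin_sq_add_cos_sq (y' 1)
  -- `r0 = ρ`
  have hr2 : rt (y' 0) (y' 1) ^ 2
      = Real.sin (y' 0) ^ 2 + (Real.cos (y' 0) * Real.cos (y' 1)) ^ 2 := by
    unfold rt
    have h3 : 1 - Real.cos (y' 0) ^ 2 * Real.sin (y' 1) ^ 2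
        = Real.sin (y' 0) ^ 2 + (Real.cos (y' 0) * Real.cos (y' 1)) ^ 2 := by
      have h4 : Real.sin (y' 1) ^ 2 = 1 - Real.cos (y' 1) ^ 2 := by linarith
      rw [h4]
      linarith [mul_pow (Real.cos (y' 0)) (Real.cos (y' 1)) 2]
    rw [Real.sq_sqrt (by rw [h3]; positivity), h3]
  set r0 := rt (y' 0) (y' 1) with hr0
  have hr0p : 0 < r0 := ha0.trans hax
  -- the angle
  set α := Real.arctan (Real.cos (y' 0) * Real.cos (y' 1) / Real.sin (y' 0)) with hα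
  have hα0 : 0 < α := Real.arctan_pos.2 (div_pos (mul_pos hct hcx) hst)
  have hα1 : α < Real.pi / 2 := Real.arctan_lt_pi_div_two _
  have hcα : r0 * Real.cos α = Real.sin (y' 0) := by
    have h3 : 0 < Real.cos α := Real.cos_arctan_pos _
    have h4 : (r0 * Real.cos α) ^ 2 = Real.sin (y' 0) ^ 2 := by
      rw [mul_pow, hα, Real.cos_sq_arctan, hr2]
      have : Real.sin (y' 0) ^ 2 + (Real.cos (y' 0) * Real.cos (y' 1)) ^ 2 ≠ 0 := by positivity
      field_simp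
    exact (pow_left_inj₀ (by positivity) hst.le (by norm_num)).1 h4
  have hsα : r0 * Real.sin α = Real.cos (y' 0) * Real.cos (y' 1) := by
    have h3 : 0 < Real.sin α := Real.sin_pos_of_pos_of_lt_pi hα0 (by linarith)
    have h4 : (r0 * Real.sin α) ^ 2 = (Real.cos (y' 0) * Real.cos (y' 1)) ^ 2 := by
      have h5 := Real.sin_sq_add_cos_sq α
      have h6 : (r0 * Real.cos α) ^ 2 = Real.sin (y' 0) ^ 2 := by rw [hcα]
      have h7 : r0 ^ 2 * (Real.sin α ^ 2 + Real.cos α ^ 2) = r0 ^ 2 := by rw [h5, mul_one]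
      linarith [mul_pow r0 (Real.sin α) 2, mul_pow r0 (Real.cos α) 2]
    exact (pow_left_inj₀ (by positivity) (mul_pos hct hcx).le (by norm_num)).1 h4
  -- arc length parameter
  obtain ⟨B, τ, hτ, hB0, hBs, hBI, hB'⟩ := arc_ode (V := fun r => 1 - U r) (I := Ioo a (1 / 2))
    isOpen_Ioo (contDiffOn_const.sub (hP.cap.smooth.mono fun r hr => ha0.trans hr.1))
    (fun r hr => sub_pos.2 (hP.cap.lt_one r hr.1 (by linarith [hr.2]))) (r0 := r0) ⟨hax, hρ⟩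
  obtain ⟨hUU, hRic⟩ := ric_cap hP.cap hBs (fun s hs => ⟨(hBI s hs).1, by linarith [(hBI s hs).2]⟩) hB'
  let y : EE 4 := v4 0 α (y' 2) (-(y' 3) / 2)
  let p1 : EE 4 → ℝ := fun y => B (y 0) * Real.cos (y 1)
  let p2 : EE 4 → ℝ := fun y => B (y 0) * Real.sin (y 1)
  let p3 : EE 4 → ℝ := fun y => √(1 - B (y 0) ^ 2)
  let W : Set (EE 4) := UDom (Ioo (-τ) τ)
  have hWo : IsOpen W := isOpen_UDom isOpen_Ioo
  have c0 : ContDiff ℝ ∞ (fun y : EE 4 => y 0) := contDiff_piLp_apply ..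
  have c1 : ContDiff ℝ ∞ (fun y : EE 4 => y 1) := contDiff_piLp_apply ..
  have sB : ContDiffOn ℝ ∞ (fun y : EE 4 => B (y 0)) W := fun_coord_smooth hBs 0 fun z hz => hz.1
  have sp1 : ContDiffOn ℝ ∞ p1 W := sB.mul (Real.contDiff_cos.comp c1).contDiffOn
  have sp2 : ContDiffOn ℝ ∞ p2 W := sB.mul (Real.contDiff_sin.comp c1).contDiffOn
  have hB1 : ∀ z ∈ W, 0 < 1 - B (z 0) ^ 2 := by
    intro z hz
    have h3 := hBI _ hz.1
    have h4 : 0 < B (z 0) := ha0.trans h3.1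
    nlinarith [h3.2]
  have sp3 : ContDiffOn ℝ ∞ p3 W :=
    (contDiffOn_const.sub (sB.pow 2)).sqrt fun z hz => (hB1 z hz).ne'
  let V : Set (EE 4) := {y | y ∈ W ∧ Real.arcsin (p1 y) < taC}
  have hV : IsOpen V := by
    have h3 : V = W ∩ (fun y => Real.arcsin (p1 y)) ⁻¹' (Iio taC) := rfl
    rw [h3]
    exact (Real.continuous_arcsin.comp_continuousOn sp1.continuousOn).isOpen_inter_preimage hWo isOpen_Iio
  have hVW : V ⊆ W := fun z hz => hz.1
  have b1 : ∀ z ∈ V, 0 < B (z 0) := fun z hz => ha0.trans (hBI _ hz.1.1).1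
  have b2 : ∀ z ∈ V, 0 < Real.sin (z 1) := fun z hz =>
    Real.sin_pos_of_pos_of_lt_pi hz.1.2.1 (by linarith [hz.1.2.2])
  have b3 : ∀ z ∈ V, 0 < Real.cos (z 1) := fun z hz =>
    Real.cos_pos_of_mem_Ioo ⟨by linarith [hz.1.2.1], hz.1.2.2⟩
  have hyW : y ∈ W := ⟨⟨by show -τ < (0:ℝ); linarith, hτ⟩, hα0, hα1⟩
  have hp1y : p1 y = Real.sin (y' 0) := by
    show B 0 * Real.cos α = _
    rw [hB0, hcα]
  have hp2y : p2 y = Real.cos (y' 0) * Real.cos (y' 1) := by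
    show B 0 * Real.sin α = _
    rw [hB0, hsα]
  have hp3y : p3 y = Real.cos (y' 0) * Real.sin (y' 1) := by
    show √(1 - B 0 ^ 2) = _
    rw [hB0, hr2]
    have : 1 - (Real.sin (y' 0) ^ 2 + (Real.cos (y' 0) * Real.cos (y' 1)) ^ 2)
        = (Real.cos (y' 0) * Real.sin (y' 1)) ^ 2 := by
      have h4 : Real.sin (y' 1) ^ 2 = 1 - Real.cos (y' 1) ^ 2 := by linarith
      rw [mul_pow, mul_pow, h4]
      linarith
    rw [this, Real.sqrt_sq (mul_pos hct hsx).le]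
  have hyV : y ∈ V := by
    refine ⟨hyW, ?_⟩
    rw [hp1y, Real.arcsin_sin (by linarith) ht1.le]; exact ht
  obtain ⟨sΦ, hΦ⟩ := qC_fs Ψ U hV (sp1.mono hVW) (sp2.mono hVW) (sp3.mono hVW)
    (fun z hz => mul_pos (b1 z hz) (b3 z hz)) (fun z hz => mul_pos (b1 z hz) (b2 z hz))
    (fun z hz => Real.sqrt_pos.2 (hB1 z hz.1))
    (fun z hz => by
      show (B (z 0) * Real.cos (z 1)) ^ 2 + (B (z 0) * Real.sin (z 1)) ^ 2 + √(1 - B (z 0) ^ 2) ^ 2 = 1
      rw [Real.sq_sqrt (hB1 z hz.1).le]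
      have h6 := Real.sin_sq_add_cos_sq (z 1)
      have : (B (z 0) * Real.cos (z 1)) ^ 2 + (B (z 0) * Real.sin (z 1)) ^ 2
        = B (z 0) ^ 2 * (Real.sin (z 1) ^ 2 + Real.cos (z 1) ^ 2) := by ring
      rw [this, h6]; ring)
    (fun z hz => hz.2) (-2) 0 (r := fun z => B (z 0)) b1
    (fun z _ => by
      show B (z 0) ^ 2 = (B (z 0) * Real.cos (z 1)) ^ 2 + (B (z 0) * Real.sin (z 1)) ^ 2
      have h6 := Real.sin_sq_add_cos_sq (z 1)
      have : (B (z 0) * Real.cos (z 1)) ^ 2 + (B (z 0) * Real.sin (z 1)) ^ 2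
        = B (z 0) ^ 2 * (Real.sin (z 1) ^ 2 + Real.cos (z 1) ^ 2) := by ring
      rw [this, h6]; ring)
  have hGy : tor (Gm (fun y => Real.arcsin (p1 y)) (fun y => Real.arctan (p3 y / p2 y)) (-2) 0 y)
      = tor y' := by
    congr 1
    ext i
    fin_cases i
    · show Real.arcsin (p1 y) = y' 0
      rw [hp1y, Real.arcsin_sin (by linarith) ht1.le]
    · show Real.arctan (p3 y / p2 y) = y' 1
      rw [hp2y, hp3y]
      exact arctan_ratio hct hy'.2.1 hy'.2.2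
    · rfl
    · show (-2 : ℝ) * (-(y' 3) / 2) + 0 * y' 2 = y' 3
      ring
  -- derivatives
  have dB : ∀ z ∈ W, HasFDerivAt (fun y : EE 4 => B (y 0)) (√(1 - U (B (z 0))) • prj 0) z := by
    intro z hz
    exact (hB' _ hz.1).comp_hasFDerivAt z ((prj 0 : EE 4 →L[ℝ] ℝ).hasFDerivAt)
  have dc1 : ∀ z : EE 4, HasFDerivAt (fun y : EE 4 => y 1) (prj 1) z := fun z => (prj 1).hasFDerivAt
  have d1 : ∀ z ∈ W, ∀ u : EE 4, fderiv ℝ p1 z u = √(1 - U (B (z 0))) * u 0 * Real.cos (z 1)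
      - B (z 0) * Real.sin (z 1) * u 1 := by
    intro z hz u
    have h3 : HasFDerivAt p1 _ z := (dB z hz).mul (dc1 z).cos
    rw [h3.fderiv]
    simp
    ring
  have d2 : ∀ z ∈ W, ∀ u : EE 4, fderiv ℝ p2 z u = √(1 - U (B (z 0))) * u 0 * Real.sin (z 1)
      + B (z 0) * Real.cos (z 1) * u 1 := by
    intro z hz u
    have h3 : HasFDerivAt p2 _ z := (dB z hz).mul (dc1 z).sin
    rw [h3.fderiv]
    simp
    ring
  have d3 : ∀ z ∈ W, ∀ u : EE 4, p3 z * fderiv ℝ p3 z u = -(B (z 0) * (√(1 - U (B (z 0))) * u 0)) := by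
    intro z hz u
    have h2 : HasFDerivAt (fun y : EE 4 => 1 - B (y 0) ^ 2) _ z := ((dB z hz).pow 2).const_sub 1
    have h3 : HasFDerivAt p3 _ z := h2.sqrt (hB1 z hz).ne'
    rw [h3.fderiv]
    have h4 : 0 < √(1 - B (z 0) ^ 2) := Real.sqrt_pos.2 (hB1 z hz)
    show √(1 - B (z 0) ^ 2) * _ = _
    simp
    field_simp
  have key := push_polMet (q := qC Ψ U) (qC_met hA) (fun p _ => qC_isQF Ψ U p)
    (g' := UU B (fun s => B s * √(1 - U (B s)))) (V' := V)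
    ⟨hV, fun i j => ((isRMetricOn_UU hUU).smooth i j).mono fun z hz => hz.1,
      fun z hz => (isRMetricOn_UU hUU).posDef z hz.1⟩
    sΦ
    (fun z hz => mem_Uc_tor (hΦ z hz).1 fun _ => by
      rw [(hΦ z hz).2.2.1]
      exact (hBI _ hz.1.1).1)
    (fun z hz u => by
      obtain ⟨h1, h2, h3, h4, h5⟩ := hΦ z hz
      have hBz := b1 z hz
      have hBz' := hBz.ne'
      have hlt := (hBI _ hz.1.1).2
      have q1 := Real.sin_sq_add_cos_sq (z 1)
      have hVp : 0 < 1 - U (B (z 0)) :=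
        sub_pos.2 (hP.cap.lt_one _ (hBI _ hz.1.1).1 (by linarith))
      have hsq : √(1 - U (B (z 0))) ^ 2 = 1 - U (B (z 0)) := Real.sq_sqrt hVp.le
      have hp3 : 0 < p3 z := Real.sqrt_pos.2 (hB1 z hz.1)
      have hp3sq : p3 z ^ 2 = 1 - B (z 0) ^ 2 := Real.sq_sqrt (hB1 z hz.1).le
      have hb1 := hB1 z hz.1
      rw [h5 hlt u, gquad_UU]
      have k3 : fderiv ℝ p3 z u = -(B (z 0) * (√(1 - U (B (z 0))) * u 0)) / p3 z := by
        rw [← d3 z hz.1 u]; field_simp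
      have k1 : (fderiv ℝ p1 z u) ^ 2 + (fderiv ℝ p2 z u) ^ 2 + (fderiv ℝ p3 z u) ^ 2
          = (1 - U (B (z 0))) / (1 - B (z 0) ^ 2) * u 0 ^ 2 + (B (z 0) * u 1) ^ 2 := by
        rw [k3, div_pow, hp3sq, d1 z hz.1, d2 z hz.1]
        have h6 : (√(1 - U (B (z 0))) * u 0 * Real.cos (z 1) - B (z 0) * Real.sin (z 1) * u 1) ^ 2
          + (√(1 - U (B (z 0))) * u 0 * Real.sin (z 1) + B (z 0) * Real.cos (z 1) * u 1) ^ 2
          = √(1 - U (B (z 0))) ^ 2 * u 0 ^ 2 * (Real.sin (z 1) ^ 2 + Real.cos (z 1) ^ 2)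
            + B (z 0) ^ 2 * u 1 ^ 2 * (Real.sin (z 1) ^ 2 + Real.cos (z 1) ^ 2) := by ring
        rw [h6, q1, hsq]
        have h7 : (-(B (z 0) * (√(1 - U (B (z 0))) * u 0))) ^ 2
            = B (z 0) ^ 2 * √(1 - U (B (z 0))) ^ 2 * u 0 ^ 2 := by ring
        rw [h7, hsq]
        field_simp
        ring
      have k2 : p1 z * p2 z / B (z 0) * u 2
          = B (z 0) * (Real.sin (z 1) * Real.cos (z 1)) * u 2 := by
        show B (z 0) * Real.cos (z 1) * (B (z 0) * Real.sin (z 1)) / B (z 0) * u 2 = _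
        field_simp
      have k4 : ((-2) * u 3 + 0 * u 2) - 2 * p2 z ^ 2 / B (z 0) ^ 2 * u 2
          = -2 * (u 3 + Real.sin (z 1) ^ 2 * u 2) := by
        show ((-2) * u 3 + 0 * u 2) - 2 * (B (z 0) * Real.sin (z 1)) ^ 2 / B (z 0) ^ 2 * u 2 = _
        rw [mul_pow]
        field_simp
        ring
      rw [k1, k2, k4, d3 z hz.1]
      have k5 : (-(B (z 0) * (√(1 - U (B (z 0))) * u 0)) / B (z 0)) ^ 2 = (1 - U (B (z 0))) * u 0 ^ 2 := by
        have : -(B (z 0) * (√(1 - U (B (z 0))) * u 0)) / B (z 0) = -(√(1 - U (B (z 0))) * u 0) := by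
          field_simp
        rw [this, neg_sq, mul_pow, hsq]
      rw [k5]
      have k6 : (B (z 0) * √(1 - U (B (z 0))) * (u 3 + Real.sin (z 1) ^ 2 * u 2)) ^ 2
          = B (z 0) ^ 2 * (1 - U (B (z 0))) * (u 3 + Real.sin (z 1) ^ 2 * u 2) ^ 2 := by
        rw [mul_pow, mul_pow, hsq]
      rw [k6]
      field_simp
      ring) hyV (fun v => hRic y hyV.1 v) w
  rw [hGy] at key
  exact key

/-- T1: Ricci curvature of the core up to `t < T` -/
theorem core_ricci {η : ℝ} (hη : 0 < η) : ∃ d0 : ℝ, 0 < d0 ∧ ∀ (ρ1 a ε δ : ℝ) (Ψ U : ℝ → ℝ),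
    Par ρ1 a ε δ Ψ U → Adm a Ψ U → ε ≤ d0 → δ ≤ d0 →
      ∀ x ∈ Uc a, tc x ≠ taC → tc x < TC → n3 x < 1 → ∀ w,
        -η * gquad (polMet (qC Ψ U)) x w ≤ ricquad (polMet (qC Ψ U)) x w := by
  obtain ⟨d1, hd1, H⟩ := core_C1 isCoreC hη
  refine ⟨min d1 (1 / 10), lt_min hd1 (by norm_num), ?_⟩
  intro ρ1 a ε δ Ψ U hP hA hε hδ x hx hne hT hn w
  have hq : 0 ≤ gquad (polMet (qC Ψ U)) x w := gquad_nonneg (qC_met hA) hx w
  have hq' : -η * gquad (polMet (qC Ψ U)) x w ≤ 0 * gquad (polMet (qC Ψ U)) x w :=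
    mul_le_mul_of_nonneg_right (by linarith) hq
  rcases lt_or_gt_of_ne hne with h | h
  · by_cases hρ : rhoP x < 1 / 2
    · exact hq'.trans (zone_C3 hA hP hx h hρ hn w)
    · exact hq'.trans (zone_C2 hA hP (hε.trans (min_le_right _ _)) (hδ.trans (min_le_right _ _)) hx h
        (by linarith [not_lt.1 hρ]) hn w)
  · exact zone_C1 hA hP.edge (H ε δ Ψ hP.edge hP.eps0.le (hε.trans (min_le_left _ _))
      (hδ.trans (min_le_left _ _))) hx h hT hn w

end Pool.Agent.MP39e402.RR
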