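import Pool.Agent.Lib.MP_39e402_gt.GRicT
import Pool.Agent.Lib.MP_39e402_gt.R.ZCore

/-! Part U4, final file: Ricci curvature of the one-hole metric. -/

open Set Filter Topology
open scoped ContDiff BigOperators

set_option linter.unusedSimpArgs false

noncomputable section

namespace Pool.Agent.MP39e402.RR

/-- two spheres and a hyperplane have dense complement -/
theorem dense_good {r1 r2 : ℝ} (h1 : r1 ≠ 0) (h2 : r2 ≠ 0) :
    Dense {p : EE 4 | ‖p‖ ≠ r1 ∧ ‖p‖ ≠ r2 ∧ p 0 ≠ 0} := by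
  have hs : ∀ r : ℝ, r ≠ 0 → Dense {p : EE 4 | ‖p‖ ≠ r} ∧ IsOpen {p : EE 4 | ‖p‖ ≠ r} := by
    intro r hr
    have e : {p : EE 4 | ‖p‖ ≠ r} = (Metric.sphere (0 : EE 4) r)ᶜ := by
      ext p; simp
    rw [e]
    refine ⟨?_, Metric.isClosed_sphere.isOpen_compl⟩
    rw [← interior_eq_empty_iff_dense_compl]
    exact interior_sphere _ hr
  have h0 : Dense {p : EE 4 | p 0 ≠ 0} := by
    have hsurj : Function.Surjective (prj 0 : EE 4 →L[ℝ] ℝ) := fun r =>
      ⟨EuclideanSpace.single 0 r, by simp⟩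
    have ho : IsOpenMap (prj 0 : EE 4 →L[ℝ] ℝ) := (prj 0 : EE 4 →L[ℝ] ℝ).isOpenMap hsurj
    exact (dense_compl_singleton (0 : ℝ)).preimage ho
  obtain ⟨d1, o1⟩ := hs r1 h1
  obtain ⟨d2, o2⟩ := hs r2 h2
  have h12 := d1.inter_of_isOpen_left d2 o1
  have := h12.inter_of_isOpen_left h0 (o1.inter o2)
  refine this.mono ?_
  rintro p ⟨⟨a, b⟩, c⟩
  exact ⟨a, b, c⟩

theorem n3_Qm_lt {ε : ℝ} (h : 0 < ε) {p : EE 4} (hU : Ur p ≠ 0) (hp : p 0 ≠ 0) :
    n3 (Qm ε p) < 1 := by
  have hY := Yr_pos hU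
  rw [Qm_n3 h hY]
  have h1 : Ur p / Yr p ≤ 1 := (div_le_one hY).2 (Ur_le_Yr p)
  have h2 : 0 < Ur p := Ur_pos hU
  obtain ⟨b0, b1⟩ := bet_mem hY
  have hs := sin_bet_pos hY
  have hs1 : Real.sin (bet p) < 1 := by
    refine lt_of_le_of_ne (Real.sin_le_one _) fun he => ?_
    have h3 : bet p = Real.pi / 2 := by
      have h4 : Real.cos (bet p) = 0 := by
        have := Real.sin_sq_add_cos_sq (bet p)
        rw [he] at this
        nlinarith [sq_nonneg (Real.cos (bet p))]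
      have h5 : Real.cos (bet p) = Real.cos (Real.pi / 2) := by rw [h4, Real.cos_pi_div_two]
      exact Real.injOn_cos ⟨b0.le, b1.le⟩ ⟨by positivity, by linarith [Real.pi_pos]⟩ h5
    have h6 : vth (ang (p 0) (Yr p)) = vth (Real.pi / 2) := by
      rw [LAng_vth_half]
      unfold bet at h3
      linarith
    have h7 := vth_strictMono.injective h6
    have h8 := cos_angp hY
    rw [h7, Real.cos_pi_div_two] at h8
    have h9 : 0 < ‖p‖ := norm_pos_Yr hY
    have : p 0 = 0 := by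
      have := div_eq_zero_iff.1 h8.symm
      rcases this with h | h
      · exact h
      · exact absurd h h9.ne'
    exact hp this
  rw [mul_div_assoc]
  calc Real.sin (bet p) * (Ur p / Yr p) ≤ Real.sin (bet p) * 1 := mul_le_mul_of_nonneg_left h1 hs.le
    _ < 1 := by linarith

end Pool.Agent.MP39e402.RR

namespace Pool.Agent.MP39e402

open RR in
theorem ricOneHole : RicOneHole := by
  obtain ⟨C, p0, hC, hp0, hp1, HI⟩ := typeI_ricci
  refine ⟨3 * C, p0, by positivity, hp0, hp1, ?_⟩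
  intro ph hph hphle η hη
  have hph1 : ph ≤ 1 / 2 := hphle.trans hp1
  have heps := epsh_pos hph
  have hsC : 0 < sC := sC_pos
  set s := epsh ph * sC with hs
  have hs0 : 0 < s := mul_pos heps hsC
  have hs1 : s ≤ 1 := by
    have h1 := epsh_le hph hph1
    have h2 := sC_lt
    have h3 : epsh ph ≤ 1 := h1.trans (by rw [div_le_one (by norm_num)]; linarith)
    calc s ≤ 1 * 1 := mul_le_mul h3 (by linarith) hsC.le (by norm_num)
      _ = 1 := one_mul 1
  obtain ⟨d0, hd0, HC⟩ := core_ricci (η := η * s ^ 2) (by positivity)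
  have hden : 0 < 1 / (epsh ph) ^ 2 + 1 + 1 := by positivity
  refine ⟨min (min 1 d0) (min (d0 * s) (η / (1 / (epsh ph) ^ 2 + 1 + 1))), by positivity, ?_⟩
  intro ρ1 a ε δ Ψ U hP hε hδ hδ2
  have hε1 : ε ≤ 1 := hε.trans ((min_le_left _ _).trans (min_le_left _ _))
  have hε2 : ε ≤ d0 := hε.trans ((min_le_left _ _).trans (min_le_right _ _))
  have hε3 : ε * (1 / (epsh ph) ^ 2 + 1 + 1) ≤ η := by
    have := hε.trans ((min_le_right _ _).trans (min_le_right _ _))
    rwa [le_div_iff₀ hden] at this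
  have hδ3 : δ / s ≤ d0 := by
    rw [div_le_iff₀ hs0]
    exact hδ.trans ((min_le_right _ _).trans (min_le_left _ _))
  have hH : HAdm ph a Ψ U := Or.inl ⟨ρ1, ε, δ, hP, hδ2⟩
  have hA : Adm a (scΨ s Ψ) U := hH.adm hph hph1
  have hP' : Par ρ1 a ε (δ / s) (scΨ s Ψ) U :=
    ⟨hP.edge.scale hs0 hs1 hP.eps0.le, hP.eps0, hP.eps1, hP.cap, hP.rho1, hP.rho2⟩
  have hmet := qL_met hph hph1 hH
  have hCp : 0 ≤ 3 * C * ph := by positivity
  -- density
  have ht1 := isCoreC.t1_pos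
  have hta := isCoreC.ta_pos
  have hT := isCoreC.T_gt
  let D : Set (EE 4) := UL ph a ∩ {p | ‖p‖ ≠ epsh ph / 2 ∧ ‖p‖ ≠ s * (t1C + taC) ∧ p 0 ≠ 0}
  refine ricGE_of_dense hmet (D := D) inter_subset_left
    ((dense_good (by positivity) (by positivity)).open_subset_closure_inter hmet.isOpen) ?_
  rintro p ⟨hpU, hp1', hp2', hp3'⟩ w
  have hUr : Ur p ≠ 0 := hpU.1
  have hgq : 0 ≤ gquad (polMet (qL ph Ψ U)) p w := RR.gquad_nonneg hmet hpU w
  rcases lt_or_gt_of_ne hp1' with hlt | hgt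
  · -- the core
    let g : RMetric 4 := fun x => s ^ 2 • polMet (qC (scΨ s Ψ) U) x
    let W : Set (EE 4) := UL ph a ∩ {p | ‖p‖ < epsh ph / 2}
    have hWo : IsOpen W := hmet.isOpen.inter (isOpen_lt continuous_norm continuous_const)
    have hne : ∀ q ∈ W, q ≠ 0 := fun q hq => ((mem_UL_iff hph).1 hq.1).1
    have hQU : ∀ q ∈ W, Qm (epsh ph) q ∈ Uc a := fun q hq => ((mem_UL_iff hph).1 hq.1).2
    have hs2 : s ^ 2 ≠ 0 := by positivity
    have hiso : RLocIso g (Uc a) (polMet (qL ph Ψ U)) W (Qm (epsh ph)) := by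
      refine ⟨RR.isRMetricOn_smul (by positivity) (qC_met hA),
        ⟨hWo, fun i j => (hmet.smooth i j).mono inter_subset_left, fun q hq => hmet.posDef q hq.1⟩,
        (Qm_contDiffOn heps).mono fun q hq => hne q hq, hQU, ?_⟩
      intro q hq v
      rw [RR.gquad_smul, gquad_polMet (qL_isQF ph Ψ U q), gquad_polMet (qC_isQF _ U _)]
      have hq2 : ‖q‖ < epsh ph / 2 := hq.2
      unfold qL
      rw [if_pos hq2]
    have hpW : p ∈ W := ⟨hpU, hlt⟩
    have hnorm : ‖Qm (epsh ph) p‖ = ‖p‖ / s := Qm_norm heps (hne p hpW)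
    have htc : tc (Qm (epsh ph) p) = ‖p‖ / s - t1C := by rw [tc, hnorm]
    have hx1 : tc (Qm (epsh ph) p) ≠ taC := by
      rw [htc]
      intro h
      apply hp2'
      have : ‖p‖ / s = t1C + taC := by linarith
      rw [div_eq_iff hs0.ne'] at this
      rw [this]; ring
    have hx2 : tc (Qm (epsh ph) p) < TC := by
      rw [htc]
      have h1 : ‖p‖ / s < TC + t1C := by
        rw [div_lt_iff₀ hs0]
        have h2 : (TC + t1C) * s = epsh ph / 2 := by
          rw [hs]; unfold sC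
          have : TC + t1C ≠ 0 := by positivity
          field_simp
        rw [h2]; exact hlt
      linarith
    have key := HC ρ1 a ε (δ / s) (scΨ s Ψ) U hP' hA hε2 hδ3 _ (hQU p hpW) hx1 hx2
      (n3_Qm_lt heps hUr hp3') (fderiv ℝ (Qm (epsh ph)) p w)
    rw [hiso.ricquad_pull hpW, RR.ricquad_smul hs2]
    have e1 : gquad (polMet (qL ph Ψ U)) p w
        = s ^ 2 * gquad (polMet (qC (scΨ s Ψ) U)) (Qm (epsh ph) p) (fderiv ℝ (Qm (epsh ph)) p w) := by
      rw [hiso.iso p hpW w, RR.gquad_smul]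
    have e2 : -(3 * C * ph + η) * gquad (polMet (qL ph Ψ U)) p w
        ≤ -η * gquad (polMet (qL ph Ψ U)) p w :=
      mul_le_mul_of_nonneg_right (by linarith) hgq
    refine e2.trans (le_trans (le_of_eq ?_) key)
    rw [e1]; ring
  · -- type I
    let W : Set (EE 4) := {p | Ur p ≠ 0} ∩ {p | epsh ph / 2 < ‖p‖}
    have hWo : IsOpen W := isOpen_Ur.inter (isOpen_lt continuous_const continuous_norm)
    have heq : EqOn (polMet (qL ph Ψ U)) (polMet (qI ph Ψ)) W := fun q hq =>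
      polMet_congr fun v => qL_typeI Ψ U (le_of_lt hq.2) v
    have hpW : p ∈ W := ⟨hUr, hgt⟩
    have key := HI ph hph hphle ε δ Ψ hP.edge hP.eps0.le hε1 p hUr w
    have e0 : gquad (polMet (qL ph Ψ U)) p w = gquad (polMet (qI ph Ψ)) p w := by
      unfold gquad; rw [heq hpW]
    rw [RR.ricquad_congr hWo heq hpW]
    rw [e0] at hgq ⊢
    have e2 : -(3 * C * ph + η) ≤ -(3 * (C * ph) + ε * (1 / (epsh ph) ^ 2 + 1 + 1)) := by linarith
    exact (mul_le_mul_of_nonneg_right e2 hgq).trans key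

end Pool.Agent.MP39e402
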